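import Pool.Agent.Helper92.LQ.Nb

/-!
# Project LQ, block BA: the half degenerate step of the induction

Hypothesis `h1`: `a y = 0` implies `a (b y) = b y`. `w = x - b x`, `b w = 0`, `a w ≠ 0`.
(1) No nonzero vector `v` satisfies `a v = v`, `b v = 0`. The map `φ : v ↦ b v - a (b v)` kills the kernel of `a` (`h1`), so
`φ = φ ∘ a`; its range is the image of the range of `b` under `1 - a`, of dimension `k - dim P` where
`P = {z | a z = z, b z = z}` (the kernel of `1 - a` on the range of `b`), and it is the image of the range of `a`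
(dimension `k`) under `φ`, whose kernel there contains `P` and `{v | a v = v, b v = 0}`, which meet in `0`.
(2) `w = a w + (w - a w)`, `b w = 0`, so `b (a w) = - b (w - a w)` is fixed by `a` (`h1`). So `a w - b (a w)` is fixed by `a` and
killed by `b`: it is `0` by (1). Let `u = - a w`: `a u = u`, `b u = u`, `u ≠ 0`. `y = u + w` satisfies `a y = 0`.
(3) `f` with `f ∘ b = f`, `f u = 1`, `f x = 0`: `f = f' ∘ b`, `f' u = 1`, `f' (b x) = 0` (`sep2` with `U = ⊥`), possible as `u` is not a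
multiple of `b x`: if `u = c • b x`, `c ≠ 0`, then `a (b x) = b x`, so `x = a x = b x + a w = b x - u` is in the range of `b`, so
`w = 0`. `g` with `g ∘ b = 0`, `g w = 1`, `g z = 0` whenever `a z = 0`, `b z = 0`: `g = g' ∘ (1 - b)`, `g'` from `sep`. Then `f w = 0`,
`g u = 0`, `g x = g w = 1`, `f y = 1`, `g y = 1`.
(4) `frame_of`: `p0 = b - f.smulRight u`, `E = bE u w`, `F = bF f g`, `b = el p0 E F E0`. For `v` in
`K0 = ker (a - b) ⊓ ker f` we have `g v = g (v - b v) = 0` (`v - b v` is killed by `a` and `b`), so `el p0 E F A v = a v` for every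
`A`. `dim K0 ≥ dk a b - 1`.
(5) `P = el p0 E F !![1/2, -1/2; -1/2, 1/2]`: `P (u - x) = u - x` (`F (u - x) = ![1, -1]`, `p0 (u - x) = - b x`), also
`a (u - x) = u - x`; `P y = 0` (`F y = ![1, 1]`, `p0 y = 0`), `a y = 0`. The values `![0, 0]` on `K0`, `![1, -1]`, `![1, 1]` of `F` show
`dk a P ≥ dim K0 + 2 > dk a b`. So `G a P`.
(6) `Y = el p0 E F (1 - E0)`: `Y x = x = a x` (`F x = ![0, 1]`, `p0 x = b x`), so `dk a Y ≥ dim K0 + 1 ≥ dk a b`. If
`dk a b < dk a Y`: `G a Y` by `IH`. Otherwise `nb_case` for `a, Y` (its `IH` follows from ours) with `y` (`Y y = w`, and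
`a w = w` would give `w = 0` by (1)) and `x' = u` (`Y u = 0`, `a u = u ≠ 0`): `G a Y`.
(7) `cj P Y = b` (`cj_el`), so `G a b` by `hG.closure` and `hG.frame`.
-/

set_option autoImplicit false

open Module

namespace Pool.Agent.Helper92.LQ

variable {K V : Type*} [Field K] [AddCommGroup V] [Module K V] [FiniteDimensional K V]

private theorem fr_map4 {W : Type*} [AddCommGroup W] [Module K W] (S : Submodule K V)
    (g : V →ₗ[K] W) : finrank K (S.map g) + finrank K (S ⊓ LinearMap.ker g : Submodule K V) =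
      finrank K S := by
  have h1 := LinearMap.finrank_range_add_finrank_ker (g.domRestrict S)
  have h2 : LinearMap.range (g.domRestrict S) = S.map g := by
    ext z
    constructor
    · rintro ⟨v, rfl⟩
      exact ⟨v, v.2, rfl⟩
    · rintro ⟨v, hv, rfl⟩
      exact ⟨⟨v, hv⟩, rfl⟩
  have h3 : LinearMap.ker (g.domRestrict S) = (LinearMap.ker g).comap S.subtype := by
    ext z
    exact Iff.rfl
  rw [h2, h3, ← Submodule.finrank_map_subtype_eq, Submodule.map_comap_subtype] at h1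
  exact h1

private theorem le_fr4 {W : Type*} [AddCommGroup W] [Module K W] {N K0 : Submodule K V}
    (g : V →ₗ[K] W) (h1 : K0 ≤ N) (h2 : ∀ v ∈ K0, g v = 0) :
    finrank K (N.map g) + finrank K K0 ≤ finrank K N := by
  have h3 : K0 ≤ N ⊓ LinearMap.ker g := fun v hv => ⟨h1 hv, LinearMap.mem_ker.2 (h2 v hv)⟩
  have h4 := Submodule.finrank_mono h3
  have h5 := fr_map4 N g
  omega

/-- Step one: no vector is fixed by `a` and killed by `b`. -/
private theorem no_fix4 {k : ℕ} {a b : End K V} (ha : Pj k a) (hb : Pj k b)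
    (h1 : ∀ y, a y = 0 → a (b y) = b y) {v : V} (hav : a v = v) (hbv : b v = 0) : v = 0 := by
  have haa : ∀ v, a (a v) = a v := fun v => by rw [← Module.End.mul_apply, ha.1]
  have hbb : ∀ v, b (b v) = b v := fun v => by rw [← Module.End.mul_apply, hb.1]
  obtain ⟨φ, hφ⟩ : ∃ φ : End K V, ∀ v, φ v = b v - a (b v) :=
    ⟨b - a * b, fun v => rfl⟩
  have hφa : ∀ v, φ (a v) = φ v := by
    intro v
    have h2 : φ (v - a v) = 0 := by
      rw [hφ, h1 _ (by rw [map_sub, haa, sub_self]), sub_self]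
    rw [map_sub] at h2
    exact (sub_eq_zero.1 h2).symm
  have h2 : (LinearMap.range a).map φ = (LinearMap.range b).map (1 - a : End K V) := by
    ext z
    constructor
    · rintro ⟨_, ⟨y, rfl⟩, rfl⟩
      exact ⟨b y, ⟨y, rfl⟩, by rw [hφa, hφ]; rfl⟩
    · rintro ⟨_, ⟨y, rfl⟩, rfl⟩
      exact ⟨a y, ⟨y, rfl⟩, by rw [hφa, hφ]; rfl⟩
  have h3 := fr_map4 (LinearMap.range a) φ
  have h4 := fr_map4 (LinearMap.range b) (1 - a : End K V)
  have h5 : finrank K (LinearMap.range a) = k := ha.2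
  have h6 : finrank K (LinearMap.range b) = k := hb.2
  rw [h2] at h3
  have h7 : (LinearMap.range b ⊓ LinearMap.ker (1 - a : End K V) : Submodule K V) ≤
      LinearMap.range a ⊓ LinearMap.ker φ := by
    rintro z ⟨⟨y, rfl⟩, hz⟩
    have hz' : a (b y) = b y := by
      have h8 : b y - a (b y) = 0 := hz
      exact (sub_eq_zero.1 h8).symm
    refine ⟨⟨b y, hz'⟩, ?_⟩
    show φ (b y) = 0
    rw [hφ, hbb, hz', sub_self]
  have h8 := Submodule.eq_of_le_of_finrank_eq h7 (by omega)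
  have h9 : v ∈ (LinearMap.range a ⊓ LinearMap.ker φ : Submodule K V) := by
    refine ⟨⟨v, hav⟩, ?_⟩
    show φ v = 0
    rw [hφ, hbv, map_zero, sub_zero]
  rw [← h8] at h9
  obtain ⟨⟨y, hy⟩, -⟩ := h9
  rw [← hy, ← hbb, hy, hbv]

theorem bad_case (h2 : (2 : K) ≠ 0) {k : ℕ} {G : End K V → End K V → Prop} (hG : GS k G)
    {a b : End K V} (ha : Pj k a) (hb : Pj k b)
    (IH : ∀ b', Pj k b' → dk a b < dk a b' → G a b') (h1 : ∀ y, a y = 0 → a (b y) = b y)
    {x : V} (hx : a x = x) (hbx : a (x - b x) ≠ 0) : G a b := by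
  have haa : ∀ v, a (a v) = a v := fun v => by rw [← Module.End.mul_apply, ha.1]
  have hbb : ∀ v, b (b v) = b v := fun v => by rw [← Module.End.mul_apply, hb.1]
  obtain ⟨w, hw⟩ : ∃ w, w = x - b x := ⟨_, rfl⟩
  rw [← hw] at hbx
  have hbw : b w = 0 := by rw [hw, map_sub, hbb, sub_self]
  have hwa : a w ≠ w := fun h => hbx (by rw [no_fix4 ha hb h1 h hbw, map_zero])
  -- step two
  obtain ⟨u, hu⟩ : ∃ u, u = - a w := ⟨_, rfl⟩
  have hau : a u = u := by rw [hu, map_neg, haa]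
  have hu0 : u ≠ 0 := by rw [hu]; exact neg_ne_zero.2 hbx
  have hbu : b u = u := by
    have h3 : a (b (w - a w)) = b (w - a w) := h1 _ (by rw [map_sub, haa, sub_self])
    have h4 : b (w - a w) = b u := by rw [map_sub, hbw, zero_sub, hu, map_neg]
    rw [h4] at h3
    have h5 := no_fix4 ha hb h1 (v := u - b u) (by rw [map_sub, hau, h3])
      (by rw [map_sub, hbb, sub_self])
    exact (sub_eq_zero.1 h5).symm
  obtain ⟨y, hy⟩ : ∃ y, y = u + w := ⟨_, rfl⟩
  have hay : a y = 0 := by rw [hy, map_add, hau, hu, neg_add_cancel]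
  have hby : b y = u := by rw [hy, map_add, hbu, hbw, add_zero]
  -- step three
  have hux : u ∉ (⊥ : Submodule K V) ⊔ K ∙ (b x) := by
    rw [bot_sup_eq, Submodule.mem_span_singleton]
    rintro ⟨c, hc⟩
    have hc0 : c ≠ 0 := by
      rintro rfl
      rw [zero_smul] at hc
      exact hu0 hc.symm
    have h3 : a (b x) = b x := by
      have h4 : b x = c⁻¹ • u := by rw [← hc, smul_smul, inv_mul_cancel₀ hc0, one_smul]
      rw [h4, map_smul, hau]
    exact hwa (by rw [hw, map_sub, hx, h3])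
  obtain ⟨f', hf'u, hf'x, -⟩ := sep2 _ hux
  obtain ⟨f, hf⟩ : ∃ f : Dual K V, ∀ v, f v = f' (b v) := ⟨f' ∘ₗ b, fun v => rfl⟩
  have hwU : w ∉ (LinearMap.ker a ⊓ LinearMap.ker b : Submodule K V) := fun h => hbx h.1
  obtain ⟨g', hg'w, hg'U⟩ := sep _ hwU
  obtain ⟨g, hg⟩ : ∃ g : Dual K V, ∀ v, g v = g' (v - b v) :=
    ⟨g' ∘ₗ (1 - b : End K V), fun v => rfl⟩
  have hfb : ∀ v, f (b v) = f v := fun v => by rw [hf, hf, hbb]
  have hgb : ∀ v, g (b v) = 0 := fun v => by rw [hg, hbb, sub_self, map_zero]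
  have hfu : f u = 1 := by rw [hf, hbu, hf'u]
  have hfx : f x = 0 := by rw [hf, hf'x]
  have hfw : f w = 0 := by rw [hf, hbw, map_zero]
  have hgw : g w = 1 := by rw [hg, hbw, sub_zero, hg'w]
  have hgu : g u = 0 := by rw [← hbu, hgb]
  have hgx : g x = 1 := by rw [hg, ← hw, hg'w]
  have hfy : f y = 1 := by rw [hy, map_add, hfu, hfw, add_zero]
  have hgy : g y = 1 := by rw [hy, map_add, hgu, hgw, zero_add]
  -- step four
  obtain ⟨hFr, hrk, hbel⟩ := frame_of hb hbu hbw hfb hgb hfu hgw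
  obtain ⟨p0, hp0⟩ : ∃ p0 : End K V, p0 = b - f.smulRight u := ⟨_, rfl⟩
  rw [← hp0] at hFr hrk hbel
  have hp0v : ∀ v, p0 v = b v - f v • u := fun v => by rw [hp0]; rfl
  have helv : ∀ (A : Matrix (Fin 2) (Fin 2) K) (v : V), el p0 (bE u w) (bF f g) A v =
      b v - f v • u + ((A 0 0 * f v + A 0 1 * g v) • u + (A 1 0 * f v + A 1 1 * g v) • w) := by
    intro A v
    rw [el, LinearMap.add_apply, em_b, hp0v]
  obtain ⟨K0, hK0⟩ : ∃ K0 : Submodule K V, K0 = LinearMap.ker (a - b) ⊓ LinearMap.ker f :=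
    ⟨_, rfl⟩
  have hK : ∀ v ∈ K0, a v = b v ∧ f v = 0 ∧ g v = 0 := by
    intro v hv
    rw [hK0] at hv
    have h3 : a v = b v := sub_eq_zero.1 (LinearMap.mem_ker.1 hv.1)
    have h4 : f v = 0 := hv.2
    refine ⟨h3, h4, ?_⟩
    rw [hg]
    apply hg'U
    refine ⟨?_, ?_⟩
    · show a (v - b v) = 0
      rw [map_sub, ← h3, haa, sub_self]
    · show b (v - b v) = 0
      rw [map_sub, hbb, sub_self]
  have hKle : ∀ A : Matrix (Fin 2) (Fin 2) K,
      K0 ≤ LinearMap.ker (a - el p0 (bE u w) (bF f g) A) := by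
    intro A v hv
    obtain ⟨h3, h4, h5⟩ := hK v hv
    rw [LinearMap.mem_ker, LinearMap.sub_apply, helv, h3, h4, h5]
    simp
  have hKd : dk a b ≤ finrank K K0 + 1 := by
    have h3 := fr_map4 (LinearMap.ker (a - b)) f
    rw [← hK0] at h3
    have h4 : finrank K ((LinearMap.ker (a - b)).map f) ≤ 1 := by
      refine (Submodule.finrank_le _).trans (le_of_eq ?_)
      exact finrank_self K
    rw [dk]
    omega
  -- step five
  obtain ⟨A, hA⟩ : ∃ A : Matrix (Fin 2) (Fin 2) K, A = !![2⁻¹, -2⁻¹; -2⁻¹, 2⁻¹] := ⟨_, rfl⟩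
  have hh : (2 : K)⁻¹ + 2⁻¹ = 1 := by field_simp; norm_num
  have hIA : I1 A := by
    rw [I1_iff, hA]
    constructor
    · show (2 : K)⁻¹ = 1 - 2⁻¹
      linear_combination hh
    · show -(2 : K)⁻¹ * -2⁻¹ = 2⁻¹ * (1 - 2⁻¹)
      linear_combination (2 : K)⁻¹ * hh
  have hPP : Pj k (el p0 (bE u w) (bF f g) A) := Pj_el hFr hrk hIA
  have hPux : el p0 (bE u w) (bF f g) A (u - x) = u - x := by
    rw [helv, map_sub, map_sub, map_sub, hbu, hfu, hfx, hgu, hgx, hA]
    have h3 : (!![2⁻¹, -2⁻¹; -2⁻¹, 2⁻¹] : Matrix (Fin 2) (Fin 2) K) 0 0 * (1 - 0) +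
        (!![2⁻¹, -2⁻¹; -2⁻¹, 2⁻¹] : Matrix (Fin 2) (Fin 2) K) 0 1 * (0 - 1) = 1 := by
      show (2 : K)⁻¹ * (1 - 0) + -2⁻¹ * (0 - 1) = 1
      linear_combination hh
    have h4 : (!![2⁻¹, -2⁻¹; -2⁻¹, 2⁻¹] : Matrix (Fin 2) (Fin 2) K) 1 0 * (1 - 0) +
        (!![2⁻¹, -2⁻¹; -2⁻¹, 2⁻¹] : Matrix (Fin 2) (Fin 2) K) 1 1 * (0 - 1) = -1 := by
      show -(2 : K)⁻¹ * (1 - 0) + 2⁻¹ * (0 - 1) = -1
      linear_combination -hh
    rw [h3, h4, hw, sub_zero, one_smul, neg_smul, one_smul]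
    abel
  have hPy : el p0 (bE u w) (bF f g) A y = 0 := by
    rw [helv, hby, hfy, hgy, hA]
    have h3 : (!![2⁻¹, -2⁻¹; -2⁻¹, 2⁻¹] : Matrix (Fin 2) (Fin 2) K) 0 0 * 1 +
        (!![2⁻¹, -2⁻¹; -2⁻¹, 2⁻¹] : Matrix (Fin 2) (Fin 2) K) 0 1 * 1 = 0 := by
      show (2 : K)⁻¹ * 1 + -2⁻¹ * 1 = 0
      ring
    have h4 : (!![2⁻¹, -2⁻¹; -2⁻¹, 2⁻¹] : Matrix (Fin 2) (Fin 2) K) 1 0 * 1 +
        (!![2⁻¹, -2⁻¹; -2⁻¹, 2⁻¹] : Matrix (Fin 2) (Fin 2) K) 1 1 * 1 = 0 := by
      show -(2 : K)⁻¹ * 1 + 2⁻¹ * 1 = 0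
      ring
    rw [h3, h4, one_smul, zero_smul, zero_smul, sub_self, add_zero, add_zero]
  have hGP : G a (el p0 (bE u w) (bF f g) A) := by
    apply IH _ hPP
    have h3 := le_fr4 (bF f g) (hKle A) (fun v hv => by
      obtain ⟨-, h4, h5⟩ := hK v hv
      rw [bF_apply, h4, h5]
      ext i
      fin_cases i <;> rfl)
    have h4 : (LinearMap.ker (a - el p0 (bE u w) (bF f g) A)).map (bF f g) = ⊤ := by
      rw [eq_top_iff]
      rintro z -
      have hm1 : u - x ∈ LinearMap.ker (a - el p0 (bE u w) (bF f g) A) := by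
        rw [LinearMap.mem_ker, LinearMap.sub_apply, hPux, map_sub, hau, hx, sub_self]
      have hm2 : y ∈ LinearMap.ker (a - el p0 (bE u w) (bF f g) A) := by
        rw [LinearMap.mem_ker, LinearMap.sub_apply, hPy, hay, sub_zero]
      refine ⟨(2⁻¹ * (z 0 - z 1)) • (u - x) + (2⁻¹ * (z 0 + z 1)) • y,
        Submodule.add_mem _ (Submodule.smul_mem _ _ hm1) (Submodule.smul_mem _ _ hm2), ?_⟩
      rw [map_add, map_smul, map_smul, bF_apply, bF_apply, map_sub, map_sub, hfu, hfx, hgu, hgx,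
        hfy, hgy]
      ext i
      fin_cases i
      · show 2⁻¹ * (z 0 - z 1) * (1 - 0) + 2⁻¹ * (z 0 + z 1) * 1 = z 0
        linear_combination (z 0) * hh
      · show 2⁻¹ * (z 0 - z 1) * (0 - 1) + 2⁻¹ * (z 0 + z 1) * 1 = z 1
        linear_combination (z 1) * hh
    rw [h4, finrank_top, Module.finrank_fin_fun] at h3
    have h5 : finrank K (LinearMap.ker (a - el p0 (bE u w) (bF f g) A)) =
      dk a (el p0 (bE u w) (bF f g) A) := rfl
    omega
  -- step six
  have hIB : I1 (1 - E0 : Matrix (Fin 2) (Fin 2) K) := I1_one_sub I1_E0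
  have hYY : Pj k (el p0 (bE u w) (bF f g) (1 - E0)) := Pj_el hFr hrk hIB
  have hYv : ∀ v, el p0 (bE u w) (bF f g) (1 - E0) v = b v - f v • u + g v • w := by
    intro v
    rw [helv]
    simp [E0]
  have hYx : el p0 (bE u w) (bF f g) (1 - E0) x = x := by
    rw [hYv, hfx, hgx, zero_smul, sub_zero, one_smul, hw]
    abel
  have hYy : el p0 (bE u w) (bF f g) (1 - E0) y = w := by
    rw [hYv, hby, hfy, hgy, one_smul, one_smul, sub_self, zero_add]
  have hYu : el p0 (bE u w) (bF f g) (1 - E0) u = 0 := by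
    rw [hYv, hbu, hfu, hgu, one_smul, zero_smul, sub_self, zero_add]
  have hle : dk a b ≤ dk a (el p0 (bE u w) (bF f g) (1 - E0)) := by
    have h3 := le_fr4 g (hKle (1 - E0)) (fun v hv => (hK v hv).2.2)
    have h4 : (LinearMap.ker (a - el p0 (bE u w) (bF f g) (1 - E0))).map g = ⊤ := by
      rw [eq_top_iff]
      rintro z -
      refine ⟨z • x, Submodule.smul_mem _ _ ?_, ?_⟩
      · rw [LinearMap.mem_ker, LinearMap.sub_apply, hYx, hx, sub_self]
      · rw [map_smul, hgx, smul_eq_mul, mul_one]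
    rw [h4, finrank_top, finrank_self] at h3
    have h5 : finrank K (LinearMap.ker (a - el p0 (bE u w) (bF f g) (1 - E0))) =
      dk a (el p0 (bE u w) (bF f g) (1 - E0)) := rfl
    omega
  have hGY : G a (el p0 (bE u w) (bF f g) (1 - E0)) := by
    refine nb_case h2 hG ha hYY (fun b' hb' hlt => IH b' hb' (lt_of_le_of_lt hle hlt))
      (x := u) (y := y) hay ?_ hau ?_
    · rw [hYy]
      exact hwa
    · rw [hYu, sub_zero, hau]
      exact hu0
  -- step seven
  have hGPY := hG.frame p0 _ _ hFr hrk A (1 - E0) hIA hIB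
  have hcl := hG.closure a _ _ ha hPP hYY hGP hGY hGPY
  rw [cj_el hFr] at hcl
  have h3 : (1 - (A + A)) * (1 - E0) * (1 - (A + A)) = E0 := by
    have h4 : 1 - (A + A) = !![0, 1; 1, 0] := by
      rw [hA]
      ext i j
      fin_cases i <;> fin_cases j <;> simp [hh, ← neg_add]
    have h5 : (1 - E0 : Matrix (Fin 2) (Fin 2) K) = !![0, 0; 0, 1] := by
      ext i j
      fin_cases i <;> fin_cases j <;> simp [E0]
    rw [h4, h5]
    ext i j
    fin_cases i <;> fin_cases j <;> simp [E0, Matrix.mul_apply, Fin.sum_univ_two]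
  rw [h3, ← hbel] at hcl
  exact hcl

end Pool.Agent.Helper92.LQ
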