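import Pool.Agent.Helper92.LQ.Defs

/-!
# Project LQ, block CT: the colour theory

`apply_good`. Let `T` be a colour map (`CB k T`) and `Good k P Y`. There is a colour map `T'` with
`sim (T (T' c)) c` and `sim (T' (T c)) c` for all `c` of `Pj k` (`exists_inv`: `T` induces an injective map, hence
a bijection, of the finite set of classes of `sim` on `{c // Pj k c}`; injective since
`cr c d 1` iff `sim c d` (`cr_one`); choose representatives). Put `χ c = T' (cj (T P) (T c))`. Then `Adm k P χ`: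
- `fix`: `cr c P 2` gives `cr (T c) (T P) 2`, so `sim (cj (T P) (T c)) (T c)` (`sim_cj_of_cr`: with `C = iv c`, `A = iv a`
  and `(C A)^2 = 1` or `-1` we get `A C A = C` or `- C`), so `χ c` is similar to `T' (T c)`, to `c`.
- `half`: `cr y (χ y) m` iff `cr (T y) (cj (T P) (T y)) m` iff `cr (T y) (T P) (2 * m)` (`cr_cj_self`: with `Y = iv y`,
  `Y * (A Y A) = (Y A)^2`) iff `cr y P (2 * m)`.
Hence `sim (cj P Y) (χ Y)`; apply `T`.

`good_closure`: apply `apply_good` to `T = ψ`: `ψ (cj P Y)` is similar to `cj (ψ P) (ψ Y)`, to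
`cj (cj a P) (cj a Y) = cj a (cj P Y)`.
-/

set_option autoImplicit false

open Module

namespace Pool.Agent.Helper92.LQ

variable {K V : Type*} [Field K] [AddCommGroup V] [Module K V]

private theorem mul_cancel99 {A B : End K V} (hA : A * A = 1) (h : A * B = 1) : B = A := by
  calc B = (A * A) * B := by rw [hA, one_mul]
    _ = A * (A * B) := mul_assoc _ _ _
    _ = A := by rw [h, mul_one]

private theorem mul_cancel_neg99 {A B : End K V} (hA : A * A = 1) (h : A * B = -1) : B = -A := by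
  calc B = (A * A) * B := by rw [hA, one_mul]
    _ = A * (A * B) := mul_assoc _ _ _
    _ = -A := by rw [h, mul_neg, mul_one]

theorem cr_one (h2 : (2 : K) ≠ 0) {a b : End K V} (ha : a * a = a) (hb : b * b = b) :
    cr a b 1 ↔ sim a b := by
  have hA := iv_sq ha

  constructor
  · rintro (h | h)
    · rw [pow_one] at h
      exact sim_of_iv h2 (Or.inl (mul_cancel99 hA h))
    · rw [pow_one] at h
      exact sim_of_iv h2 (Or.inr (mul_cancel_neg99 hA h))
  · intro h
    rcases h.iv with h1 | h1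
    · left
      rw [pow_one, h1, hA]
    · right
      rw [pow_one, h1, mul_neg, hA]

theorem sim_cj_of_cr (h2 : (2 : K) ≠ 0) {a c : End K V} (ha : a * a = a) (hc : c * c = c)
    (h : cr c a 2) : sim (cj a c) c := by
  have hC := iv_sq hc
  have e1 : (iv c * iv a) ^ 2 = iv c * (iv a * iv c * iv a) := by
    rw [pow_two]; simp only [mul_assoc]
  apply sim_of_iv h2
  rw [iv_cj ha]
  rcases h with h | h
  · left
    rw [e1] at h
    exact (mul_cancel99 hC h).symm
  · right
    rw [e1] at h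
    rw [mul_cancel_neg99 hC h, neg_neg]

theorem cr_cj_self {a y : End K V} (ha : a * a = a) (m : ℕ) :
    cr y (cj a y) m ↔ cr y a (2 * m) := by
  have e1 : iv y * iv (cj a y) = (iv y * iv a) ^ 2 := by
    rw [iv_cj ha, pow_two]; simp only [mul_assoc]
  unfold cr
  rw [e1, pow_mul]

private theorem conj_pow99 {C : End K V} (hC : C * C = 1) (X : End K V) (m : ℕ) :
    (C * X * C) ^ m = C * X ^ m * C := by
  induction m with
  | zero => rw [pow_zero, pow_zero, mul_one, hC]
  | succ m ih =>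
    rw [pow_succ, ih, pow_succ]
    calc C * X ^ m * C * (C * X * C) = C * X ^ m * (C * C) * X * C := by simp only [mul_assoc]
      _ = C * (X ^ m * X) * C := by rw [hC, mul_one]; simp only [mul_assoc]

private theorem conj_eq99 {C : End K V} (hC : C * C = 1) {X Z : End K V} (hZ : C * Z = Z * C) :
    C * X * C = Z ↔ X = Z := by
  constructor
  · intro h
    calc X = (C * C) * X * (C * C) := by rw [hC, one_mul, mul_one]
      _ = C * (C * X * C) * C := by simp only [mul_assoc]
      _ = C * Z * C := by rw [h]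
      _ = Z * (C * C) := by rw [hZ, mul_assoc]
      _ = Z := by rw [hC, mul_one]
  · rintro rfl
    rw [hZ, mul_assoc, hC, mul_one]

theorem cr_cj_cj {a b c : End K V} (hc : c * c = c) (m : ℕ) :
    cr (cj c a) (cj c b) m ↔ cr a b m := by
  have hC := iv_sq hc
  have e1 : iv (cj c a) * iv (cj c b) = iv c * (iv a * iv b) * iv c := by
    rw [iv_cj hc, iv_cj hc]
    calc iv c * iv a * iv c * (iv c * iv b * iv c) =
        iv c * iv a * (iv c * iv c) * iv b * iv c := by simp only [mul_assoc]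
      _ = iv c * (iv a * iv b) * iv c := by rw [hC, mul_one]; simp only [mul_assoc]
  unfold cr
  rw [e1, conj_pow99 hC, conj_eq99 hC (by rw [mul_one, one_mul]),
    conj_eq99 hC (by rw [mul_neg, neg_mul, mul_one, one_mul])]

private theorem CB.sim99 (h2 : (2 : K) ≠ 0) {k : ℕ} {T : End K V → End K V} (hT : CB k T)
    {c d : End K V} (hc : Pj k c) (hd : Pj k d) : sim (T c) (T d) ↔ sim c d := by
  rw [← cr_one h2 (hT.maps c hc).1 (hT.maps d hd).1, hT.ord c d 1 hc hd, cr_one h2 hc.1 hd.1]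

theorem exists_inv [Finite K] [FiniteDimensional K V] (h2 : (2 : K) ≠ 0) {k : ℕ}
    {T : End K V → End K V} (hT : CB k T) :
    ∃ T' : End K V → End K V, CB k T' ∧ ∀ c, Pj k c → sim (T (T' c)) c ∧ sim (T' (T c)) c := by
  classical
  have : Finite (End K V) := Module.finite_of_finite K
  let s : Setoid {c : End K V // Pj k c} :=
    ⟨fun x y => sim x.1 y.1, ⟨fun _ => sim_refl _, fun h => sim.symm h, fun h h' => sim.trans h h'⟩⟩
  let F : Quotient s → Quotient s := Quotient.map
    (fun x => (⟨T x.1, hT.maps _ x.2⟩ : {c : End K V // Pj k c}))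
    (fun x y h => (hT.sim99 h2 x.2 y.2).2 h)
  have inj : Function.Injective F := by
    rintro ⟨x⟩ ⟨y⟩ h
    exact Quotient.sound ((hT.sim99 h2 x.2 y.2).1 (Quotient.exact h))
  have surj : Function.Surjective F := Finite.surjective_of_injective inj
  have key : ∀ d, Pj k d → ∃ c, Pj k c ∧ sim (T c) d := by
    intro d hd
    obtain ⟨⟨x⟩, hx⟩ := surj (Quotient.mk s ⟨d, hd⟩)
    exact ⟨x.1, x.2, Quotient.exact hx⟩
  have key2 : ∀ d, ∃ c, Pj k d → Pj k c ∧ sim (T c) d := by
    intro d
    by_cases hd : Pj k d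
    · obtain ⟨c, hc⟩ := key d hd
      exact ⟨c, fun _ => hc⟩
    · exact ⟨0, fun h => absurd h hd⟩
  choose T' hT' using key2
  refine ⟨T', ⟨fun c hc => (hT' c hc).1, fun c d m hc hd => ?_⟩, fun c hc => ⟨(hT' c hc).2, ?_⟩⟩
  · rw [← hT.ord _ _ m (hT' c hc).1 (hT' d hd).1]
    exact cr_congr (hT' c hc).2 (hT' d hd).2
  · have h3 := hT' (T c) (hT.maps c hc)
    exact (hT.sim99 h2 h3.1 hc).1 h3.2

theorem apply_good [Finite K] [FiniteDimensional K V] (h2 : (2 : K) ≠ 0) {k : ℕ}
    {T : End K V → End K V} (hT : CB k T) {P Y : End K V} (hP : Pj k P) (hY : Pj k Y)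
    (hG : Good k P Y) : sim (cj (T P) (T Y)) (T (cj P Y)) := by
  obtain ⟨T', hT', hinv⟩ := exists_inv h2 hT
  have hTP := hT.maps P hP
  have hcj : ∀ c, Pj k c → Pj k (cj (T P) (T c)) := fun c hc => Pj.cj hTP.1 (hT.maps c hc)
  have hadm : Adm k P (fun c => T' (cj (T P) (T c))) := by
    refine ⟨⟨fun c hc => hT'.maps _ (hcj c hc), fun c d m hc hd => ?_⟩, fun c hc h => ?_,
      fun y m hy => ?_⟩
    · rw [hT'.ord _ _ m (hcj c hc) (hcj d hd), cr_cj_cj hTP.1, hT.ord _ _ m hc hd]
    · have h3 : cr (T c) (T P) 2 := (hT.ord c P 2 hc hP).2 h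
      have h4 := sim_cj_of_cr h2 hTP.1 (hT.maps c hc).1 h3
      have h5 := (hT'.sim99 h2 (hcj c hc) (hT.maps c hc)).2 h4
      exact (h5.trans (hinv c hc).2).symm
    · have h3 := hT'.maps _ (hcj y hy)
      rw [← hT.ord _ _ m hy h3, ← hT.ord y P (2 * m) hy hP, ← cr_cj_self hTP.1]
      exact cr_congr (sim_refl _) (hinv _ (hcj y hy)).1
  have h6 := hG _ hadm
  have h7 := (hT.sim99 h2 (Pj.cj hP.1 hY) (hT'.maps _ (hcj Y hY))).2 h6
  exact (h7.trans (hinv _ (hcj Y hY)).1).symm

private theorem cj_cj_cj99 {a P Y : End K V} (ha : a * a = a) :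
    cj (cj a P) (cj a Y) = cj a (cj P Y) := by
  have hA := iv_sq ha
  show iv (cj a P) * (iv a * Y * iv a) * iv (cj a P) = iv a * (iv P * Y * iv P) * iv a
  rw [iv_cj ha]
  calc iv a * iv P * iv a * (iv a * Y * iv a) * (iv a * iv P * iv a) =
      iv a * iv P * (iv a * iv a) * Y * (iv a * iv a) * iv P * iv a := by simp only [mul_assoc]
    _ = iv a * (iv P * Y * iv P) * iv a := by
        rw [hA, mul_one, mul_one]; simp only [mul_assoc]

theorem good_closure [Finite K] [FiniteDimensional K V] (h2 : (2 : K) ≠ 0) {k : ℕ}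
    {a P Y : End K V} (ha : Pj k a) (hP : Pj k P) (hY : Pj k Y) (h1 : Good k a P)
    (h3 : Good k a Y) (h4 : Good k P Y) : Good k a (cj P Y) := by
  intro ψ hψ
  have h5 := apply_good h2 hψ.cb hP hY h4
  have h6 := cj_sim (cj_idem ha.1 hP.1) (h1 ψ hψ) (h3 ψ hψ)
  rw [cj_cj_cj99 ha.1] at h6
  exact h6.trans h5

end Pool.Agent.Helper92.LQ
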