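import Mathlib

/-!
# Project LQ (MP_0d9fdb_al): the coloured graph of the split involutions of `PSL(n, q)`, `q` odd

`V` is a finite dimensional space over a finite field `K` of characteristic not two. `Pj k p`: `p` is an
idempotent endomorphism of rank `k`. The involution of `p` is `iv p = 1 - 2 p` (written `1 - (p + p)`);
`cj a b = iv a * b * iv a` is the conjugate. `sim a b`: `b = a` or `b = 1 - a` (equal involutions up to
sign). `cr a b m`: the `m`-th power of `iv a * iv b` is `1` or `-1`. `CB k T`: `T` maps `Pj k` to itself and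
preserves the relations `cr`. `Adm k a ψ`: moreover `ψ` fixes (up to `sim`) all `c` which commute with `a` (up to
sign), and `y, ψ y` are related like `y, cj a y`. `Good k a b`: every such `ψ` maps `b` to `cj a b` (up to
`sim`).

A two dimensional block is given by `E : K² → V`, `F : V → K²` with `F ∘ E = 1` and an idempotent `p0` which
is orthogonal to the block: `Fr p0 E F`. Then `em E F M = E ∘ M ∘ F` and `el p0 E F M = p0 + em E F M`.
`I1 M`: `M` is an idempotent `2 × 2` matrix of trace one. `GS k G` collects the properties of `Good k` which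
are used in the geometric induction.
-/

set_option autoImplicit false

open Module

namespace Pool.Agent.Helper92.LQ

variable {K V : Type*} [Field K] [AddCommGroup V] [Module K V]

/-- The rank. -/
noncomputable def rk (f : End K V) : ℕ := finrank K (LinearMap.range f)

/-- Idempotents of rank `k`. -/
def Pj (k : ℕ) (p : End K V) : Prop := p * p = p ∧ rk p = k

/-- The involution of an idempotent. -/
def iv (p : End K V) : End K V := 1 - (p + p)

/-- The conjugate. -/
def cj (a b : End K V) : End K V := iv a * b * iv a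

/-- The same involution up to sign. -/
def sim (a b : End K V) : Prop := b = a ∨ b = 1 - a

/-- The colour relations. -/
def cr (a b : End K V) (m : ℕ) : Prop := (iv a * iv b) ^ m = 1 ∨ (iv a * iv b) ^ m = -1

/-- `T` maps `Pj k` to itself and preserves all colours. -/
structure CB (k : ℕ) (T : End K V → End K V) : Prop where
  maps : ∀ c, Pj k c → Pj k (T c)
  ord : ∀ c d m, Pj k c → Pj k d → (cr (T c) (T d) m ↔ cr c d m)

/-- The local properties of the conjugation by `a`. -/
structure Adm (k : ℕ) (a : End K V) (ψ : End K V → End K V) : Prop where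
  cb : CB k ψ
  fix : ∀ c, Pj k c → cr c a 2 → sim c (ψ c)
  half : ∀ y m, Pj k y → (cr y (ψ y) m ↔ cr y a (2 * m))

/-- The local properties of the conjugation by `a` force `b ↦ cj a b`. -/
def Good (k : ℕ) (a b : End K V) : Prop := ∀ ψ, Adm k a ψ → sim (cj a b) (ψ b)

/-- Idempotent `2 × 2` matrices of trace one. -/
def I1 (M : Matrix (Fin 2) (Fin 2) K) : Prop := M * M = M ∧ M.trace = 1

/-- The first diagonal idempotent. -/
def E0 : Matrix (Fin 2) (Fin 2) K := !![1, 0; 0, 0]

/-- A two dimensional block `E, F` orthogonal to the idempotent `p0`. -/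
structure Fr (p0 : End K V) (E : (Fin 2 → K) →ₗ[K] V) (F : V →ₗ[K] (Fin 2 → K)) : Prop where
  idem : p0 * p0 = p0
  fe : ∀ x, F (E x) = x
  pe : ∀ x, p0 (E x) = 0
  fp : ∀ v, F (p0 v) = 0

/-- The block endomorphism. -/
def em (E : (Fin 2 → K) →ₗ[K] V) (F : V →ₗ[K] (Fin 2 → K)) (M : Matrix (Fin 2) (Fin 2) K) :
    End K V := E ∘ₗ Matrix.toLin' M ∘ₗ F

/-- The element of the block. -/
def el (p0 : End K V) (E : (Fin 2 → K) →ₗ[K] V) (F : V →ₗ[K] (Fin 2 → K))
    (M : Matrix (Fin 2) (Fin 2) K) : End K V := p0 + em E F M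

/-- The properties of `Good k` used in the geometric induction. -/
structure GS (k : ℕ) (G : End K V → End K V → Prop) : Prop where
  closure : ∀ a P Y, Pj k a → Pj k P → Pj k Y → G a P → G a Y → G P Y → G a (cj P Y)
  frame : ∀ p0 E F, Fr p0 E F → rk p0 + 1 = k → ∀ A B, I1 A → I1 B →
    G (el p0 E F A) (el p0 E F B)
  two : ∀ a b, Pj k a → Pj k b → rk (a - b) ≤ 2 → (1 - a) * b * (1 - a) = 0 →
    a * (1 - b) * a = 0 → G a b

/-- The dimension of the space on which `a` and `b` agree. -/
noncomputable def dk (a b : End K V) : ℕ := finrank K (LinearMap.ker (a - b))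

/-! ### Basic facts -/

section basic

variable {a b c p q : End K V}

theorem iv_sq (h : p * p = p) : iv p * iv p = 1 := by
  simp only [iv, sub_mul, mul_sub, add_mul, mul_add, one_mul, mul_one, h]
  abel

theorem iv_one_sub (p : End K V) : iv (1 - p) = -iv p := by
  simp only [iv]
  abel

theorem one_sub_idem (h : p * p = p) : (1 - p) * (1 - p) = 1 - p := by
  simp only [sub_mul, mul_sub, one_mul, mul_one, h]
  abel

theorem cj_idem (ha : a * a = a) (hb : b * b = b) : cj a b * cj a b = cj a b := by
  have h := iv_sq ha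
  unfold cj
  calc iv a * b * iv a * (iv a * b * iv a) = iv a * b * (iv a * iv a) * b * iv a := by
        simp only [mul_assoc]
    _ = iv a * (b * b) * iv a := by rw [h, mul_one]; simp only [mul_assoc]
    _ = iv a * b * iv a := by rw [hb]

theorem iv_cj (ha : a * a = a) : iv (cj a b) = iv a * iv b * iv a := by
  have h := iv_sq ha
  unfold cj
  conv_lhs => rw [iv, ← h]
  conv_rhs => rw [show iv b = 1 - (b + b) from rfl]
  simp only [mul_sub, sub_mul, mul_add, add_mul, mul_one]

theorem cj_cj (ha : a * a = a) (b : End K V) : cj a (cj a b) = b := by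
  have h := iv_sq ha
  unfold cj
  calc iv a * (iv a * b * iv a) * iv a = (iv a * iv a) * b * (iv a * iv a) := by
        simp only [mul_assoc]
    _ = b := by rw [h, one_mul, mul_one]

theorem cj_one_sub_left (a b : End K V) : cj (1 - a) b = cj a b := by
  unfold cj
  rw [iv_one_sub, neg_mul, neg_mul_neg]

theorem cj_one_sub_right (ha : a * a = a) (b : End K V) : cj a (1 - b) = 1 - cj a b := by
  have h := iv_sq ha
  unfold cj
  rw [mul_sub, sub_mul, mul_one, h]

theorem cj_of_commute (ha : a * a = a) (h : a * b = b * a) : cj a b = b := by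
  have h1 : iv a * b = b * iv a := by
    unfold iv
    simp only [sub_mul, mul_sub, add_mul, mul_add, one_mul, mul_one, h]
  rw [cj, h1, mul_assoc, iv_sq ha, mul_one]

theorem sim_refl (a : End K V) : sim a a := Or.inl rfl

theorem sim_one_sub (a : End K V) : sim a (1 - a) := Or.inr rfl

theorem sim.symm (h : sim a b) : sim b a := by
  rcases h with rfl | rfl
  · exact Or.inl rfl
  · exact Or.inr (sub_sub_cancel 1 a).symm

theorem sim.trans (h : sim a b) (h' : sim b c) : sim a c := by
  rcases h with rfl | rfl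
  · exact h'
  · rcases h' with rfl | rfl
    · exact Or.inr rfl
    · exact Or.inl (sub_sub_cancel 1 a)

theorem sim.iv (h : sim a b) : iv b = iv a ∨ iv b = -iv a := by
  rcases h with rfl | rfl
  · exact Or.inl rfl
  · exact Or.inr (iv_one_sub a)

theorem sim_of_iv (h2 : (2 : K) ≠ 0) (h : iv b = iv a ∨ iv b = -iv a) : sim a b := by
  have key : ∀ x y : End K V, x + x = y + y → x = y := by
    intro x y hxy
    have h3 : (2 : K) • x = (2 : K) • y := by rw [two_smul, two_smul, hxy]
    exact smul_right_injective _ h2 h3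
  rcases h with h | h
  · left
    apply key
    unfold iv at h
    exact sub_right_injective h
  · right
    apply key
    unfold iv at h
    have h4 : b + b = 1 + (1 - (a + a)) := by
      calc b + b = 1 - (1 - (b + b)) := (sub_sub_cancel _ _).symm
        _ = _ := by rw [h, sub_neg_eq_add]
    rw [h4]
    abel

theorem cj_sim (ha : a * a = a) {a' b' : End K V} (h : sim a a') (h' : sim b b') :
    sim (cj a b) (cj a' b') := by
  rcases h with rfl | rfl <;> rcases h' with rfl | rfl
  · exact Or.inl rfl
  · exact Or.inr (cj_one_sub_right ha _)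
  · exact Or.inl (cj_one_sub_left _ _)
  · rw [cj_one_sub_left]
    exact Or.inr (cj_one_sub_right ha _)

theorem cr_congr {a' b' : End K V} {m : ℕ} (h : sim a a') (h' : sim b b') :
    cr a b m ↔ cr a' b' m := by
  have key : ∀ X Y : End K V, (Y = X ∨ Y = -X) → ((X ^ m = 1 ∨ X ^ m = -1) ↔
      (Y ^ m = 1 ∨ Y ^ m = -1)) := by
    intro X Y hXY
    rcases hXY with rfl | rfl
    · exact Iff.rfl
    · rcases neg_one_pow_eq_or (End K V) m with h3 | h3
      · rw [neg_pow X, h3, one_mul]
      · rw [neg_pow X, h3, neg_one_mul, neg_inj, neg_eq_iff_eq_neg]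
        exact or_comm
  apply key
  rcases h.iv with h1 | h1 <;> rcases h'.iv with h2 | h2 <;> rw [h1, h2]
  · exact Or.inl rfl
  · exact Or.inr (mul_neg _ _)
  · exact Or.inr (neg_mul _ _)
  · exact Or.inl (neg_mul_neg _ _)

theorem iv_inj (h2 : (2 : K) ≠ 0) (h : iv a = iv b) : a = b := by
  unfold iv at h
  have h3 : a + a = b + b := sub_right_injective h
  have h4 : (2 : K) • a = (2 : K) • b := by rw [two_smul, two_smul, h3]
  exact smul_right_injective _ h2 h4

theorem commute_of_iv (h2 : (2 : K) ≠ 0) (h : iv a * c = c * iv a) : a * c = c * a := by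
  have h3 : (a * c) + (a * c) = c * a + c * a := by
    unfold iv at h
    rw [sub_mul, mul_sub, one_mul, mul_one, add_mul, mul_add] at h
    exact sub_right_injective h
  have h4 : (2 : K) • (a * c) = (2 : K) • (c * a) := by rw [two_smul, two_smul, h3]
  exact smul_right_injective _ h2 h4

theorem iv_commute (h : a * c = c * a) : iv a * c = c * iv a := by
  unfold iv
  simp only [sub_mul, mul_sub, add_mul, mul_add, one_mul, mul_one, h]

theorem cr_of_commute (ha : a * a = a) (hb : b * b = b) (h : a * b = b * a) : cr a b 2 := by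
  left
  have h1 : iv a * iv b = iv b * iv a := iv_commute (iv_commute h.symm).symm
  calc (iv a * iv b) ^ 2 = iv a * (iv b * iv a) * iv b := by rw [pow_two]; simp only [mul_assoc]
    _ = iv a * iv a * (iv b * iv b) := by rw [← h1]; simp only [mul_assoc]
    _ = 1 := by rw [iv_sq ha, iv_sq hb, mul_one]

/-! ### Ranks -/

theorem rk_conj {g h : End K V} (hg : g * h = 1) (hh : h * g = 1) (b : End K V) :
    rk (g * b * h) = rk b := by
  let e : V ≃ₗ[K] V := LinearEquiv.ofLinearMap g h hg hh
  have h1 : LinearMap.range (g * b * h) = (LinearMap.range b).map (e : V →ₗ[K] V) := by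
    ext v
    constructor
    · rintro ⟨w, rfl⟩
      exact ⟨b (h w), ⟨h w, rfl⟩, rfl⟩
    · rintro ⟨_, ⟨w, rfl⟩, rfl⟩
      refine ⟨g w, ?_⟩
      have h2 : h (g w) = w := congrArg (fun f : End K V => f w) hh
      show g (b (h (g w))) = g (b w)
      rw [h2]
  rw [rk, h1]
  exact LinearEquiv.finrank_map_eq e _

theorem rk_cj (ha : a * a = a) (b : End K V) : rk (cj a b) = rk b :=
  rk_conj (iv_sq ha) (iv_sq ha) b

theorem Pj.cj {k : ℕ} (ha : a * a = a) (hb : Pj k b) : Pj k (cj a b) :=
  ⟨cj_idem ha hb.1, (rk_cj ha b).trans hb.2⟩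

theorem rk_smulRight {t : Dual K V} {s : V} (ht : t ≠ 0) (hs : s ≠ 0) :
    rk (t.smulRight s : End K V) = 1 := by
  have h1 : LinearMap.range (t.smulRight s : End K V) = K ∙ s := by
    obtain ⟨v, hv⟩ : ∃ v, t v ≠ 0 := by
      by_contra hcon
      push Not at hcon
      exact ht (LinearMap.ext hcon)
    ext w
    rw [Submodule.mem_span_singleton]
    constructor
    · rintro ⟨u, rfl⟩
      exact ⟨t u, rfl⟩
    · rintro ⟨r, rfl⟩
      refine ⟨(r / t v) • v, ?_⟩
      rw [LinearMap.smulRight_apply, map_smul, smul_eq_mul, div_mul_cancel₀ _ hv]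
  rw [rk, h1]
  exact finrank_span_singleton hs

theorem rk_smulRight_le (t : Dual K V) (s : V) : rk (t.smulRight s : End K V) ≤ 1 := by
  by_cases ht : t = 0
  · subst ht
    rw [rk, show ((0 : Dual K V).smulRight s : End K V) = 0 from by ext v; simp,
      LinearMap.range_zero, finrank_bot]
    exact Nat.zero_le _
  by_cases hs : s = 0
  · subst hs
    rw [rk, show (t.smulRight (0 : V) : End K V) = 0 from by ext v; simp,
      LinearMap.range_zero, finrank_bot]
    exact Nat.zero_le _
  exact (rk_smulRight ht hs).le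

theorem smulRight_idem {t : Dual K V} {s : V} (h : t s = 1) :
    (t.smulRight s : End K V) * t.smulRight s = t.smulRight s := by
  ext v
  simp [h]

section fd

variable [FiniteDimensional K V]

/-- Ranks of orthogonal idempotents add. -/
theorem rk_add (hp : p * p = p) (hq : q * q = q) (h1 : p * q = 0) (h2 : q * p = 0) :
    rk (p + q) = rk p + rk q := by
  have hr : LinearMap.range (p + q) = LinearMap.range p ⊔ LinearMap.range q := by
    apply le_antisymm
    · rintro _ ⟨v, rfl⟩
      exact Submodule.add_mem_sup ⟨v, rfl⟩ ⟨v, rfl⟩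
    · rw [sup_le_iff]
      constructor
      · rintro _ ⟨v, rfl⟩
        refine ⟨p v, ?_⟩
        have h3 : (p * p) v = p v := by rw [hp]
        have h4 : (q * p) v = 0 := by rw [h2]; rfl
        show p (p v) + q (p v) = p v
        rw [Module.End.mul_apply] at h3 h4
        rw [h3, h4, add_zero]
      · rintro _ ⟨v, rfl⟩
        refine ⟨q v, ?_⟩
        have h3 : (q * q) v = q v := by rw [hq]
        have h4 : (p * q) v = 0 := by rw [h1]; rfl
        show p (q v) + q (q v) = q v
        rw [Module.End.mul_apply] at h3 h4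
        rw [h3, h4, zero_add]
  have hd : LinearMap.range p ⊓ LinearMap.range q = ⊥ := by
    rw [eq_bot_iff]
    rintro v ⟨⟨x, hx⟩, ⟨y, hy⟩⟩
    rw [Submodule.mem_bot]
    have h3 : p v = v := by
      rw [← hx]
      exact congrArg (fun f : End K V => f x) hp
    have h4 : p v = 0 := by
      rw [← hy]
      exact congrArg (fun f : End K V => f y) h1
    rw [← h3, h4]
  have h3 := Submodule.finrank_sup_add_finrank_inf_eq (LinearMap.range p) (LinearMap.range q)
  rw [hd, finrank_bot, add_zero] at h3
  rw [rk, hr, h3]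
  rfl

omit [FiniteDimensional K V] in
theorem ker_eq_range_one_sub (hp : p * p = p) :
    LinearMap.ker p = LinearMap.range (1 - p) := by
  ext v
  constructor
  · intro hv
    rw [LinearMap.mem_ker] at hv
    exact ⟨v, by simp [hv]⟩
  · rintro ⟨w, rfl⟩
    rw [LinearMap.mem_ker]
    have h3 : (p * p) w = p w := by rw [hp]
    rw [Module.End.mul_apply] at h3
    simp [h3]

theorem rk_one_sub (hp : p * p = p) : rk (1 - p) + rk p = finrank K V := by
  rw [rk, ← ker_eq_range_one_sub hp, add_comm]
  exact LinearMap.finrank_range_add_finrank_ker p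

theorem rk_add_dk (a b : End K V) : rk (a - b) + dk a b = finrank K V :=
  LinearMap.finrank_range_add_finrank_ker (a - b)

theorem rk_add_le (a b : End K V) : rk (a + b) ≤ rk a + rk b := by
  have hr : LinearMap.range (a + b) ≤ LinearMap.range a ⊔ LinearMap.range b := by
    rintro _ ⟨v, rfl⟩
    exact Submodule.add_mem_sup ⟨v, rfl⟩ ⟨v, rfl⟩
  exact (Submodule.finrank_mono hr).trans (Submodule.finrank_add_le_finrank_add_finrank _ _)

end fd

end basic

/-! ### Blocks -/

section block

variable {E : (Fin 2 → K) →ₗ[K] V} {F : V →ₗ[K] (Fin 2 → K)} {p0 : End K V}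

theorem em_apply (M : Matrix (Fin 2) (Fin 2) K) (v : V) :
    em E F M v = E (M.mulVec (F v)) := rfl

theorem em_add (M N : Matrix (Fin 2) (Fin 2) K) : em E F (M + N) = em E F M + em E F N := by
  ext v
  show E ((M + N).mulVec (F v)) = E (M.mulVec (F v)) + E (N.mulVec (F v))
  rw [Matrix.add_mulVec, map_add]

theorem em_sub (M N : Matrix (Fin 2) (Fin 2) K) : em E F (M - N) = em E F M - em E F N := by
  ext v
  show E ((M - N).mulVec (F v)) = E (M.mulVec (F v)) - E (N.mulVec (F v))
  rw [Matrix.sub_mulVec, map_sub]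

theorem em_smul (r : K) (M : Matrix (Fin 2) (Fin 2) K) : em E F (r • M) = r • em E F M := by
  ext v
  show E ((r • M).mulVec (F v)) = r • E (M.mulVec (F v))
  rw [Matrix.smul_mulVec, map_smul]

theorem em_zero : em E F (0 : Matrix (Fin 2) (Fin 2) K) = 0 := by
  ext v
  simp [em]

theorem em_mul (hfe : ∀ x, F (E x) = x) (M N : Matrix (Fin 2) (Fin 2) K) :
    em E F (M * N) = em E F M * em E F N := by
  ext v
  simp [em, hfe, Matrix.toLin'_mul]

theorem em_inj (hfe : ∀ x, F (E x) = x) {M N : Matrix (Fin 2) (Fin 2) K}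
    (h : em E F M = em E F N) : M = N := by
  apply Matrix.toLin'.injective
  apply LinearMap.ext
  intro x
  have h1 := congrArg (fun f : End K V => F (f (E x))) h
  simpa [em, hfe] using h1

theorem Fr.pem (h : Fr p0 E F) (M : Matrix (Fin 2) (Fin 2) K) : p0 * em E F M = 0 := by
  ext v
  exact h.pe _

theorem Fr.emp (h : Fr p0 E F) (M : Matrix (Fin 2) (Fin 2) K) : em E F M * p0 = 0 := by
  ext v
  show E (M.mulVec (F (p0 v))) = 0
  rw [h.fp, Matrix.mulVec_zero, map_zero]

/-- The unipotent part of the block. -/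
theorem iv_el_mul (h : Fr p0 E F) (A B : Matrix (Fin 2) (Fin 2) K) :
    iv (el p0 E F A) * iv (el p0 E F B) =
      1 + em E F ((1 - (A + A)) * (1 - (B + B)) - 1) := by
  have h1 := h.idem
  have h2 := h.pem B
  have h3 := h.emp A
  have h4 := em_mul h.fe A B
  have h5 : (1 - (A + A)) * (1 - (B + B)) - 1 = (A * B + A * B + A * B + A * B) -
      (A + A + B + B) := by noncomm_ring
  rw [h5, em_sub, em_add, em_add, em_add, em_add, em_add, em_add, h4]
  unfold iv el
  simp only [sub_mul, mul_sub, add_mul, mul_add, one_mul, mul_one, h1, h2, h3]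
  abel

theorem theta_mul (hfe : ∀ x, F (E x) = x) (C D : Matrix (Fin 2) (Fin 2) K) :
    (1 + em E F (C - 1)) * (1 + em E F (D - 1)) = 1 + em E F (C * D - 1) := by
  have h5 : C * D - 1 = (C - 1) * (D - 1) + (C - 1) + (D - 1) := by noncomm_ring
  rw [h5, em_add, em_add, em_mul hfe]
  simp only [add_mul, mul_add, one_mul, mul_one]
  abel

theorem theta_pow (hfe : ∀ x, F (E x) = x) (C : Matrix (Fin 2) (Fin 2) K) (m : ℕ) :
    (1 + em E F (C - 1)) ^ m = 1 + em E F (C ^ m - 1) := by
  induction m with
  | zero => rw [pow_zero, pow_zero, sub_self, em_zero, add_zero]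
  | succ m ih => rw [pow_succ, ih, theta_mul hfe, ← pow_succ]

theorem theta_one (hfe : ∀ x, F (E x) = x) (C : Matrix (Fin 2) (Fin 2) K) :
    1 + em E F (C - 1) = 1 ↔ C = 1 := by
  constructor
  · intro h
    have h1 : em E F (C - 1) = em E F 0 := by
      rw [em_zero]
      exact add_eq_left.1 h
    exact sub_eq_zero.1 (em_inj hfe h1)
  · rintro rfl
    rw [sub_self, em_zero, add_zero]

/-- Colours inside a block. -/
theorem cr_el (h2 : (2 : K) ≠ 0) (h : Fr p0 E F) (hp : p0 ≠ 0)
    (A B : Matrix (Fin 2) (Fin 2) K) (m : ℕ) :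
    cr (el p0 E F A) (el p0 E F B) m ↔ ((1 - (A + A)) * (1 - (B + B))) ^ m = 1 := by
  rw [cr, iv_el_mul h, theta_pow h.fe, theta_one h.fe]
  constructor
  · rintro (h3 | h3)
    · exact h3
    · exfalso
      apply hp
      have h4 := congrArg (fun f : End K V => p0 * f) h3
      simp only [mul_add, mul_one, h.pem, add_zero, mul_neg] at h4
      have h5 : (2 : K) • p0 = 0 := by
        rw [two_smul]
        nth_rewrite 1 [h4]
        exact neg_add_cancel p0
      exact (smul_eq_zero.1 h5).resolve_left h2
  · exact Or.inl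

theorem el_idem (h : Fr p0 E F) {A : Matrix (Fin 2) (Fin 2) K} (hA : A * A = A) :
    el p0 E F A * el p0 E F A = el p0 E F A := by
  unfold el
  rw [add_mul, mul_add, mul_add, h.idem, h.pem, h.emp, ← em_mul h.fe, hA, add_zero, zero_add]

theorem cj_el (h : Fr p0 E F) (A B : Matrix (Fin 2) (Fin 2) K) :
    cj (el p0 E F A) (el p0 E F B) = el p0 E F ((1 - (A + A)) * B * (1 - (A + A))) := by
  have h1 := h.idem
  have h2 := h.pem
  have h3 := h.emp
  have h4 := fun M N => (em_mul (E := E) (F := F) h.fe M N).symm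
  have h5 : (1 - (A + A)) * B * (1 - (A + A)) = B - (A * B + A * B) - (B * A + B * A) +
      (A * B * A + A * B * A + A * B * A + A * B * A) := by noncomm_ring
  rw [h5]
  unfold cj iv el
  simp only [em_add, em_sub]
  simp only [sub_mul, mul_sub, add_mul, mul_add, one_mul, mul_one, h1, h2, h3, h4,
    add_zero, zero_add, sub_zero]
  abel

end block

end Pool.Agent.Helper92.LQ
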