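import Pool.Agent.Helper92.LQ.Pe
import Pool.Agent.Helper92.LQ.Ba

/-!
# Project LQ: the geometric induction

`fail_step`: both tests fail and the distance is at least three. `GS.compl`: the complementary structure. `ind`: the
induction.
-/

set_option autoImplicit false

open Module

namespace Pool.Agent.Helper92.LQ

variable {K V : Type*} [Field K] [AddCommGroup V] [Module K V]

theorem rk_neg (f : End K V) : rk (-f) = rk f := by
  unfold rk
  rw [LinearMap.range_neg]

theorem rk_sub_comm (a b : End K V) : rk (a - b) = rk (b - a) := by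
  rw [← rk_neg, neg_sub]

theorem dk_comm (a b : End K V) : dk a b = dk b a := by
  unfold dk
  rw [← neg_sub, LinearMap.ker_neg]

/-- Conjugation inside a family of anticommuting nilpotent differences. -/
theorem cj_add {a X Z : End K V} (ha : a * a = a) (hX : a * X + X * a = X)
    (hZ : a * Z + Z * a = Z) (hXX : X * X = 0) (hXZ : X * Z = 0) (hZX : Z * X = 0) :
    cj (a + X) (a + Z) = a + (X + X - Z) := by
  set s : End K V := 1 - (a + a) with hs
  have hsX : s * X = -(X * s) := by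
    rw [hs, sub_mul, mul_sub, one_mul, mul_one, add_mul, mul_add, eq_neg_iff_add_eq_zero]
    have h1 : X - (a * X + a * X) + (X - (X * a + X * a)) =
        (X + X) - ((a * X + X * a) + (a * X + X * a)) := by abel
    rw [h1, hX, sub_self]
  have hsZ : s * Z = -(Z * s) := by
    rw [hs, sub_mul, mul_sub, one_mul, mul_one, add_mul, mul_add, eq_neg_iff_add_eq_zero]
    have h1 : Z - (a * Z + a * Z) + (Z - (Z * a + Z * a)) =
        (Z + Z) - ((a * Z + Z * a) + (a * Z + Z * a)) := by abel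
    rw [h1, hZ, sub_self]
  have hss : s * s = 1 := iv_sq ha
  have hsa : s * a = -a := by
    rw [hs, sub_mul, one_mul, add_mul, ha]
    abel
  have has : a * s = -a := by
    rw [hs, mul_sub, mul_one, mul_add, ha]
    abel
  have hXaX : X * a * X = 0 := by
    have h1 : a * X = X - X * a := by rw [eq_sub_iff_add_eq]; exact hX
    rw [mul_assoc, h1, mul_sub, hXX, ← mul_assoc, hXX, zero_mul, sub_zero]
  have hiv : iv (a + X) = s - (X + X) := by
    unfold iv
    rw [hs]
    abel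
  have h1 : s * a * s = a := by rw [hsa, neg_mul, has, neg_neg]
  have h3 : s * Z * s = -Z := by rw [hsZ, neg_mul, mul_assoc, hss, mul_one]
  have h4 : X * a * s = -(X * a) := by rw [mul_assoc, has, mul_neg]
  have h5 : s * a * X = -(a * X) := by rw [hsa, neg_mul]
  have h6 : s * Z * X = 0 := by rw [mul_assoc, hZX, mul_zero]
  have h7 : X * Z * s = 0 := by rw [hXZ, zero_mul]
  have h8 : X * Z * X = 0 := by rw [hXZ, zero_mul]
  unfold cj
  rw [hiv]
  have h9 : (s - (X + X)) * (a + Z) * (s - (X + X)) =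
      s * a * s + s * Z * s - (X * a * s + X * a * s) - (X * Z * s + X * Z * s) -
        (s * a * X + s * a * X) - (s * Z * X + s * Z * X) +
        (X * a * X + X * a * X + X * a * X + X * a * X) +
        (X * Z * X + X * Z * X + X * Z * X + X * Z * X) := by noncomm_ring
  rw [h9, h1, h3, h4, h5, h6, h7, h8, hXaX]
  have h10 : a + -Z - (-(X * a) + -(X * a)) - (0 + 0) - (-(a * X) + -(a * X)) - (0 + 0) +
      (0 + 0 + 0 + 0) + (0 + 0 + 0 + 0) = a + ((a * X + X * a) + (a * X + X * a) - Z) := by abel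
  rw [h10, hX]

section fd

variable [FiniteDimensional K V]

theorem fail_step (h2 : (2 : K) ≠ 0) {k : ℕ} {G : End K V → End K V → Prop} (hG : GS k G)
    {a b : End K V} (ha : Pj k a) (hb : Pj k b)
    (h1 : (1 - a) * b * (1 - a) = 0) (h3 : a * (1 - b) * a = 0)
    (IH : ∀ a' b', Pj k a' → Pj k b' → rk (a' - b') < rk (a - b) → G a' b') : G a b := by
  rcases Nat.lt_or_ge 2 (rk (a - b)) with h4 | h4
  swap
  · exact hG.two a b ha hb h4 h1 h3
  have hD := Dl_of_fail ha.1 hb.1 h1 h3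
  have hδr : rk (b - a) = rk (a - b) := rk_sub_comm b a
  obtain ⟨δ, hδ⟩ : ∃ δ, δ = b - a := ⟨_, rfl⟩
  rw [← hδ] at hD hδr
  have hb' : b = a + δ := by rw [hδ]; abel
  have h0 : δ ≠ 0 := by
    rintro rfl
    rw [rk, LinearMap.range_zero, finrank_bot] at hδr
    omega
  obtain ⟨v1, f1, hf1, ht1⟩ := peel hD h0
  have hL1 := peel_left (v := v1) (f := f1) hD
  have hR1 := peel_right (v := v1) (f := f1) hD
  have hD1 := ht1.dl hD.idem
  have hD' := peel_sub hD ht1
  have hr1 : rk ((f1 ∘ₗ δ).smulRight (δ v1) : End K V) ≤ 1 := rk_smulRight_le _ _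
  have hr' := peel_rk (δ := δ) hf1
  obtain ⟨δ1, hδ1⟩ : ∃ δ1, δ1 = ((f1 ∘ₗ δ).smulRight (δ v1) : End K V) := ⟨_, rfl⟩
  rw [← hδ1] at hL1 hR1 hD1 hD' hr1 hr'
  obtain ⟨δ', hδ'⟩ : ∃ δ', δ' = δ - δ1 := ⟨_, rfl⟩
  rw [← hδ'] at hD' hr'
  have hsum : δ = δ1 + δ' := by rw [hδ']; abel
  have h0' : δ' ≠ 0 := by
    intro hz
    have h5 : rk δ ≤ rk δ1 + rk δ' := by
      conv_lhs => rw [hsum]
      exact rk_add_le _ _
    rw [hz] at h5
    have h6 : rk (0 : End K V) = 0 := by rw [rk, LinearMap.range_zero, finrank_bot]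
    omega
  obtain ⟨v2, f2, hf2, ht2⟩ := peel hD' h0'
  have hL2 := peel_left (v := v2) (f := f2) hD'
  have hR2 := peel_right (v := v2) (f := f2) hD'
  have hD2 := ht2.dl hD'.idem
  have hD3 := peel_sub hD' ht2
  have hr2 : rk ((f2 ∘ₗ δ').smulRight (δ' v2) : End K V) ≤ 1 := rk_smulRight_le _ _
  have hr3 := peel_rk (δ := δ') hf2
  -- products with the first piece
  have e1 : δ1 * δ' = 0 := by rw [hδ', mul_sub, hR1, hD1.sq, sub_zero]
  have e2 : δ' * δ1 = 0 := by rw [hδ', sub_mul, hL1, hD1.sq, sub_zero]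
  have e3 : δ1 * ((f2 ∘ₗ δ').smulRight (δ' v2) : End K V) = 0 := by
    ext w
    have h5 : δ1 (δ' v2) = 0 := congrArg (fun f : End K V => f v2) e1
    simp only [Module.End.mul_apply, LinearMap.smulRight_apply, map_smul, h5, smul_zero,
      LinearMap.zero_apply]
  have e4 : ((f2 ∘ₗ δ').smulRight (δ' v2) : End K V) * δ1 = 0 := by
    ext w
    have h5 : δ' (δ1 w) = 0 := congrArg (fun f : End K V => f w) e2
    simp only [Module.End.mul_apply, LinearMap.smulRight_apply, LinearMap.comp_apply, h5,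
      map_zero, zero_smul, LinearMap.zero_apply]
  have hhalf : rk ((2 : K)⁻¹ • ((f2 ∘ₗ δ').smulRight (δ' v2) : End K V)) ≤ 1 := by
    have h5 : (2 : K)⁻¹ • ((f2 ∘ₗ δ').smulRight (δ' v2) : End K V) =
        (f2 ∘ₗ δ').smulRight ((2 : K)⁻¹ • δ' v2) := by
      ext w
      simp only [LinearMap.smul_apply, LinearMap.smulRight_apply]
      rw [smul_comm]
    rw [h5]
    exact rk_smulRight_le _ _
  obtain ⟨δ2, hδ2⟩ : ∃ δ2, δ2 = ((f2 ∘ₗ δ').smulRight (δ' v2) : End K V) := ⟨_, rfl⟩
  rw [← hδ2] at hL2 hR2 hD2 hD3 hr2 hr3 e3 e4 hhalf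
  obtain ⟨δ3, hδ3⟩ : ∃ δ3, δ3 = δ' - δ2 := ⟨_, rfl⟩
  rw [← hδ3] at hD3 hr3
  have hsum' : δ' = δ2 + δ3 := by rw [hδ3]; abel
  have e5 : δ1 * δ3 = 0 := by rw [hδ3, mul_sub, e1, e3, sub_zero]
  have e6 : δ3 * δ1 = 0 := by rw [hδ3, sub_mul, e2, e4, sub_zero]
  have e7 : δ2 * δ3 = 0 := by rw [hδ3, mul_sub, hR2, hD2.sq, sub_zero]
  have e8 : δ3 * δ2 = 0 := by rw [hδ3, sub_mul, hL2, hD2.sq, sub_zero]
  -- the two auxiliary idempotents
  obtain ⟨η, hη⟩ : ∃ η, η = (2 : K)⁻¹ • δ2 := ⟨_, rfl⟩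
  have hηη : η + η = δ2 := by
    rw [hη, ← add_smul, ← two_mul, mul_inv_cancel₀ h2, one_smul]
  have hηadd : a * η + η * a = η := by
    rw [hη, mul_smul_comm, smul_mul_assoc, ← smul_add, hD2.add]
  have hX : a * (δ1 + η) + (δ1 + η) * a = δ1 + η := by
    calc a * (δ1 + η) + (δ1 + η) * a = (a * δ1 + δ1 * a) + (a * η + η * a) := by noncomm_ring
      _ = δ1 + η := by rw [hD1.add, hηadd]
  have g1 : δ1 * η = 0 := by rw [hη, mul_smul_comm, e3, smul_zero]
  have g2 : η * δ1 = 0 := by rw [hη, smul_mul_assoc, e4, smul_zero]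
  have g3 : η * η = 0 := by rw [hη, mul_smul_comm, smul_mul_assoc, hD2.sq, smul_zero, smul_zero]
  have g4 : η * δ3 = 0 := by rw [hη, smul_mul_assoc, e7, smul_zero]
  have g5 : δ3 * η = 0 := by rw [hη, mul_smul_comm, e8, smul_zero]
  have hXX : (δ1 + η) * (δ1 + η) = 0 := by
    rw [add_mul, mul_add, mul_add, hD1.sq, g1, g2, g3]
    simp
  have hZ : a * (δ1 - δ3) + (δ1 - δ3) * a = δ1 - δ3 := by
    calc a * (δ1 - δ3) + (δ1 - δ3) * a = (a * δ1 + δ1 * a) - (a * δ3 + δ3 * a) := by noncomm_ring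
      _ = δ1 - δ3 := by rw [hD1.add, hD3.add]
  have hZZ : (δ1 - δ3) * (δ1 - δ3) = 0 := by
    rw [sub_mul, mul_sub, mul_sub, hD1.sq, e5, e6, hD3.sq]
    simp
  have hXZ : (δ1 + η) * (δ1 - δ3) = 0 := by
    rw [add_mul, mul_sub, mul_sub, hD1.sq, e5, g2, g4]
    simp
  have hZX : (δ1 - δ3) * (δ1 + η) = 0 := by
    rw [sub_mul, mul_add, mul_add, hD1.sq, e6, g1, g5]
    simp
  have hP := Pj_add ha hX hXX
  have hY := Pj_add ha hZ hZZ
  have hcj : cj (a + (δ1 + η)) (a + (δ1 - δ3)) = b := by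
    rw [cj_add ha.1 hX hZ hXX hXZ hZX, hb', hsum, hsum', ← hηη]
    congr 1
    abel
  rw [← hcj]
  have hrZ : rk (δ1 - δ3) ≤ 1 + rk δ3 := by
    rw [sub_eq_add_neg]
    have h5 := rk_add_le δ1 (-δ3)
    rw [rk_neg] at h5
    omega
  refine hG.closure _ _ _ ha hP hY (IH _ _ ha hP ?_) (IH _ _ ha hY ?_) (IH _ _ hP hY ?_)
  · have h5 : a - (a + (δ1 + η)) = -(δ1 + η) := by abel
    rw [h5, rk_neg]
    have h6 := rk_add_le δ1 η
    rw [← hη] at hhalf
    omega
  · have h5 : a - (a + (δ1 - δ3)) = -(δ1 - δ3) := by abel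
    rw [h5, rk_neg]
    omega
  · have h5 : a + (δ1 + η) - (a + (δ1 - δ3)) = η + δ3 := by abel
    rw [h5]
    have h6 := rk_add_le η δ3
    rw [← hη] at hhalf
    omega

theorem Pj_one_sub {k : ℕ} (hk : k ≤ finrank K V) {a : End K V} (ha : Pj (finrank K V - k) a) :
    Pj k (1 - a) := by
  refine ⟨one_sub_idem ha.1, ?_⟩
  have h1 := rk_one_sub ha.1
  rw [ha.2] at h1
  omega

theorem Pj_one_sub' {k : ℕ} {a : End K V} (ha : Pj k a) : Pj (finrank K V - k) (1 - a) := by
  refine ⟨one_sub_idem ha.1, ?_⟩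
  have h1 := rk_one_sub ha.1
  rw [ha.2] at h1
  omega

omit [FiniteDimensional K V] in
theorem one_sub_el {p0 : End K V} {E : (Fin 2 → K) →ₗ[K] V} {F : V →ₗ[K] (Fin 2 → K)}
    (A : Matrix (Fin 2) (Fin 2) K) :
    1 - el p0 E F A = el (1 - p0 - em E F 1) E F (1 - A) := by
  unfold el
  rw [em_sub]
  abel

omit [FiniteDimensional K V] in
theorem Fr.compl {p0 : End K V} {E : (Fin 2 → K) →ₗ[K] V} {F : V →ₗ[K] (Fin 2 → K)}
    (h : Fr p0 E F) : Fr (1 - p0 - em E F 1) E F where
  idem := by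
    have h1 := em_mul (E := E) (F := F) h.fe 1 1
    rw [one_mul] at h1
    simp only [mul_sub, sub_mul, mul_one, one_mul, h.idem, h.pem, h.emp, ← h1]
    abel
  fe := h.fe
  pe x := by
    have h1 : em E F 1 (E x) = E x := by rw [em_apply, h.fe, Matrix.one_mulVec]
    simp [h.pe, h1]
  fp v := by
    have h1 : F (em E F 1 v) = F v := by rw [em_apply, h.fe, Matrix.one_mulVec]
    simp [h.fp, h1]

/-- The complementary structure. -/
theorem GS.compl {k : ℕ} (hk : k ≤ finrank K V) {G : End K V → End K V → Prop} (hG : GS k G) :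
    GS (finrank K V - k) (fun a b => G (1 - a) (1 - b)) where
  closure a P Y ha hP hY h1 h3 h4 := by
    have h5 : 1 - cj P Y = cj (1 - P) (1 - Y) := by
      rw [cj_one_sub_left, cj_one_sub_right hP.1]
    show G (1 - a) (1 - cj P Y)
    rw [h5]
    exact hG.closure _ _ _ (Pj_one_sub hk ha) (Pj_one_sub hk hP) (Pj_one_sub hk hY) h1 h3 h4
  frame p0 E F h hp A B hA hB := by
    show G (1 - el p0 E F A) (1 - el p0 E F B)
    have h3 : Pj (finrank K V - k) (el p0 E F A) := Pj_el h hp hA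
    have h4 := Pj_one_sub hk h3
    rw [one_sub_el] at h4 ⊢
    rw [one_sub_el]
    refine hG.frame _ E F h.compl ?_ _ _ (I1_one_sub hA) (I1_one_sub hB)
    rw [← rk_el h.compl (I1_one_sub hA)]
    exact h4.2
  two a b ha hb hr h1 h3 := by
    refine hG.two _ _ (Pj_one_sub hk ha) (Pj_one_sub hk hb) ?_ ?_ ?_
    · have h5 : 1 - a - (1 - b) = -(a - b) := by abel
      rw [h5, rk_neg]
      exact hr
    · rw [sub_sub_cancel]
      exact h3
    · rw [sub_sub_cancel]
      exact h1

/-- The geometric induction. -/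
theorem ind (h2 : (2 : K) ≠ 0) {k : ℕ} (hk : k ≤ finrank K V) {G : End K V → End K V → Prop}
    (hG : GS k G) : ∀ (m : ℕ) (a b : End K V), Pj k a → Pj k b → rk (a - b) = m → G a b := by
  intro m
  induction m using Nat.strong_induction_on with
  | _ m ih =>
  intro a b ha hb hm
  have IH : ∀ a' b', Pj k a' → Pj k b' → rk (a' - b') < rk (a - b) → G a' b' :=
    fun a' b' ha' hb' h => ih _ (by omega) a' b' ha' hb' rfl
  have IH' : ∀ b', Pj k b' → dk a b < dk a b' → G a b' := by
    intro b' hb' h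
    refine IH a b' ha hb' ?_
    have h3 := rk_add_dk a b
    have h4 := rk_add_dk a b'
    omega
  by_cases h1 : ∀ y, a y = 0 → a (b y) = b y
  · by_cases h3 : ∀ x, a x = x → a (x - b x) = 0
    · refine fail_step h2 hG ha hb ?_ ?_ IH
      · ext v
        have h5 : a (v - a v) = 0 := by
          rw [map_sub, ← Module.End.mul_apply, ha.1, sub_self]
        have h6 := h1 _ h5
        simp only [Module.End.mul_apply, LinearMap.sub_apply, Module.End.one_apply,
          LinearMap.zero_apply]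
        rw [h6, sub_self]
      · ext v
        have h5 : a (a v) = a v := by rw [← Module.End.mul_apply, ha.1]
        exact h3 _ h5
    · push Not at h3
      obtain ⟨x, hx, hbx⟩ := h3
      exact bad_case h2 hG ha hb IH' h1 hx hbx
  · push Not at h1
    obtain ⟨y, hy, hby⟩ := h1
    by_cases h3 : ∀ x, a x = x → a (x - b x) = 0
    · have h4 := bad_case h2 (hG.compl hk) (Pj_one_sub' ha) (Pj_one_sub' hb) (x := y) ?_ ?_ ?_ ?_
      · simpa using h4
      · intro b' hb' h
        show G (1 - (1 - a)) (1 - b')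
        rw [sub_sub_cancel]
        refine IH' _ (Pj_one_sub hk hb') ?_
        have e1 : dk (1 - a) (1 - b) = dk a b := by
          unfold dk
          rw [show 1 - a - (1 - b) = -(a - b) from by abel, LinearMap.ker_neg]
        have e2 : dk (1 - a) b' = dk a (1 - b') := by
          unfold dk
          rw [show 1 - a - b' = -(a - (1 - b')) from by abel, LinearMap.ker_neg]
        rw [e1, e2] at h
        exact h
      · intro z hz
        have hz' : a z = z := by
          have h5 : z - a z = 0 := hz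
          exact (sub_eq_zero.1 h5).symm
        show (z - b z) - a (z - b z) = z - b z
        rw [h3 z hz', sub_zero]
      · show y - a y = y
        rw [hy, sub_zero]
      · show (y - (y - b y)) - a (y - (y - b y)) ≠ 0
        rw [sub_sub_cancel, sub_ne_zero]
        exact fun h => hby h.symm
    · push Not at h3
      obtain ⟨x, hx, hbx⟩ := h3
      exact nb_case h2 hG ha hb IH' hy hby hx hbx

end fd

end Pool.Agent.Helper92.LQ
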