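import Pool.Agent.Helper92.LQ.L1c

/-!
# Project LQ, block L2: two orthogonal unipotent blocks

Write `e1 M = em E1 F1 M`, `e2 M = em E2 F2 M` (products `e1 M * e2 N = 0 = e2 N * e1 M`),
`a = p00 + e1 E0 + e2 E0`, `b = p00 + e1 B1 + e2 B2`, `A = iv a`, `Q = 1 - p00 - e1 1 - e2 1 ≠ 0`
(`rk Q = finrank K V - k - 2 ≥ 1`). An endomorphism commuting with `p00, e1 1, e2 1` is determined by its products with
`p00, Q` and by the matrices `F1 ∘ _ ∘ E1`, `F2 ∘ _ ∘ E2`, which multiply. In this block form `iv b * iv a` is `1` on `p00`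
and `Q`, and `(1 - 2 B1) (1 - 2 E0)`, `(1 - 2 B2) (1 - 2 E0)`, of `p`-th power one (`two_pow`). So `(iv b * A)^p = 1`.
Let `Adm k a ψ`.
(1) `cr b a p` gives `(iv (ψ b) * A)^p = 1` or `-1` (`sim a (ψ a)`); let `x = ψ b` or `x = 1 - ψ b` be chosen with
`(iv x * A)^p = 1` (`p` is odd). `x` is idempotent and `sim x (ψ b)`.
(2) `c1 = p00 + e1 1`, `c2 = p00 + e2 1` are in `Pj k` (rank `k - 2 + 2`) and commute with `a` and `b`. So `cr c1 x 2`:
`iv c1 * iv x = ± iv x * iv c1`, so `U = iv x * A` satisfies `iv c1 * U = ± U * iv c1`; the `p`-th power excludes the sign `-`.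
So `x` commutes with `c1`, `c2`, with `p00 = c1 * c2`, with `e1 1`, `e2 1`, `Q`.
(3) `U^p = 1` on `p00`: `A p00 = -p00`, so `- iv x * p00 = p00` (odd power), `x p00 = p00`. On `Q`: `x Q = 0`. On the
blocks: `x (e1 1) = e1 M1` with `M1` idempotent and `((1 - 2 M1) (1 - 2 E0))^p = 1`, so `M1 ≠ 0, 1`, so `I1 M1` and
`tr (M1 E0) = 1`. The same for `M2`. So `x = p00 + e1 M1 + e2 M2`.
(4) Let `I1 N`. `t = el (p00 + e2 E0) E1 F1 N` and `a = el (p00 + e2 E0) E1 F1 E0` are a pair in the block `E1, F1` with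
`p0 = p00 + e2 E0`, so `frame_good` gives `sim (cj a t) (ψ t)`; `cj a t = el (p00 + e2 E0) E1 F1 (N^E)`,
`N^E = (1 - 2 E0) N (1 - 2 E0)`. `cr t b p` iff `tr (N B1) = 1`: `iv t * iv b` is `1` on `Q ≠ 0` so the sign is `+`,
the second block is `(1 - 2 E0) (1 - 2 B2)` of `p`-th power one, the first is `(1 - 2 N) (1 - 2 B1)`. In the same way
`cr (cj a t) x p` iff `tr (N^E M1) = 1` iff `tr (N M1^E) = 1`. By `Adm` these are equivalent; so `M1^E = B1` by
`test_unique`. In the same way `M2^E = B2`. So `x = cj a b`.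
-/

set_option autoImplicit false

open Module

namespace Pool.Agent.Helper92.LQ

variable {K V : Type*} [Field K] [AddCommGroup V] [Module K V] [FiniteDimensional K V]

/-- two orthogonal blocks -/
private structure Two75 (p00 : End K V) (E1 : (Fin 2 → K) →ₗ[K] V) (F1 : V →ₗ[K] (Fin 2 → K))
    (E2 : (Fin 2 → K) →ₗ[K] V) (F2 : V →ₗ[K] (Fin 2 → K)) : Prop where
  h1 : Fr p00 E1 F1
  h2 : Fr p00 E2 F2
  h12 : ∀ x, F1 (E2 x) = 0
  h21 : ∀ x, F2 (E1 x) = 0

/-- the elements of the block algebra -/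
private noncomputable def dd75 (p00 : End K V) (E1 : (Fin 2 → K) →ₗ[K] V) (F1 : V →ₗ[K] (Fin 2 → K))
    (E2 : (Fin 2 → K) →ₗ[K] V) (F2 : V →ₗ[K] (Fin 2 → K)) (α : K) (M N : Matrix (Fin 2) (Fin 2) K)
    (β : K) : End K V :=
  α • p00 + em E1 F1 M + em E2 F2 N + β • (1 - p00 - em E1 F1 1 - em E2 F2 1)

section dd

variable {p00 : End K V} {E1 E2 : (Fin 2 → K) →ₗ[K] V} {F1 F2 : V →ₗ[K] (Fin 2 → K)}

omit [FiniteDimensional K V] in
private theorem Two75.symm (h : Two75 p00 E1 F1 E2 F2) : Two75 p00 E2 F2 E1 F1 :=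
  ⟨h.h2, h.h1, h.h21, h.h12⟩

omit [FiniteDimensional K V] in
private theorem Two75.c12 (h : Two75 p00 E1 F1 E2 F2) (M N : Matrix (Fin 2) (Fin 2) K) :
    em E1 F1 M * em E2 F2 N = 0 := by
  ext v
  show E1 (M.mulVec (F1 (E2 (N.mulVec (F2 v))))) = 0
  rw [h.h12, Matrix.mulVec_zero, map_zero]

omit [FiniteDimensional K V] in
private theorem Two75.frame (h : Two75 p00 E1 F1 E2 F2) {M : Matrix (Fin 2) (Fin 2) K} (hM : M * M = M) :
    Fr (p00 + em E1 F1 M) E2 F2 := by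
  refine ⟨el_idem h.h1 hM, h.h2.fe, fun x => ?_, fun v => ?_⟩
  · show p00 (E2 x) + E1 (M.mulVec (F1 (E2 x))) = 0
    rw [h.h2.pe, h.h12, Matrix.mulVec_zero, map_zero, add_zero]
  · show F2 (p00 v + E1 (M.mulVec (F1 v))) = 0
    rw [map_add, h.h2.fp, h.h21, add_zero]

omit [FiniteDimensional K V] in
private theorem dd_swap75 (α : K) (M N : Matrix (Fin 2) (Fin 2) K) (β : K) :
    dd75 p00 E1 F1 E2 F2 α M N β = dd75 p00 E2 F2 E1 F1 α N M β := by
  unfold dd75
  module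

omit [FiniteDimensional K V] in
private theorem dd_mul75 (h : Two75 p00 E1 F1 E2 F2) (α α' β β' : K) (M N M' N' : Matrix (Fin 2) (Fin 2) K) :
    dd75 p00 E1 F1 E2 F2 α M N β * dd75 p00 E1 F1 E2 F2 α' M' N' β' =
      dd75 p00 E1 F1 E2 F2 (α * α') (M * M') (N * N') (β * β') := by
  have e1 := h.h1.idem
  have e2 := h.h1.pem
  have e3 := h.h1.emp
  have e4 := h.h2.pem
  have e5 := h.h2.emp
  have e6 := fun M N => (em_mul (E := E1) (F := F1) h.h1.fe M N).symm
  have e7 := fun M N => (em_mul (E := E2) (F := F2) h.h2.fe M N).symm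
  have e8 := h.c12
  have e9 := h.symm.c12
  unfold dd75
  simp only [sub_mul, mul_sub, add_mul, mul_add, one_mul, mul_one, smul_mul_assoc, mul_smul_comm, e1, e2,
    e3, e4, e5, e6, e7, e8, e9, smul_zero, smul_sub, smul_add, zero_add, add_zero, sub_zero, sub_self]
  module

omit [FiniteDimensional K V] in
private theorem dd_one75 : dd75 p00 E1 F1 E2 F2 1 1 1 1 = 1 := by
  unfold dd75
  module

omit [FiniteDimensional K V] in
private theorem dd_pow75 (h : Two75 p00 E1 F1 E2 F2) (α β : K) (M N : Matrix (Fin 2) (Fin 2) K) (m : ℕ) :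
    dd75 p00 E1 F1 E2 F2 α M N β ^ m = dd75 p00 E1 F1 E2 F2 (α ^ m) (M ^ m) (N ^ m) (β ^ m) := by
  induction m with
  | zero => rw [pow_zero, pow_zero, pow_zero, pow_zero, pow_zero, dd_one75]
  | succ m ih => rw [pow_succ, ih, dd_mul75 h, ← pow_succ, ← pow_succ, ← pow_succ, ← pow_succ]

omit [FiniteDimensional K V] in
private theorem iv_dd75 (α β : K) (M N : Matrix (Fin 2) (Fin 2) K) :
    iv (dd75 p00 E1 F1 E2 F2 α M N β) =
      dd75 p00 E1 F1 E2 F2 (1 - (α + α)) (1 - (M + M)) (1 - (N + N)) (1 - (β + β)) := by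
  unfold iv dd75
  simp only [em_sub, em_add]
  module

omit [FiniteDimensional K V] in
private theorem dd_mul_em75 (h : Two75 p00 E1 F1 E2 F2) (α β : K) (M N X : Matrix (Fin 2) (Fin 2) K) :
    dd75 p00 E1 F1 E2 F2 α M N β * em E1 F1 X = em E1 F1 (M * X) := by
  have h1 : em E1 F1 X = dd75 p00 E1 F1 E2 F2 0 X 0 0 := by
    unfold dd75
    rw [em_zero]
    module
  have h2 : em E1 F1 (M * X) = dd75 p00 E1 F1 E2 F2 0 (M * X) 0 0 := by
    unfold dd75
    rw [em_zero]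
    module
  rw [h1, dd_mul75 h, mul_zero, mul_zero, mul_zero, h2]

omit [FiniteDimensional K V] in
private theorem dd_mul_p75 (h : Two75 p00 E1 F1 E2 F2) (α β : K) (M N : Matrix (Fin 2) (Fin 2) K) :
    dd75 p00 E1 F1 E2 F2 α M N β * p00 = α • p00 := by
  have h1 : ∀ r : K, r • p00 = dd75 p00 E1 F1 E2 F2 r 0 0 0 := by
    intro r
    unfold dd75
    rw [em_zero, em_zero]
    module
  have h2 : p00 = dd75 p00 E1 F1 E2 F2 1 0 0 0 := by
    rw [← h1, one_smul]
  rw [h1]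
  conv_lhs => rw [h2]
  conv_rhs => rw [← mul_one α]
  have h3 := dd_mul75 h α 1 β 0 M N 0 0
  rw [mul_zero, mul_zero, mul_zero] at h3
  rw [← h2] at h3 ⊢
  exact h3

omit [FiniteDimensional K V] in
private theorem dd_mul_q75 (h : Two75 p00 E1 F1 E2 F2) (α β : K) (M N : Matrix (Fin 2) (Fin 2) K) :
    dd75 p00 E1 F1 E2 F2 α M N β * (1 - p00 - em E1 F1 1 - em E2 F2 1) =
      β • (1 - p00 - em E1 F1 1 - em E2 F2 1) := by
  have h1 : ∀ r : K, r • (1 - p00 - em E1 F1 1 - em E2 F2 1) = dd75 p00 E1 F1 E2 F2 0 0 0 r := by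
    intro r
    unfold dd75
    rw [em_zero, em_zero]
    module
  have h3 := dd_mul75 h α 0 β 1 M N 0 0
  rw [mul_zero, mul_zero, mul_zero, mul_one, ← h1, ← h1, one_smul] at h3
  exact h3

omit [FiniteDimensional K V] in
/-- colours in the block algebra -/
private theorem cr_dd75 (h2 : (2 : K) ≠ 0) (h : Two75 p00 E1 F1 E2 F2)
    (hQ : (1 - p00 - em E1 F1 1 - em E2 F2 1 : End K V) ≠ 0) (M N M' N' : Matrix (Fin 2) (Fin 2) K) (m : ℕ) :
    cr (dd75 p00 E1 F1 E2 F2 1 M N 0) (dd75 p00 E1 F1 E2 F2 1 M' N' 0) m ↔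
      ((1 - (M + M)) * (1 - (M' + M'))) ^ m = 1 ∧ ((1 - (N + N)) * (1 - (N' + N'))) ^ m = 1 := by
  have e1 : (1 - (1 + 1)) * (1 - (1 + 1)) = (1 : K) := by ring
  have e2 : (1 - (0 + 0)) * (1 - (0 + 0)) = (1 : K) := by ring
  rw [cr, iv_dd75, iv_dd75, dd_mul75 h, e1, e2, dd_pow75 h, one_pow]
  set C := ((1 - (M + M)) * (1 - (M' + M'))) ^ m
  set D := ((1 - (N + N)) * (1 - (N' + N'))) ^ m
  constructor
  · rintro (h3 | h3)
    · constructor
      · have h4 := dd_mul_em75 h 1 1 C D 1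
        rw [h3, one_mul, mul_one] at h4
        exact (em_inj h.h1.fe h4).symm
      · have h4 := dd_mul_em75 h.symm 1 1 D C 1
        rw [← dd_swap75, h3, one_mul, mul_one] at h4
        exact (em_inj h.h2.fe h4).symm
    · exfalso
      apply hQ
      have h4 := dd_mul_q75 h 1 1 C D
      rw [h3, neg_one_mul, one_smul] at h4
      have h5 : (2 : K) • (1 - p00 - em E1 F1 1 - em E2 F2 1 : End K V) = 0 := by
        rw [two_smul]
        nth_rewrite 1 [← h4]
        exact neg_add_cancel _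
      exact (smul_eq_zero.1 h5).resolve_left h2
  · rintro ⟨h3, h4⟩
    left
    rw [h3, h4, dd_one75]

end dd

omit [FiniteDimensional K V] in
private theorem comm75 (h2 : (2 : K) ≠ 0) {p : ℕ} (hp : Odd p) {x a c : End K V} (hx : x * x = x)
    (hc : c * c = c) (hca : c * a = a * c) (h : cr c x 2) (hU : (iv x * iv a) ^ p = 1)
    (h1 : (1 : End K V) ≠ 0) : c * x = x * c := by
  have hX := iv_sq hx
  have hC := iv_sq hc
  have hCA : iv c * iv a = iv a * iv c := iv_commute (iv_commute hca.symm).symm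
  rcases h with h | h
  · have h3 : iv c * iv x = iv x * iv c := by
      rw [pow_two] at h
      calc iv c * iv x = iv c * iv x * iv c * (iv x * iv x) * iv c := by
            rw [hX, mul_one, mul_assoc (iv c * iv x), hC, mul_one]
        _ = (iv c * iv x * (iv c * iv x)) * iv x * iv c := by simp only [mul_assoc]
        _ = iv x * iv c := by rw [h, one_mul]
    have h4 : c * iv x = iv x * c := commute_of_iv h2 h3
    exact (commute_of_iv h2 h4.symm).symm
  · exfalso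
    have h3 : iv c * iv x = -(iv x * iv c) := by
      rw [pow_two] at h
      calc iv c * iv x = iv c * iv x * iv c * (iv x * iv x) * iv c := by
            rw [hX, mul_one, mul_assoc (iv c * iv x), hC, mul_one]
        _ = (iv c * iv x * (iv c * iv x)) * iv x * iv c := by simp only [mul_assoc]
        _ = -(iv x * iv c) := by rw [h, neg_one_mul, neg_mul]
    have h4 : iv c * (iv x * iv a) = -(iv x * iv a * iv c) := by
      rw [← mul_assoc, h3, neg_mul, mul_assoc, hCA, mul_assoc]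
    have h5 : ∀ m : ℕ, iv c * (iv x * iv a) ^ m = (-1) ^ m * ((iv x * iv a) ^ m * iv c) := by
      intro m
      induction m with
      | zero => rw [pow_zero, pow_zero, one_mul, one_mul, mul_one]
      | succ m ih =>
        rw [pow_succ (iv x * iv a), ← mul_assoc, ih, mul_assoc ((-1) ^ m), mul_assoc _ (iv c), h4, mul_neg, mul_neg,
          pow_succ (-1 : End K V), mul_neg_one, neg_mul, ← mul_assoc ((iv x * iv a) ^ m)]
    have h6 := h5 p
    rw [hU, mul_one, one_mul, hp.neg_one_pow, neg_one_mul] at h6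
    have h7 : (2 : K) • iv c = 0 := by
      rw [two_smul]
      nth_rewrite 1 [h6]
      exact neg_add_cancel _
    have h8 := (smul_eq_zero.1 h7).resolve_left h2
    rw [h8, mul_zero] at hC
    exact h1 hC.symm

omit [FiniteDimensional K V] in
private theorem powcomm75 {U W e : End K V} (h : U * e = W * e) (hW : W * e = e * W) (m : ℕ) :
    U ^ m * e = W ^ m * e := by
  induction m with
  | zero => rw [pow_zero, pow_zero]
  | succ m ih =>
    rw [pow_succ, mul_assoc, h, hW, ← mul_assoc, ih, mul_assoc, ← hW, ← mul_assoc, ← pow_succ]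

omit [FiniteDimensional K V] in
private theorem odd_pow75 {R : Type*} [Ring R] {S : R} (hS : S * S = 1) {p : ℕ} (hp : Odd p) : S ^ p = S := by
  obtain ⟨m, rfl⟩ := hp
  rw [pow_succ, pow_mul, pow_two, hS, one_pow, one_mul]

omit [FiniteDimensional K V] in
private theorem em_of75 {E : (Fin 2 → K) →ₗ[K] V} {F : V →ₗ[K] (Fin 2 → K)} (y : End K V) :
    em E F (LinearMap.toMatrix' (F ∘ₗ y ∘ₗ E)) = em E F 1 * y * em E F 1 := by
  ext v
  simp [em, Matrix.toLin'_toMatrix']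

private theorem S_sq75 : (1 - (E0 + E0)) * (1 - (E0 + E0)) = (1 : Matrix (Fin 2) (Fin 2) K) := by
  have h : (E0 : Matrix (Fin 2) (Fin 2) K) * E0 = E0 := I1_E0.1
  have h1 : (1 - (E0 + E0)) * (1 - (E0 + E0)) = (1 : Matrix (Fin 2) (Fin 2) K) - (E0 + E0 + E0 + E0) +
      (E0 * E0 + E0 * E0 + E0 * E0 + E0 * E0) := by noncomm_ring
  rw [h1, h]
  abel

omit [FiniteDimensional K V] in
/-- the block of `x` -/
private theorem block75 (h2 : (2 : K) ≠ 0) (p : ℕ) [Fact p.Prime] [CharP K p] (hodd : Odd p)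
    {p00 : End K V} {E1 E2 : (Fin 2 → K) →ₗ[K] V} {F1 F2 : V →ₗ[K] (Fin 2 → K)}
    (h : Two75 p00 E1 F1 E2 F2) {x : End K V} (hx : x * x = x)
    (hU : (iv x * iv (dd75 p00 E1 F1 E2 F2 1 E0 E0 0)) ^ p = 1)
    (hc : em E1 F1 1 * x = x * em E1 F1 1) :
    ∃ M, x * em E1 F1 1 = em E1 F1 M ∧ I1 M ∧ (M * E0).trace = 1 := by
  set I := em E1 F1 (1 : Matrix (Fin 2) (Fin 2) K) with hI
  have hII : I * I = I := by rw [hI, ← em_mul h.h1.fe, mul_one]
  set M := LinearMap.toMatrix' (F1 ∘ₗ x ∘ₗ E1) with hM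
  have hxM : x * I = em E1 F1 M := by
    rw [hM, em_of75, ← hI, hc, mul_assoc, hII]
  have hMM : M * M = M := by
    apply em_inj h.h1.fe
    rw [em_mul h.h1.fe, ← hxM, mul_assoc x I, ← mul_assoc I x, hc, mul_assoc x I I, hII, ← mul_assoc, hx]
  have hxY : ∀ Y, x * em E1 F1 Y = em E1 F1 (M * Y) := by
    intro Y
    have h3 : em E1 F1 Y = I * em E1 F1 Y := by rw [hI, ← em_mul h.h1.fe, one_mul]
    rw [h3, ← mul_assoc, hxM, ← em_mul h.h1.fe]
  have hUI : ∀ m : ℕ, (iv x * iv (dd75 p00 E1 F1 E2 F2 1 E0 E0 0)) ^ m * I =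
      em E1 F1 (((1 - (M + M)) * (1 - (E0 + E0))) ^ m) := by
    intro m
    induction m with
    | zero => rw [pow_zero, pow_zero, one_mul]
    | succ m ih =>
      have h3 : iv x * iv (dd75 p00 E1 F1 E2 F2 1 E0 E0 0) * I =
          I * em E1 F1 ((1 - (M + M)) * (1 - (E0 + E0))) := by
        rw [mul_assoc, iv_dd75, hI, dd_mul_em75 h, mul_one, ← em_mul h.h1.fe, one_mul]
        have h4 : (1 - (M + M)) * (1 - (E0 + E0)) =
            (1 - (E0 + E0)) - (M * (1 - (E0 + E0)) + M * (1 - (E0 + E0))) := by noncomm_ring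
        have h4' : em E1 F1 ((1 - (E0 + E0)) - (M * (1 - (E0 + E0)) + M * (1 - (E0 + E0)))) =
            em E1 F1 (1 - (E0 + E0)) - (em E1 F1 (M * (1 - (E0 + E0))) + em E1 F1 (M * (1 - (E0 + E0)))) := by
          rw [em_sub, em_add]
        rw [h4, h4', ← hxY, iv, sub_mul, add_mul, one_mul]
      rw [pow_succ, mul_assoc, h3, ← mul_assoc, ih, ← em_mul h.h1.fe, ← pow_succ]
  have hCp : ((1 - (M + M)) * (1 - (E0 + E0))) ^ p = 1 := by
    have h3 := hUI p
    rw [hU, one_mul, hI] at h3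
    exact (em_inj h.h1.fe h3).symm
  have h20 : (2 : K) = 0 → False := h2
  have hM0 : M ≠ 0 := by
    intro h0
    rw [h0, add_zero, sub_zero, one_mul, odd_pow75 S_sq75 hodd] at hCp
    have h3 := congrFun (congrFun hCp 0) 0
    simp [E0] at h3
    apply h20
    linear_combination (-1 : K) * h3
  have hM1 : M ≠ 1 := by
    intro h0
    have h4 : (1 - (1 + 1)) * (1 - (E0 + E0)) = -(1 - (E0 + E0) : Matrix (Fin 2) (Fin 2) K) := by noncomm_ring
    rw [h0, h4, hodd.neg_pow, odd_pow75 S_sq75 hodd] at hCp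
    have h3 := congrFun (congrFun hCp 1) 1
    simp [E0] at h3
    apply h20
    linear_combination (-1 : K) * h3
  have hIM : I1 M := I1_of_idem hMM hM0 hM1
  exact ⟨M, hxM, hIM, (two_pow h2 p hIM I1_E0).1 hCp⟩

/-- comparison in the first block -/
private theorem match75 (h2 : (2 : K) ≠ 0) (p : ℕ) [Fact p.Prime] [CharP K p] {k : ℕ}
    (hk : (2 ≤ k ∧ 2 * k < finrank K V) ∨ (3 ≤ k ∧ 2 * k = finrank K V))
    {p00 : End K V} {E1 E2 : (Fin 2 → K) →ₗ[K] V} {F1 F2 : V →ₗ[K] (Fin 2 → K)}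
    (h : Two75 p00 E1 F1 E2 F2) (hQ : (1 - p00 - em E1 F1 1 - em E2 F2 1 : End K V) ≠ 0)
    (hp : rk p00 + 2 = k) {B1 B2 M1 M2 : Matrix (Fin 2) (Fin 2) K} (hB1 : I1 B1) (hB2 : I1 B2)
    (hM1 : I1 M1) (ht2 : (B2 * E0).trace = 1)
    {ψ : End K V → End K V} (hψ : Adm k (dd75 p00 E1 F1 E2 F2 1 E0 E0 0) ψ)
    (hb : Pj k (dd75 p00 E1 F1 E2 F2 1 B1 B2 0))
    (hs : sim (dd75 p00 E1 F1 E2 F2 1 M1 M2 0) (ψ (dd75 p00 E1 F1 E2 F2 1 B1 B2 0))) :
    (1 - (E0 + E0)) * M1 * (1 - (E0 + E0)) = B1 := by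
  have hE0 : I1 (E0 : Matrix (Fin 2) (Fin 2) K) := I1_E0
  have hfr : Fr (p00 + em E2 F2 E0) E1 F1 := h.symm.frame hE0.1
  have hrk : rk (p00 + em E2 F2 E0) + 1 = k := by
    have h3 := rk_el h.h2 hE0
    unfold el at h3
    omega
  have hel : ∀ N, el (p00 + em E2 F2 E0) E1 F1 N = dd75 p00 E1 F1 E2 F2 1 N E0 0 := by
    intro N
    unfold el dd75
    module
  refine test_unique hB1 (I1_conj hE0 hM1) fun N hN htr => ?_
  have hgood := frame_good h2 p hk hfr hrk hE0 hN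
  rw [hel, hel] at hgood
  have h3 := hgood ψ hψ
  have h4 : cj (dd75 p00 E1 F1 E2 F2 1 E0 E0 0) (dd75 p00 E1 F1 E2 F2 1 N E0 0) =
      dd75 p00 E1 F1 E2 F2 1 ((1 - (E0 + E0)) * N * (1 - (E0 + E0))) E0 0 := by
    rw [← hel, ← hel, ← hel, cj_el hfr]
  rw [h4] at h3
  have hPt : Pj k (dd75 p00 E1 F1 E2 F2 1 N E0 0) := by
    rw [← hel]
    exact Pj_el hfr hrk hN
  have htE : (E0 * B2).trace = 1 := by rw [Matrix.trace_mul_comm]; exact ht2
  have h5 : cr (dd75 p00 E1 F1 E2 F2 1 N E0 0) (dd75 p00 E1 F1 E2 F2 1 B1 B2 0) p :=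
    (cr_dd75 h2 h hQ _ _ _ _ p).2 ⟨(two_pow h2 p hN hB1).2 htr, (two_pow h2 p hE0 hB2).2 htE⟩
  have h6 := (hψ.cb.ord _ _ p hPt hb).2 h5
  have h7 := (cr_congr h3 hs).2 h6
  have h8 := ((cr_dd75 h2 h hQ _ _ _ _ p).1 h7).1
  have h9 := (two_pow h2 p (I1_conj hE0 hN) hM1).1 h8
  have h10 : (N * ((1 - (E0 + E0)) * M1 * (1 - (E0 + E0)))).trace =
      ((1 - (E0 + E0)) * N * (1 - (E0 + E0)) * M1).trace := by
    rw [← mul_assoc, ← mul_assoc, Matrix.trace_mul_comm]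
    simp only [mul_assoc]
  rw [h10]
  exact h9

theorem two_good (h2 : (2 : K) ≠ 0) (p : ℕ) [Fact p.Prime] [CharP K p] {k : ℕ}
    (hk : (2 ≤ k ∧ 2 * k < finrank K V) ∨ (3 ≤ k ∧ 2 * k = finrank K V))
    {p00 : End K V} {E1 E2 : (Fin 2 → K) →ₗ[K] V} {F1 F2 : V →ₗ[K] (Fin 2 → K)}
    (h1 : Fr p00 E1 F1) (h3 : Fr p00 E2 F2) (h12 : ∀ x, F1 (E2 x) = 0) (h21 : ∀ x, F2 (E1 x) = 0)
    (hp : rk p00 + 2 = k) {B1 B2 : Matrix (Fin 2) (Fin 2) K} (hB1 : I1 B1) (hB2 : I1 B2)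
    (ht1 : (B1 * E0).trace = 1) (ht2 : (B2 * E0).trace = 1) :
    Good k (p00 + em E1 F1 E0 + em E2 F2 E0) (p00 + em E1 F1 B1 + em E2 F2 B2) := by
  intro ψ hψ
  have hE0 : I1 (E0 : Matrix (Fin 2) (Fin 2) K) := I1_E0
  have h : Two75 p00 E1 F1 E2 F2 := ⟨h1, h3, h12, h21⟩
  have hpr : p.Prime := Fact.out
  have hodd : Odd p := by
    rcases hpr.eq_two_or_odd' with h4 | h4
    · exfalso
      apply h2
      have h5 := CharP.cast_eq_zero K p
      rw [h4] at h5
      exact_mod_cast h5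
    · exact h4
  -- ranks
  have hrI : ∀ {E : (Fin 2 → K) →ₗ[K] V} {F : V →ₗ[K] (Fin 2 → K)}, (∀ x, F (E x) = x) →
      rk (em E F (1 : Matrix (Fin 2) (Fin 2) K)) ≤ 2 := by
    intro E F hfe
    have h4 : em E F (1 : Matrix (Fin 2) (Fin 2) K) = em E F E0 + em E F (1 - E0) := by
      rw [← em_add, add_sub_cancel]
    rw [h4]
    refine (rk_add_le _ _).trans ?_
    rw [rk_em hfe hE0, rk_em hfe (I1_one_sub hE0)]
  have hQ : (1 - p00 - em E1 F1 1 - em E2 F2 1 : End K V) ≠ 0 := by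
    intro h0
    have h4 : (1 : End K V) = p00 + em E1 F1 1 + em E2 F2 1 := by
      have h5 : (1 : End K V) = (1 - p00 - em E1 F1 1 - em E2 F2 1) + (p00 + em E1 F1 1 + em E2 F2 1) := by abel
      rw [h5, h0, zero_add]
    have h5 := rk_one_sub (p := (0 : End K V)) (by rw [mul_zero])
    have h6 : rk (0 : End K V) = 0 := by
      rw [rk, LinearMap.range_zero, finrank_bot]
    rw [sub_zero, h6, add_zero, h4] at h5
    have h7 := rk_add_le (p00 + em E1 F1 (1 : Matrix (Fin 2) (Fin 2) K)) (em E2 F2 1)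
    have h8 := rk_add_le p00 (em E1 F1 (1 : Matrix (Fin 2) (Fin 2) K))
    have h9 := hrI h1.fe
    have h10 := hrI h3.fe
    rcases hk with hk | hk <;> omega
  have hone : (1 : End K V) ≠ 0 := by
    intro h0
    apply hQ
    rw [← mul_one (1 - p00 - em E1 F1 1 - em E2 F2 1 : End K V), h0, mul_zero]
  -- rewriting
  have hdd : ∀ M N : Matrix (Fin 2) (Fin 2) K, p00 + em E1 F1 M + em E2 F2 N = dd75 p00 E1 F1 E2 F2 1 M N 0 := by
    intro M N
    unfold dd75
    module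
  rw [hdd, hdd]
  rw [hdd] at hψ
  set a := dd75 p00 E1 F1 E2 F2 1 E0 E0 0 with ha
  set b := dd75 p00 E1 F1 E2 F2 1 B1 B2 0 with hb
  have hPj : ∀ M N : Matrix (Fin 2) (Fin 2) K, I1 M → I1 N → Pj k (dd75 p00 E1 F1 E2 F2 1 M N 0) := by
    intro M N hM hN
    have hr : rk (p00 + em E1 F1 M) + 1 = k := by
      have h4 := rk_el h1 hM
      unfold el at h4
      omega
    have h5 := Pj_el (h.frame hM.1) hr hN
    unfold el at h5
    rwa [hdd] at h5
  have hPa : Pj k a := hPj _ _ hE0 hE0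
  have hPb : Pj k b := hPj _ _ hB1 hB2
  have hPc : ∀ {E F E' F'}, Two75 p00 E F E' F' → Pj k (p00 + em E F (1 : Matrix (Fin 2) (Fin 2) K)) := by
    intro E F E' F' h'
    have h4 : p00 + em E F (1 : Matrix (Fin 2) (Fin 2) K) = el p00 E F E0 + em E F (1 - E0) := by
      unfold el
      rw [add_assoc, ← em_add, add_sub_cancel]
    have h5 := el_idem h'.h1 hE0.1
    have h6 : em E F (1 - E0) * em E F (1 - E0) = em E F ((1 - E0 : Matrix (Fin 2) (Fin 2) K)) := by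
      rw [← em_mul h'.h1.fe, (I1_one_sub hE0).1]
    have h7 : el p00 E F E0 * em E F (1 - E0) = 0 := by
      unfold el
      rw [add_mul, h'.h1.pem, ← em_mul h'.h1.fe, mul_sub, mul_one, hE0.1, sub_self, em_zero, add_zero]
    have h8 : em E F (1 - E0) * el p00 E F E0 = 0 := by
      unfold el
      rw [mul_add, h'.h1.emp, ← em_mul h'.h1.fe, sub_mul, one_mul, hE0.1, sub_self, em_zero, add_zero]
    refine ⟨?_, ?_⟩
    · exact el_idem h'.h1 (mul_one 1)
    · rw [h4, rk_add h5 h6 h7 h8, rk_el h'.h1 hE0, rk_em h'.h1.fe (I1_one_sub hE0)]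
      omega
  -- the element `x`
  have hcrba : cr b a p := by
    refine (cr_dd75 h2 h hQ _ _ _ _ p).2 ⟨(two_pow h2 p hB1 hE0).2 ht1, (two_pow h2 p hB2 hE0).2 ht2⟩
  have hsa : sim a (ψ a) := hψ.fix a hPa (cr_of_commute hPa.1 hPa.1 rfl)
  have hPψb : Pj k (ψ b) := hψ.cb.maps _ hPb
  have hcr1 : cr (ψ b) a p := (cr_congr (sim_refl _) hsa).2 ((hψ.cb.ord _ _ p hPb hPa).2 hcrba)
  obtain ⟨x, hxx, hsx, hU⟩ : ∃ x : End K V, x * x = x ∧ sim x (ψ b) ∧ (iv x * iv a) ^ p = 1 := by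
    rcases hcr1 with h4 | h4
    · exact ⟨ψ b, hPψb.1, sim_refl _, h4⟩
    · refine ⟨1 - ψ b, one_sub_idem hPψb.1, (sim_one_sub _).symm, ?_⟩
      rw [iv_one_sub, neg_mul, hodd.neg_pow, h4, neg_neg]
  -- commutation with the blocks
  have hcomm : ∀ {E F E' F'}, Two75 p00 E F E' F' →
      (∀ M N : Matrix (Fin 2) (Fin 2) K, dd75 p00 E1 F1 E2 F2 1 M N 0 = dd75 p00 E F E' F' 1 M N 0 ∨
        dd75 p00 E1 F1 E2 F2 1 M N 0 = dd75 p00 E F E' F' 1 N M 0) →
      (p00 + em E F (1 : Matrix (Fin 2) (Fin 2) K)) * x = x * (p00 + em E F 1) := by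
    intro E F E' F' h' hor
    have hc : p00 + em E F (1 : Matrix (Fin 2) (Fin 2) K) = dd75 p00 E F E' F' 1 1 0 0 := by
      unfold dd75
      rw [em_zero]
      module
    have hcd : ∀ M N : Matrix (Fin 2) (Fin 2) K,
        (p00 + em E F (1 : Matrix (Fin 2) (Fin 2) K)) * dd75 p00 E1 F1 E2 F2 1 M N 0 =
          dd75 p00 E1 F1 E2 F2 1 M N 0 * (p00 + em E F 1) := by
      intro M N
      rw [hc]
      rcases hor M N with h4 | h4
      · rw [h4, dd_mul75 h', dd_mul75 h']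
        simp only [one_mul, mul_one, zero_mul, mul_zero]
      · rw [h4, dd_mul75 h', dd_mul75 h']
        simp only [one_mul, mul_one, zero_mul, mul_zero]
    have hP := hPc h'
    have h4 : sim (p00 + em E F (1 : Matrix (Fin 2) (Fin 2) K)) (ψ (p00 + em E F 1)) :=
      hψ.fix _ hP (cr_of_commute hP.1 hPa.1 (hcd _ _))
    have h5 : cr (p00 + em E F (1 : Matrix (Fin 2) (Fin 2) K)) b 2 := cr_of_commute hP.1 hPb.1 (hcd _ _)
    have h6 := (cr_congr h4 hsx).2 ((hψ.cb.ord _ _ 2 hP hPb).2 h5)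
    exact comm75 h2 hodd hxx hP.1 (hcd _ _) h6 hU hone
  have hx1 : (p00 + em E1 F1 (1 : Matrix (Fin 2) (Fin 2) K)) * x = x * (p00 + em E1 F1 1) :=
    hcomm h fun M N => Or.inl rfl
  have hx2 : (p00 + em E2 F2 (1 : Matrix (Fin 2) (Fin 2) K)) * x = x * (p00 + em E2 F2 1) :=
    hcomm h.symm fun M N => Or.inr (dd_swap75 _ _ _ _)
  have hcc : (p00 + em E1 F1 (1 : Matrix (Fin 2) (Fin 2) K)) * (p00 + em E2 F2 1) = p00 := by
    rw [add_mul, mul_add, mul_add, h1.idem, h3.pem, h1.emp, h.c12, add_zero, add_zero, add_zero]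
  have hxp : p00 * x = x * p00 := by
    calc p00 * x = (p00 + em E1 F1 (1 : Matrix (Fin 2) (Fin 2) K)) * ((p00 + em E2 F2 1) * x) := by
          rw [← mul_assoc, hcc]
      _ = x * p00 := by rw [hx2, ← mul_assoc, hx1, mul_assoc, hcc]
  have hxI1 : em E1 F1 (1 : Matrix (Fin 2) (Fin 2) K) * x = x * em E1 F1 1 := by
    rw [add_mul, mul_add, hxp] at hx1
    exact add_left_cancel hx1
  have hxI2 : em E2 F2 (1 : Matrix (Fin 2) (Fin 2) K) * x = x * em E2 F2 1 := by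
    rw [add_mul, mul_add, hxp] at hx2
    exact add_left_cancel hx2
  obtain ⟨M1, hxM1, hIM1, -⟩ := block75 h2 p hodd h hxx hU hxI1
  have hU' : (iv x * iv (dd75 p00 E2 F2 E1 F1 1 E0 E0 0)) ^ p = 1 := by
    rw [← dd_swap75]
    exact hU
  obtain ⟨M2, hxM2, hIM2, -⟩ := block75 h2 p hodd h.symm hxx hU' hxI2
  have hXX := iv_sq hxx
  have hinj : ∀ y z : End K V, y + y = z + z → y = z := by
    intro y z hyz
    have h4 : (2 : K) • y = (2 : K) • z := by rw [two_smul, two_smul, hyz]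
    exact smul_right_injective _ h2 h4
  have hxp1 : x * p00 = p00 := by
    have h4 : iv x * iv a * p00 = -iv x * p00 := by
      rw [mul_assoc, ha, iv_dd75, dd_mul_p75 h]
      have h5 : (1 - (1 + 1) : K) • p00 = -p00 := by module
      rw [h5, mul_neg, neg_mul]
    have h5 : -iv x * p00 = p00 * -iv x := by
      rw [neg_mul, mul_neg, iv_commute hxp.symm]
    have h6 := powcomm75 h4 h5 p
    rw [hU, one_mul, hodd.neg_pow, odd_pow75 hXX hodd] at h6
    apply hinj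
    have h7 : x * p00 + x * p00 = p00 - iv x * p00 := by
      unfold iv
      rw [sub_mul, add_mul, one_mul]
      abel
    rw [neg_mul] at h6
    have h8 : iv x * p00 = -p00 := neg_eq_iff_eq_neg.1 h6.symm
    rw [h7, h8]
    abel
  have hxq : x * (1 - p00 - em E1 F1 1 - em E2 F2 1) = 0 := by
    have h4 : iv x * iv a * (1 - p00 - em E1 F1 1 - em E2 F2 1) = iv x * (1 - p00 - em E1 F1 1 - em E2 F2 1) := by
      rw [mul_assoc, ha, iv_dd75, dd_mul_q75 h]
      have h5 : (1 - (0 + 0) : K) = 1 := by ring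
      rw [h5, one_smul]
    have h5 : x * (1 - p00 - em E1 F1 1 - em E2 F2 1) = (1 - p00 - em E1 F1 1 - em E2 F2 1) * x := by
      rw [mul_sub, mul_sub, mul_sub, sub_mul, sub_mul, sub_mul, mul_one, one_mul, hxp, hxI1, hxI2]
    have h6 := powcomm75 h4 (iv_commute h5) p
    rw [hU, one_mul, odd_pow75 hXX hodd] at h6
    apply hinj
    rw [iv, sub_mul, add_mul, one_mul] at h6
    rw [add_zero]
    exact sub_eq_self.1 h6.symm
  have hxd : x = dd75 p00 E1 F1 E2 F2 1 M1 M2 0 := by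
    calc x = x * p00 + x * em E1 F1 1 + x * em E2 F2 1 + x * (1 - p00 - em E1 F1 1 - em E2 F2 1) := by
          rw [← mul_add, ← mul_add, ← mul_add]
          conv_lhs => rw [← mul_one x]
          congr 1
          abel
      _ = dd75 p00 E1 F1 E2 F2 1 M1 M2 0 := by
          rw [hxp1, hxM1, hxM2, hxq]
          unfold dd75
          module
  have hm1 := match75 h2 p hk h hQ hp hB1 hB2 hIM1 ht2 (M2 := M2) hψ hPb (by rw [← hxd]; exact hsx)
  have hQ' : (1 - p00 - em E2 F2 1 - em E1 F1 1 : End K V) ≠ 0 := by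
    intro h0
    apply hQ
    rw [← h0]
    abel
  have hm2 := match75 (M1 := M2) (M2 := M1) (B1 := B2) (B2 := B1) (ψ := ψ) h2 p hk h.symm hQ' hp hB2 hB1 hIM2 ht1
    (by rw [← dd_swap75]; exact hψ) (by rw [← dd_swap75]; exact hPb)
    (by rw [dd_swap75 1 M2 M1 0, dd_swap75 1 B2 B1 0, ← hxd]; exact hsx)
  have hcj : cj a b = dd75 p00 E1 F1 E2 F2 1 ((1 - (E0 + E0)) * B1 * (1 - (E0 + E0)))
      ((1 - (E0 + E0)) * B2 * (1 - (E0 + E0))) 0 := by
    rw [cj, ha, hb, iv_dd75, dd_mul75 h, dd_mul75 h]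
    congr 1 <;> ring
  have hconj : ∀ M : Matrix (Fin 2) (Fin 2) K,
      (1 - (E0 + E0)) * ((1 - (E0 + E0)) * M * (1 - (E0 + E0))) * (1 - (E0 + E0)) = M := by
    intro M
    calc (1 - (E0 + E0)) * ((1 - (E0 + E0)) * M * (1 - (E0 + E0))) * (1 - (E0 + E0)) =
        ((1 - (E0 + E0)) * (1 - (E0 + E0))) * M * ((1 - (E0 + E0)) * (1 - (E0 + E0))) := by
          simp only [mul_assoc]
      _ = M := by rw [S_sq75, one_mul, mul_one]
  rw [hcj, ← hm1, ← hm2, hconj, hconj, ← hxd]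
  exact hsx

end Pool.Agent.Helper92.LQ
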