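import Pool.Agent.Helper92.LQ.Pe
import Pool.Agent.Helper92.LQ.L2

/-!
# Project LQ, block TWOG: the pairs at distance at most two both of whose tests fail

Let `δ = b - a`, `Dl a δ` (`Dl_of_fail`), `rk δ ≤ 2` (`rk (a - b) = rk (b - a)`).
- `δ = 0`: `b = a`; `cj a a = a` and `sim a (ψ a)`, as `cr a a 2`.
- Otherwise peel (`peel`): `z1 = δ v1`, `g1 = f1 ∘ δ`, `δ1 = g1.smulRight z1`, `f1 z1 = 1`. If `δ = δ1`: choose `y` with
  `g1 y = 1`. If `a z1 = z1`, `g1 ∘ a = 0`: replace `y` by `y - a y` (`a y = 0`); let `ζ` be a functional with `ζ z1 = 1`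
  and `ζ y = 0` (`z1, y` are independent as `g1 z1 = 0`), replace it by `ζ ∘ a`. Then with `p0 = a - ζ.smulRight z1`,
  `E = bE z1 y`, `F = bF ζ g1` we have `Fr p0 E F`, `rk p0 + 1 = k` (`frame_of` for `a`), `a = el p0 E F E0`,
  `b = el p0 E F !![1, 1; 0, 0]`: `frame_good`. If `a z1 = 0`, `g1 ∘ a = g1`: replace `y` by `a y`, and `ζ` by `ζ - ζ ∘ a`;
  `E = bE y z1`, `F = bF g1 ζ`, `a = el p0 E F E0`, `b = el p0 E F !![1, 0; 1, 0]`.
- Otherwise `δ' = δ - δ1 ≠ 0` has rank at most one (`peel_rk`); peel again: `z2 = δ' v2`, `g2 = f2 ∘ δ'`,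
  `δ2 = g2.smulRight z2`, `f2 z2 = 1`, and `δ' = δ2` (`peel_rk` again: `rk (δ' - δ2) = 0`). `gi zj = 0` for all `i, j`. `z1, z2` are
  independent and `g1, g2` are independent: `δ1 δ' = 0`, `δ1 v1 = z1`, `δ' v1 = 0` (as `δ1 v1 = δ v1`), so `g2 v1 = 0`,
  `g1 v1 = 1`; `z2 = δ' v2`, `f2 (δ' v2) = 1`, so `g2 v2 = 1`; if `z2 = c • z1`: then `δ = (g1 + c g2).smulRight z1` has rank one, but
  `rk δ ≥ 2` (`peel_rk` twice). If `g1, g2` were dependent, `δ` would have rank one as well.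
  Let `s1 = a` or `1 - a` be such that `s1 z1 = z1`, `g1 ∘ s1 = 0` and `r1 = 1 - s1` (so `g1 ∘ r1 = g1`); in the same way `s2`, `r2`.
  Choose `w1, w2` with `gi wj = δ_ij` and put `yj = rj wj`: still `gi yj = δ_ij` (`gi ∘ rj` is `gi` or `0`), `rj yj = yj`. The
  vectors `z1, z2, y1, y2` are independent (apply `g1`, `g2`). Choose functionals `ζi'` with `ζi' zj = δ_ij`, `ζi' yj = 0`,
  and `ζi = ζi' ∘ si`: still the same values (each of `zj`, `yj` is fixed or killed by `si`), `ζi ∘ si = ζi`.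
  For `s1 = a` let `E1 = bE z1 y1`, `F1 = bF ζ1 g1`, `B1 = !![1, 1; 0, 0]`; for `s1 = 1 - a` let `E1 = bE y1 z1`, `F1 = bF g1 ζ1`,
  `B1 = !![1, 0; 1, 0]`. In the same way `E2, F2, B2`. `p00 = a - em E1 F1 E0 - em E2 F2 E0`. Then `two_good` applies
  (`rk p00 + 2 = k`: `rk_add` twice, `em_b_E0`, `rk_smulRight`), `em E1 F1 B1 = em E1 F1 E0 + δ1`.
-/

set_option autoImplicit false

open Module

namespace Pool.Agent.Helper92.LQ

variable {K V : Type*} [Field K] [AddCommGroup V] [Module K V] [FiniteDimensional K V]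

/-- One piece with its dual vectors. -/
private def Pc11 (a : End K V) (z : V) (G : Dual K V) (y : V) (ζ : Dual K V) : Prop :=
  (a z = z ∧ (∀ v, G (a v) = 0) ∧ a y = 0 ∧ ∀ v, ζ (a v) = ζ v) ∨
    (a z = 0 ∧ (∀ v, G (a v) = G v) ∧ a y = y ∧ ∀ v, ζ (a v) = 0)

omit [FiniteDimensional K V] in
private theorem Ty_s11 {a : End K V} (ha : a * a = a) {z : V} {G : Dual K V} (h : Ty a z G) :
    ∃ s : End K V, (s = a ∨ s = 1 - a) ∧ s z = z ∧ (∀ v, G (s v) = 0) ∧ (∀ v, s (s v) = s v) ∧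
      ∀ (w : V) (ζ : Dual K V), Pc11 a z G (w - s w) (ζ ∘ₗ s) := by
  have haa : ∀ v, a (a v) = a v := fun v => congrArg (fun f : End K V => f v) ha
  rcases h with ⟨h1, h3⟩ | ⟨h1, h3⟩
  · refine ⟨a, Or.inl rfl, h1, h3, haa, fun w ζ => Or.inl ⟨h1, h3, ?_, fun v => ?_⟩⟩
    · rw [map_sub, haa, sub_self]
    · rw [LinearMap.comp_apply, LinearMap.comp_apply, haa]
  · have e : ∀ v, (1 - a) v = v - a v := fun v => rfl
    refine ⟨1 - a, Or.inr rfl, ?_, fun v => ?_, fun v => ?_, fun w ζ =>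
      Or.inr ⟨h1, h3, ?_, fun v => ?_⟩⟩
    · rw [e, h1, sub_zero]
    · rw [e, map_sub, h3, sub_self]
    · rw [e, e, map_sub, haa, sub_self, sub_zero]
    · rw [e, sub_sub_cancel, haa]
    · rw [LinearMap.comp_apply, e, haa, sub_self, map_zero]

omit [FiniteDimensional K V] in
/-- Two idempotents of the set `a, 1 - a`. -/
private theorem ss11 {a s t : End K V} (hs : s = a ∨ s = 1 - a) (ht : t = a ∨ t = 1 - a) :
    (∀ v, s v = t v) ∨ ∀ v, s v = v - t v := by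
  rcases hs with rfl | rfl <;> rcases ht with rfl | rfl
  · exact Or.inl fun v => rfl
  · exact Or.inr fun v => (sub_sub_cancel v _).symm
  · exact Or.inr fun v => rfl
  · exact Or.inl fun v => rfl

omit [FiniteDimensional K V] in
private theorem duals11 {a : End K V} (ha : a * a = a) {z1 z2 : V} {G1 G2 : Dual K V}
    (T1 : Ty a z1 G1) (T2 : Ty a z2 G2) (g11 : G1 z1 = 0) (g12 : G1 z2 = 0) (g21 : G2 z1 = 0)
    (g22 : G2 z2 = 0) {e1 e2 : Dual K V} (e11 : e1 z1 = 1) (e12 : e1 z2 = 0) (e21 : e2 z1 = 0)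
    (e22 : e2 z2 = 1) {w1 w2 : V} (k11 : G1 w1 = 1) (k12 : G1 w2 = 0) (k21 : G2 w1 = 0)
    (k22 : G2 w2 = 1) :
    ∃ (y1 y2 : V) (ζ1 ζ2 : Dual K V), Pc11 a z1 G1 y1 ζ1 ∧ Pc11 a z2 G2 y2 ζ2 ∧
      G1 y1 = 1 ∧ G1 y2 = 0 ∧ G2 y1 = 0 ∧ G2 y2 = 1 ∧
      ζ1 z1 = 1 ∧ ζ1 z2 = 0 ∧ ζ2 z1 = 0 ∧ ζ2 z2 = 1 ∧
      ζ1 y1 = 0 ∧ ζ1 y2 = 0 ∧ ζ2 y1 = 0 ∧ ζ2 y2 = 0 := by
  obtain ⟨s1, hs1, sz1, Gs1, ss1, P1⟩ := Ty_s11 ha T1
  obtain ⟨s2, hs2, sz2, Gs2, ss2, P2⟩ := Ty_s11 ha T2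
  -- the values of the functionals on `y1, y2`
  have m11 : G1 (w1 - s1 w1) = 1 := by rw [map_sub, Gs1, k11, sub_zero]
  have m22 : G2 (w2 - s2 w2) = 1 := by rw [map_sub, Gs2, k22, sub_zero]
  have m12 : G1 (w2 - s2 w2) = 0 := by
    rcases ss11 hs2 hs1 with h | h
    · rw [h, map_sub, Gs1, k12, sub_zero]
    · rw [h, sub_sub_cancel, Gs1]
  have m21 : G2 (w1 - s1 w1) = 0 := by
    rcases ss11 hs1 hs2 with h | h
    · rw [h, map_sub, Gs2, k21, sub_zero]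
    · rw [h, sub_sub_cancel, Gs2]
  -- `s` on `z`
  have sz12 : s1 z2 = z2 ∨ s1 z2 = 0 := by
    rcases ss11 hs1 hs2 with h | h
    · left; rw [h, sz2]
    · right; rw [h, sz2, sub_self]
  have sz21 : s2 z1 = z1 ∨ s2 z1 = 0 := by
    rcases ss11 hs2 hs1 with h | h
    · left; rw [h, sz1]
    · right; rw [h, sz1, sub_self]
  -- `s` on `y`
  have sy11 : s1 (w1 - s1 w1) = 0 := by rw [map_sub, ss1, sub_self]
  have sy22 : s2 (w2 - s2 w2) = 0 := by rw [map_sub, ss2, sub_self]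
  have sy12 : s1 (w2 - s2 w2) = w2 - s2 w2 ∨ s1 (w2 - s2 w2) = 0 := by
    rcases ss11 hs1 hs2 with h | h
    · right; rw [h, sy22]
    · left; rw [h, sy22, sub_zero]
  have sy21 : s2 (w1 - s1 w1) = w1 - s1 w1 ∨ s2 (w1 - s1 w1) = 0 := by
    rcases ss11 hs2 hs1 with h | h
    · right; rw [h, sy11]
    · left; rw [h, sy11, sub_zero]
  obtain ⟨y1, hy1⟩ : ∃ y1, y1 = w1 - s1 w1 := ⟨_, rfl⟩
  obtain ⟨y2, hy2⟩ : ∃ y2, y2 = w2 - s2 w2 := ⟨_, rfl⟩
  rw [← hy1] at m11 m21 sy11 sy21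
  rw [← hy2] at m22 m12 sy22 sy12
  have key : ∀ e : Dual K V, ∃ ζ : Dual K V, ζ z1 = e z1 ∧ ζ z2 = e z2 ∧ ζ y1 = 0 ∧ ζ y2 = 0 := by
    intro e
    refine ⟨e - e y1 • G1 - e y2 • G2, ?_, ?_, ?_, ?_⟩
    · simp [g11, g21]
    · simp [g12, g22]
    · simp [m11, m21]
    · simp [m12, m22]
  obtain ⟨c1, c11, c12, d11, d12⟩ := key e1
  obtain ⟨c2, c21, c22, d21, d22⟩ := key e2
  refine ⟨y1, y2, c1 ∘ₗ s1, c2 ∘ₗ s2, hy1 ▸ P1 w1 c1, hy2 ▸ P2 w2 c2, m11, m12, m21, m22,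
    ?_, ?_, ?_, ?_, ?_, ?_, ?_, ?_⟩
  · rw [LinearMap.comp_apply, sz1, c11, e11]
  · rw [LinearMap.comp_apply]
    rcases sz12 with h | h <;> rw [h]
    · rw [c12, e12]
    · rw [map_zero]
  · rw [LinearMap.comp_apply]
    rcases sz21 with h | h <;> rw [h]
    · rw [c21, e21]
    · rw [map_zero]
  · rw [LinearMap.comp_apply, sz2, c22, e22]
  · rw [LinearMap.comp_apply, sy11, map_zero]
  · rw [LinearMap.comp_apply]
    rcases sy12 with h | h <;> rw [h]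
    · rw [d12]
    · rw [map_zero]
  · rw [LinearMap.comp_apply]
    rcases sy21 with h | h <;> rw [h]
    · rw [d21]
    · rw [map_zero]
  · rw [LinearMap.comp_apply, sy22, map_zero]

omit [AddCommGroup V] [Module K V] [FiniteDimensional K V] in
private theorem I1a11 : I1 (!![1, 1; 0, 0] : Matrix (Fin 2) (Fin 2) K) := by
  refine ⟨?_, ?_⟩
  · ext i j
    fin_cases i <;> fin_cases j <;> simp [Matrix.mul_apply, Fin.sum_univ_two]
  · simp [Matrix.trace, Fin.sum_univ_two]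

omit [AddCommGroup V] [Module K V] [FiniteDimensional K V] in
private theorem I1b11 : I1 (!![1, 0; 1, 0] : Matrix (Fin 2) (Fin 2) K) := by
  refine ⟨?_, ?_⟩
  · ext i j
    fin_cases i <;> fin_cases j <;> simp [Matrix.mul_apply, Fin.sum_univ_two]
  · simp [Matrix.trace, Fin.sum_univ_two]

omit [AddCommGroup V] [Module K V] [FiniteDimensional K V] in
private theorem I1c11 : I1 (E0 : Matrix (Fin 2) (Fin 2) K) := by
  refine ⟨?_, ?_⟩
  · ext i j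
    fin_cases i <;> fin_cases j <;> simp [E0, Matrix.mul_apply, Fin.sum_univ_two]
  · simp [E0, Matrix.trace, Fin.sum_univ_two]

omit [AddCommGroup V] [Module K V] [FiniteDimensional K V] in
private theorem ta11 : ((!![1, 1; 0, 0] : Matrix (Fin 2) (Fin 2) K) * E0).trace = 1 := by
  simp [E0, Matrix.trace, Matrix.mul_apply, Fin.sum_univ_two]

omit [AddCommGroup V] [Module K V] [FiniteDimensional K V] in
private theorem tb11 : ((!![1, 0; 1, 0] : Matrix (Fin 2) (Fin 2) K) * E0).trace = 1 := by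
  simp [E0, Matrix.trace, Matrix.mul_apply, Fin.sum_univ_two]

omit [FiniteDimensional K V] in
private theorem ema11 (u w : V) (f g : Dual K V) :
    em (bE u w) (bF f g) !![1, 1; 0, 0] = f.smulRight u + g.smulRight u := by
  ext v
  rw [em_b]
  simp [add_smul]

omit [FiniteDimensional K V] in
private theorem emb11 (u w : V) (f g : Dual K V) :
    em (bE u w) (bF f g) !![1, 0; 1, 0] = f.smulRight u + f.smulRight w := by
  ext v
  rw [em_b]
  simp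

private theorem two_blk11 (h2 : (2 : K) ≠ 0) (p : ℕ) [Fact p.Prime] [CharP K p] {k : ℕ}
    (hk : (2 ≤ k ∧ 2 * k < finrank K V) ∨ (3 ≤ k ∧ 2 * k = finrank K V))
    {a : End K V} (ha : Pj k a) {u1 w1 u2 w2 : V} {f1 g1 f2 g2 : Dual K V}
    (hu1 : a u1 = u1) (hw1 : a w1 = 0) (hf1 : ∀ v, f1 (a v) = f1 v) (hg1 : ∀ v, g1 (a v) = 0)
    (hu2 : a u2 = u2) (hw2 : a w2 = 0) (hf2 : ∀ v, f2 (a v) = f2 v) (hg2 : ∀ v, g2 (a v) = 0)
    (f11 : f1 u1 = 1) (f12 : f1 u2 = 0) (f21 : f2 u1 = 0) (f22 : f2 u2 = 1)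
    (g11 : g1 w1 = 1) (g12 : g1 w2 = 0) (g21 : g2 w1 = 0) (g22 : g2 w2 = 1)
    {B1 B2 : Matrix (Fin 2) (Fin 2) K} (hB1 : I1 B1) (hB2 : I1 B2)
    (ht1 : (B1 * E0).trace = 1) (ht2 : (B2 * E0).trace = 1) {D1 D2 : End K V}
    (hD1 : em (bE u1 w1) (bF f1 g1) B1 = f1.smulRight u1 + D1)
    (hD2 : em (bE u2 w2) (bF f2 g2) B2 = f2.smulRight u2 + D2) :
    Good k a (a + D1 + D2) := by
  obtain ⟨F1, r1, -⟩ := frame_of ha hu1 hw1 hf1 hg1 f11 g11
  obtain ⟨F2, r2, -⟩ := frame_of ha hu2 hw2 hf2 hg2 f22 g22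
  obtain ⟨F12, r12, -⟩ := frame_of (k := rk (a - f1.smulRight u1)) (b := a - f1.smulRight u1)
    ⟨F1.idem, rfl⟩ (u := u2) (w := w2) (f := f2) (g := g2)
    (by simp [hu2, f12])
    (by
      have h5 : f1 w2 = 0 := by rw [← hf1, hw2, map_zero]
      simp [hw2, h5])
    (fun v => by simp [hf2, f21])
    (fun v => by
      have h5 : g2 u1 = 0 := by rw [← hu1, hg2]
      simp [hg2, h5]) f22 g22
  obtain ⟨F21, -, -⟩ := frame_of (k := rk (a - f2.smulRight u2)) (b := a - f2.smulRight u2)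
    ⟨F2.idem, rfl⟩ (u := u1) (w := w1) (f := f1) (g := g1)
    (by simp [hu1, f21])
    (by
      have h5 : f2 w1 = 0 := by rw [← hf2, hw1, map_zero]
      simp [hw1, h5])
    (fun v => by simp [hf1, f12])
    (fun v => by
      have h5 : g1 u2 = 0 := by rw [← hu2, hg1]
      simp [hg1, h5]) f11 g11
  rw [sub_right_comm] at F21
  have x12 : ∀ x : Fin 2 → K, bF f1 g1 (bE u2 w2 x) = 0 := by
    intro x
    have h5 : f1 w2 = 0 := by rw [← hf1, hw2, map_zero]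
    have h6 : g1 u2 = 0 := by rw [← hu2, hg1]
    rw [bE_apply, bF_apply]
    ext i
    fin_cases i <;> simp [f12, h5, h6, g12]
  have x21 : ∀ x : Fin 2 → K, bF f2 g2 (bE u1 w1 x) = 0 := by
    intro x
    have h5 : f2 w1 = 0 := by rw [← hf2, hw1, map_zero]
    have h6 : g2 u1 = 0 := by rw [← hu1, hg2]
    rw [bE_apply, bF_apply]
    ext i
    fin_cases i <;> simp [f21, h5, h6, g21]
  have key := two_good h2 p hk F21 F12 x12 x21 (by omega) hB1 hB2 ht1 ht2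
  rw [em_b_E0, em_b_E0, hD1, hD2] at key
  have e1 : a - f1.smulRight u1 - f2.smulRight u2 + f1.smulRight u1 + f2.smulRight u2 = a := by
    abel
  have e2 : a - f1.smulRight u1 - f2.smulRight u2 + (f1.smulRight u1 + D1) +
      (f2.smulRight u2 + D2) = a + D1 + D2 := by
    abel
  rw [e1, e2] at key
  exact key

theorem two_case (h2 : (2 : K) ≠ 0) (p : ℕ) [Fact p.Prime] [CharP K p] {k : ℕ}
    (hk : (2 ≤ k ∧ 2 * k < finrank K V) ∨ (3 ≤ k ∧ 2 * k = finrank K V))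
    {a b : End K V} (ha : Pj k a) (hb : Pj k b) (hr : rk (a - b) ≤ 2)
    (h1 : (1 - a) * b * (1 - a) = 0) (h3 : a * (1 - b) * a = 0) : Good k a b := by
  have hD := Dl_of_fail ha.1 hb.1 h1 h3
  have hrk : rk (b - a) ≤ 2 := by
    have h4 : b - a = -(a - b) := (neg_sub a b).symm
    rw [h4]
    unfold rk at hr ⊢
    rwa [LinearMap.range_neg]
  obtain ⟨δ, hδ⟩ : ∃ δ : End K V, δ = b - a := ⟨_, rfl⟩
  have hb' : b = a + δ := by rw [hδ]; abel
  rw [← hδ] at hD hrk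
  clear hr h1 h3
  subst hb'
  clear hδ
  by_cases h0 : δ = 0
  · subst h0
    rw [add_zero]
    intro ψ hψ
    rw [cj_of_commute ha.1 rfl]
    exact hψ.fix a ha (cr_of_commute ha.1 ha.1 rfl)
  obtain ⟨v1, f1, hf1, T1⟩ := peel hD h0
  obtain ⟨z1, hz1⟩ : ∃ z1, z1 = δ v1 := ⟨_, rfl⟩
  obtain ⟨G1, hG1⟩ : ∃ G1 : Dual K V, G1 = f1 ∘ₗ δ := ⟨_, rfl⟩
  have hG1v : ∀ v, G1 v = f1 (δ v) := fun v => by rw [hG1]; rfl
  have hL1 := peel_left (v := v1) (f := f1) hD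
  have hR1 := peel_right (v := v1) (f := f1) hD
  have hS1 := peel_sub hD T1
  have hK1 := peel_rk hf1
  rw [← hz1, ← hG1] at T1 hL1 hR1 hS1 hK1
  rw [← hz1] at hf1
  have k11 : G1 v1 = 1 := by rw [hG1v, ← hz1, hf1]
  have g11 : G1 z1 = 0 := by rw [hG1v, hz1, hD.sq0, map_zero]
  by_cases h00 : δ - G1.smulRight z1 = 0
  · -- one block
    have hδ : δ = G1.smulRight z1 := sub_eq_zero.1 h00
    rw [hδ]
    have haa : ∀ v, a (a v) = a v := fun v => congrArg (fun f : End K V => f v) ha.1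
    rcases T1 with ⟨c1, c2⟩ | ⟨c1, c2⟩
    · obtain ⟨hF, hrF, hel⟩ := frame_of ha (u := z1) (w := v1 - a v1) (f := f1 ∘ₗ a) (g := G1) c1
        (by rw [map_sub, haa, sub_self]) (fun v => by
          rw [LinearMap.comp_apply, LinearMap.comp_apply, haa]) c2
        (by rw [LinearMap.comp_apply, c1, hf1]) (by rw [map_sub, c2, k11, sub_zero])
      have key := frame_good h2 p hk hF hrF (I1c11 (K := K)) (I1a11 (K := K))
      rw [← hel, el, ema11, ← add_assoc, sub_add_cancel] at key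
      exact key
    · obtain ⟨hF, hrF, hel⟩ := frame_of ha (u := a v1) (w := z1) (f := G1) (g := f1 - f1 ∘ₗ a)
        (haa v1) c1 c2 (fun v => by
          rw [LinearMap.sub_apply, LinearMap.comp_apply, haa, sub_self])
        (by rw [c2, k11]) (by
          rw [LinearMap.sub_apply, LinearMap.comp_apply, c1, map_zero, sub_zero, hf1])
      have key := frame_good h2 p hk hF hrF (I1c11 (K := K)) (I1b11 (K := K))
      rw [← hel, el, emb11, ← add_assoc, sub_add_cancel] at key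
      exact key
  -- two blocks
  obtain ⟨δ', hδ'⟩ : ∃ δ' : End K V, δ' = δ - G1.smulRight z1 := ⟨_, rfl⟩
  rw [← hδ'] at hS1 hK1 h00
  have hδv : ∀ v, δ' v = δ v - G1 v • z1 := fun v => by rw [hδ']; rfl
  obtain ⟨v2, f2, hf2, T2⟩ := peel hS1 h00
  obtain ⟨z2, hz2⟩ : ∃ z2, z2 = δ' v2 := ⟨_, rfl⟩
  obtain ⟨G2, hG2⟩ : ∃ G2 : Dual K V, G2 = f2 ∘ₗ δ' := ⟨_, rfl⟩
  have hG2v : ∀ v, G2 v = f2 (δ' v) := fun v => by rw [hG2]; rfl
  have hK2 := peel_rk hf2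
  rw [← hz2, ← hG2] at T2 hK2
  rw [← hz2] at hf2
  have hr0 : rk (δ' - G2.smulRight z2) = 0 := by omega
  have hδ2 : δ' = G2.smulRight z2 := by
    unfold rk at hr0
    rw [Submodule.finrank_eq_zero, LinearMap.range_eq_bot] at hr0
    exact sub_eq_zero.1 hr0
  -- the products
  have p1 : ∀ v, δ (δ' v) = 0 := fun v => by
    rw [hδv, map_sub, map_smul, hD.sq0, hz1, hD.sq0, smul_zero, sub_zero]
  have p2 : ∀ v, δ' (δ v) = 0 := fun v => by
    rw [hδv, hD.sq0, hG1v, hD.sq0, map_zero, zero_smul, sub_zero]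
  have g12 : G1 z2 = 0 := by rw [hG1v, hz2, p1, map_zero]
  have g21 : G2 z1 = 0 := by rw [hG2v, hz1, p2, map_zero]
  have g22 : G2 z2 = 0 := by rw [hG2v, hz2, hS1.sq0, map_zero]
  have q1 : δ' v1 = 0 := by rw [hδv, k11, one_smul, hz1, sub_self]
  have k21 : G2 v1 = 0 := by rw [hG2v, q1, map_zero]
  have k22 : G2 v2 = 1 := by rw [hG2v, ← hz2, hf2]
  have q2 : f1 z2 = 0 := by
    rw [hz2, hδv, map_sub, map_smul, hf1, smul_eq_mul, mul_one, hG1v, sub_self]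
  obtain ⟨y1, y2, ζ1, ζ2, P1, P2, m11, m12, m21, m22, n11, n12, n21, n22, o11, o12, o21, o22⟩ :=
    duals11 ha.1 T1 T2 g11 g12 g21 g22 (e1 := f1) (e2 := f2 - f2 z1 • f1) hf1 q2
      (by simp [hf1]) (by simp [q2, hf2]) (w1 := v1) (w2 := v2 - G1 v2 • v1) k11
      (by simp [k11]) k21 (by simp [k21, k22])
  have hδs : a + δ = a + G1.smulRight z1 + G2.smulRight z2 := by
    rw [← hδ2, hδ']
    abel
  rw [hδs]
  rcases P1 with ⟨a1, a2, a3, a4⟩ | ⟨a1, a2, a3, a4⟩ <;>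
    rcases P2 with ⟨b1, b2, b3, b4⟩ | ⟨b1, b2, b3, b4⟩
  · exact two_blk11 h2 p hk ha a1 a3 a4 a2 b1 b3 b4 b2 n11 n12 n21 n22 m11 m12 m21 m22
      I1a11 I1a11 ta11 ta11 (ema11 _ _ _ _) (ema11 _ _ _ _)
  · exact two_blk11 h2 p hk ha a1 a3 a4 a2 b3 b1 b2 b4 n11 o12 g21 m22 m11 g12 o21 n22
      I1a11 I1b11 ta11 tb11 (ema11 _ _ _ _) (emb11 _ _ _ _)
  · exact two_blk11 h2 p hk ha a3 a1 a2 a4 b1 b3 b4 b2 m11 g12 o21 n22 n11 o12 g21 m22
      I1b11 I1a11 tb11 ta11 (emb11 _ _ _ _) (ema11 _ _ _ _)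
  · exact two_blk11 h2 p hk ha a3 a1 a2 a4 b3 b1 b2 b4 m11 m12 m21 m22 n11 n12 n21 n22
      I1b11 I1b11 tb11 tb11 (emb11 _ _ _ _) (emb11 _ _ _ _)

end Pool.Agent.Helper92.LQ
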