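import Pool.Agent.Helper92.LQ.CT
import Pool.Agent.Helper92.LQ.TwoG
import Pool.Agent.Helper92.LQ.Ind

/-!
# Project LQ: colour maps respect conjugation
-/

set_option autoImplicit false

open Module

namespace Pool.Agent.Helper92.LQ

variable {K V : Type*} [Field K] [AddCommGroup V] [Module K V] [FiniteDimensional K V]

theorem gs_good [Finite K] (h2 : (2 : K) ≠ 0) (p : ℕ) [Fact p.Prime] [CharP K p] {k : ℕ}
    (hk : (2 ≤ k ∧ 2 * k < finrank K V) ∨ (3 ≤ k ∧ 2 * k = finrank K V)) :
    GS k (Good (K := K) (V := V) k) where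
  closure _ _ _ ha hP hY h1 h3 h4 := good_closure h2 ha hP hY h1 h3 h4
  frame _ _ _ h hp _ _ hA hB := frame_good h2 p hk h hp hA hB
  two _ _ ha hb hr h1 h3 := two_case h2 p hk ha hb hr h1 h3

/-- Colour maps respect conjugation. -/
theorem respects [Finite K] (h2 : (2 : K) ≠ 0) {k : ℕ}
    (hk : (2 ≤ k ∧ 2 * k < finrank K V) ∨ (3 ≤ k ∧ 2 * k = finrank K V))
    {T : End K V → End K V} (hT : CB k T) {a b : End K V} (ha : Pj k a) (hb : Pj k b) :
    sim (cj (T a) (T b)) (T (cj a b)) := by
  obtain ⟨p, hp⟩ := CharP.exists K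
  have hpp : Fact p.Prime := by
    rcases CharP.char_is_prime_or_zero K p with h | rfl
    · exact ⟨h⟩
    · exfalso
      have : CharZero K := CharP.charP_to_charZero K
      exact not_finite K
  exact apply_good h2 hT ha hb (ind h2 (by omega) (gs_good h2 p hk) _ a b ha hb rfl)

end Pool.Agent.Helper92.LQ
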