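import Pool.Agent.Helper92.LQ.L1b

/-!
# Project LQ: separating functionals and the block of two vectors

`frame_of`: `u` in the range and `w` in the kernel of `b`, `f` and `g` dual functionals adapted to `b`, give a block
in which `b` is `el _ E F E0`.
-/

set_option autoImplicit false

open Module

namespace Pool.Agent.Helper92.LQ

variable {K V : Type*} [Field K] [AddCommGroup V] [Module K V]

theorem sep (U : Submodule K V) {u : V} (hu : u ∉ U) :
    ∃ f : Dual K V, f u = 1 ∧ ∀ v ∈ U, f v = 0 := by
  obtain ⟨f, hf, hU⟩ := Submodule.exists_le_ker_of_notMem hu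
  refine ⟨(f u)⁻¹ • f, ?_, fun v hv => ?_⟩
  · rw [LinearMap.smul_apply, smul_eq_mul, inv_mul_cancel₀ hf]
  · have h1 : f v = 0 := LinearMap.mem_ker.1 (hU hv)
    rw [LinearMap.smul_apply, h1, smul_zero]

/-- A functional which is one at `u`, zero at `z` and zero on `U`. -/
theorem sep2 (U : Submodule K V) {u z : V} (hu : u ∉ U ⊔ K ∙ z) :
    ∃ f : Dual K V, f u = 1 ∧ f z = 0 ∧ ∀ v ∈ U, f v = 0 := by
  obtain ⟨f, hf, hU⟩ := sep _ hu
  exact ⟨f, hf, hU z (Submodule.mem_sup_right (Submodule.mem_span_singleton_self z)),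
    fun v hv => hU v (Submodule.mem_sup_left hv)⟩

/-- The embedding of the block of two vectors. -/
def bE (u w : V) : (Fin 2 → K) →ₗ[K] V where
  toFun x := x 0 • u + x 1 • w
  map_add' x y := by
    simp only [Pi.add_apply, add_smul]
    abel
  map_smul' r x := by simp only [Pi.smul_apply, smul_eq_mul, mul_smul, RingHom.id_apply, smul_add]

/-- The projection to the block of two functionals. -/
def bF (f g : Dual K V) : V →ₗ[K] (Fin 2 → K) where
  toFun v := ![f v, g v]
  map_add' x y := by
    ext i
    fin_cases i <;> simp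
  map_smul' r x := by
    ext i
    fin_cases i <;> simp

theorem bE_apply (u w : V) (x : Fin 2 → K) : bE u w x = x 0 • u + x 1 • w := rfl

theorem bF_apply (f g : Dual K V) (v : V) : bF f g v = ![f v, g v] := rfl

/-- The block endomorphism of vectors `u`, `w` and functionals `f`, `g`. -/
theorem em_b (u w : V) (f g : Dual K V) (M : Matrix (Fin 2) (Fin 2) K) (v : V) :
    em (bE u w) (bF f g) M v =
      (M 0 0 * f v + M 0 1 * g v) • u + (M 1 0 * f v + M 1 1 * g v) • w := by
  rw [em_apply, bE_apply, bF_apply]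
  simp [Matrix.mulVec, dotProduct, Fin.sum_univ_two]

theorem em_b_E0 (u w : V) (f g : Dual K V) : em (bE u w) (bF f g) E0 = f.smulRight u := by
  ext v
  rw [em_b]
  simp [E0]

theorem fr_of {p0 : End K V} {u w : V} {f g : Dual K V} (hp : p0 * p0 = p0)
    (hfu : f u = 1) (hfw : f w = 0) (hgu : g u = 0) (hgw : g w = 1) (hu : p0 u = 0)
    (hw : p0 w = 0) (hf : ∀ v, f (p0 v) = 0) (hg : ∀ v, g (p0 v) = 0) :
    Fr p0 (bE u w) (bF f g) where
  idem := hp
  fe x := by
    rw [bE_apply, bF_apply]
    ext i
    fin_cases i <;> simp [hfu, hfw, hgu, hgw]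
  pe x := by rw [bE_apply, map_add, map_smul, map_smul, hu, hw, smul_zero, smul_zero, add_zero]
  fp v := by
    rw [bF_apply, hf, hg]
    ext i
    fin_cases i <;> rfl

/-- The block of `u` in the range and `w` in the kernel of `b`. -/
theorem frame_of [FiniteDimensional K V] {k : ℕ} {b : End K V} (hb : Pj k b) {u w : V}
    {f g : Dual K V} (hu : b u = u) (hw : b w = 0) (hf : ∀ v, f (b v) = f v)
    (hg : ∀ v, g (b v) = 0) (hfu : f u = 1) (hgw : g w = 1) :
    Fr (b - f.smulRight u) (bE u w) (bF f g) ∧ rk (b - f.smulRight u) + 1 = k ∧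
      b = el (b - f.smulRight u) (bE u w) (bF f g) E0 := by
  have hbb : ∀ v, b (b v) = b v := fun v => by
    rw [← Module.End.mul_apply, hb.1]
  have hfw : f w = 0 := by rw [← hf, hw, map_zero]
  have hgu : g u = 0 := by rw [← hu, hg]
  have hF : Fr (b - f.smulRight u) (bE u w) (bF f g) := by
    refine fr_of ?_ hfu hfw hgu hgw ?_ ?_ ?_ ?_
    · ext v
      simp only [Module.End.mul_apply, LinearMap.sub_apply, LinearMap.smulRight_apply, map_sub,
        map_smul, hbb, hf, hu, hfu, one_smul, sub_self, smul_zero, sub_zero]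
    · simp [hu, hfu]
    · simp [hw, hfw]
    · intro v
      simp [hf, hfu]
    · intro v
      simp [hg, hgu]
  have hel : b = el (b - f.smulRight u) (bE u w) (bF f g) E0 := by
    rw [el, em_b_E0, sub_add_cancel]
  refine ⟨hF, ?_, hel⟩
  have h1 := rk_el hF (M := E0) I1_E0
  rw [← hel] at h1
  rw [← h1]
  exact hb.2

/-- Conjugation by a unipotent element. -/
theorem Pj_add {k : ℕ} {a X : End K V} (ha : Pj k a) (h1 : a * X + X * a = X) (h3 : X * X = 0) :
    Pj k (a + X) := by
  have hXa : X * a = X - a * X := by rw [eq_sub_iff_add_eq, add_comm]; exact h1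
  have haXa : a * X * a = 0 := by
    rw [mul_assoc, hXa, mul_sub, ← mul_assoc, ha.1, sub_self]
  have hXaX : X * a * X = 0 := by
    rw [hXa, sub_mul, h3, mul_assoc, h3, mul_zero, sub_zero]
  have hi : (a + X) * (a + X) = a + X := by
    rw [add_mul, mul_add, mul_add, ha.1, h3, add_zero, add_assoc, h1]
  refine ⟨hi, ?_⟩
  have haXa' : a * (X * a) = 0 := by rw [← mul_assoc, haXa]
  have hXaX' : X * (a * X) = 0 := by rw [← mul_assoc, hXaX]
  have haa : a * (a * X) = a * X := by rw [← mul_assoc, ha.1]
  have hN : (X * a - a * X) * (X * a - a * X) = 0 := by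
    simp only [mul_sub, sub_mul, mul_assoc]
    rw [haXa', haa, ← mul_assoc X X, h3]
    simp [hXaX']
  have hN1 : (1 + (X * a - a * X)) * (1 - (X * a - a * X)) = 1 := by
    generalize X * a - a * X = N at hN
    simp only [mul_sub, add_mul, one_mul, hN, mul_one]
    abel
  have hN2 : (1 - (X * a - a * X)) * (1 + (X * a - a * X)) = 1 := by
    generalize X * a - a * X = N at hN
    simp only [mul_add, sub_mul, one_mul, hN, mul_one]
    abel
  have h4 : (1 + (X * a - a * X)) * a * (1 - (X * a - a * X)) = a + X := by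
    have h5 : (X * a - a * X) * a = X * a := by
      rw [sub_mul, mul_assoc X a a, ha.1, haXa, sub_zero]
    have h6 : a * (X * a - a * X) = -(a * X) := by
      rw [mul_sub, haXa', haa, zero_sub]
    have h7 : X * a * (X * a - a * X) = 0 := by
      rw [mul_sub, mul_assoc X a (X * a), haXa', mul_zero, mul_assoc X a (a * X), haa, hXaX',
        sub_zero]
    rw [add_mul, one_mul, h5, mul_sub, mul_one, add_mul, h6, h7, add_zero, sub_neg_eq_add,
      add_assoc, add_comm (X * a), h1]
  rw [← ha.2, ← h4]
  exact rk_conj hN1 hN2 a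

end Pool.Agent.Helper92.LQ
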