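import Pool.Agent.Helper92.LQ.Geo
import Pool.Agent.Helper2.RO.GenA
import Pool.Agent.Helper2.RO.PslA

/-!
# Project LQ: idempotents and the group `SL(n, K)`

`lm B`: the endomorphism of a matrix of `SL(n, K)`. `SL(n, K)` is transitive on `Pj k`, every transvection is
`iv π * iv (π + X / 2)` with `π` in `Pj k`.
-/

set_option autoImplicit false

open Module Matrix

namespace Pool.Agent.Helper92.LQ

variable {K : Type*} [Field K]

section V

variable {V : Type*} [AddCommGroup V] [Module K V] [FiniteDimensional K V]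

theorem idem_mem_range {π : End K V} (h : π * π = π) {v : V} :
    v ∈ LinearMap.range π ↔ π v = v := by
  constructor
  · rintro ⟨w, rfl⟩
    exact congrArg (fun f : End K V => f w) h
  · intro h1
    exact ⟨v, h1⟩

/-- Two idempotents of the same rank are conjugate. -/
theorem exists_equiv {k : ℕ} {π π' : End K V} (h : Pj k π) (h' : Pj k π') :
    ∃ g : V ≃ₗ[K] V, ∀ v, g (π v) = π' (g v) := by
  have hc : IsCompl (LinearMap.range π) (LinearMap.ker π) :=
    LinearMap.IsIdempotentElem.isCompl h.1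
  have hc' : IsCompl (LinearMap.range π') (LinearMap.ker π') :=
    LinearMap.IsIdempotentElem.isCompl h'.1
  have hr : finrank K (LinearMap.range π) = finrank K (LinearMap.range π') :=
    h.2.trans h'.2.symm
  have hk : finrank K (LinearMap.ker π) = finrank K (LinearMap.ker π') := by
    have h1 := LinearMap.finrank_range_add_finrank_ker π
    have h3 := LinearMap.finrank_range_add_finrank_ker π'
    omega
  let e1 : LinearMap.range π ≃ₗ[K] LinearMap.range π' := LinearEquiv.ofFinrankEq _ _ hr
  let e2 : LinearMap.ker π ≃ₗ[K] LinearMap.ker π' := LinearEquiv.ofFinrankEq _ _ hk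
  let P := Submodule.prodEquivOfIsCompl _ _ hc
  let P' := Submodule.prodEquivOfIsCompl _ _ hc'
  refine ⟨P.symm ≪≫ₗ (e1.prodCongr e2) ≪≫ₗ P', fun v => ?_⟩
  obtain ⟨⟨x, y⟩, rfl⟩ := P.surjective v
  have h1 : π (P (x, y)) = P (x, 0) := by
    show π ((x : V) + (y : V)) = (x : V) + ((0 : LinearMap.ker π) : V)
    rw [map_add, (idem_mem_range h.1).1 x.2, LinearMap.mem_ker.1 y.2]
    simp
  rw [h1]
  simp only [LinearEquiv.trans_apply, LinearEquiv.symm_apply_apply]
  show P' (e1 x, e2 0) = π' (P' (e1 x, e2 y))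
  show ((e1 x : V)) + ((e2 0 : LinearMap.ker π') : V) = π' ((e1 x : V) + (e2 y : V))
  rw [map_add, (idem_mem_range h'.1).1 (e1 x).2, LinearMap.mem_ker.1 (e2 y).2]
  simp

/-- Idempotents of every rank between a vector and a functional. -/
theorem exists_between {u : V} (hu : u ≠ 0) {f : Dual K V} (hf : f ≠ 0) (hfu : f u = 0) :
    ∀ k, 1 ≤ k → k < finrank K V → ∃ π : End K V, Pj k π ∧ π u = u ∧ ∀ v, f (π v) = 0 := by
  intro k hk
  induction k, hk using Nat.le_induction with
  | base =>
    intro _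
    obtain ⟨t, ht, -⟩ := sep (K := K) (⊥ : Submodule K V) (u := u) (by
      rw [Submodule.mem_bot]
      exact hu)
    have ht0 : t ≠ 0 := by
      rintro rfl
      exact zero_ne_one ht
    refine ⟨t.smulRight u, ⟨smulRight_idem ht, rk_smulRight ht0 hu⟩, ?_, fun v => ?_⟩
    · rw [LinearMap.smulRight_apply, ht, one_smul]
    · rw [LinearMap.smulRight_apply, map_smul, hfu, smul_zero]
  | succ k hk ih =>
    intro hk1
    obtain ⟨π, hπ, hπu, hπf⟩ := ih (by omega)
    have hQ := one_sub_idem hπ.1
    have hr : 2 ≤ rk (1 - π) := by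
      have h1 := rk_one_sub hπ.1
      rw [hπ.2] at h1
      omega
    obtain ⟨s, z, t, r, hs, hz, -, -, h1, h3, h4, h5⟩ := dual2 hQ hr
    obtain ⟨w, hw0, hw, hfw⟩ : ∃ w : V, w ≠ 0 ∧ (1 - π) w = w ∧ f w = 0 := by
      by_cases hc : f s = 0
      · refine ⟨s, ?_, hs, hc⟩
        rintro rfl
        rw [map_zero] at h1
        exact zero_ne_one h1
      · refine ⟨f s • z - f z • s, ?_, ?_, ?_⟩
        · intro h0
          have h6 := congrArg r h0
          rw [map_sub, map_smul, map_smul, h4, h5, map_zero, smul_zero, sub_zero, smul_eq_mul,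
            mul_one] at h6
          exact hc h6
        · rw [map_sub, map_smul, map_smul, hs, hz]
        · rw [map_sub, map_smul, map_smul, smul_eq_mul, smul_eq_mul]
          ring
    have hπw : π w = 0 := by
      have h6 : w - π w = w := hw
      rw [sub_eq_self] at h6
      exact h6
    obtain ⟨q, hq, -⟩ := sep (K := K) (⊥ : Submodule K V) (u := w) (by
      rw [Submodule.mem_bot]
      exact hw0)
    obtain ⟨g, hg⟩ : ∃ g : Dual K V, g = q ∘ₗ (1 - π) := ⟨_, rfl⟩
    have hgw : g w = 1 := by
      rw [hg]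
      show q ((1 - π) w) = 1
      rw [hw, hq]
    have hgπ : ∀ v, g (π v) = 0 := by
      intro v
      rw [hg]
      show q (π v - π (π v)) = 0
      have h6 : π (π v) = π v := congrArg (fun f : End K V => f v) hπ.1
      rw [h6, sub_self, map_zero]
    have hg0 : g ≠ 0 := by
      intro h0
      rw [h0] at hgw
      exact zero_ne_one hgw
    have e1 : π * g.smulRight w = 0 := by
      ext v
      simp [hπw]
    have e2 : (g.smulRight w : End K V) * π = 0 := by
      ext v
      simp [hgπ]
    have hR : (g.smulRight w : End K V) * g.smulRight w = g.smulRight w := smulRight_idem hgw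
    refine ⟨π + g.smulRight w, ⟨?_, ?_⟩, ?_, fun v => ?_⟩
    · rw [add_mul, mul_add, mul_add, hπ.1, e1, e2, hR]
      simp
    · rw [rk_add hπ.1 hR e1 e2, hπ.2, rk_smulRight hg0 hw0]
    · have h6 : g u = 0 := by rw [← hπu, hgπ]
      rw [LinearMap.add_apply, hπu, LinearMap.smulRight_apply, h6, zero_smul, add_zero]
    · rw [LinearMap.add_apply, map_add, hπf, LinearMap.smulRight_apply, map_smul, hfw, smul_zero,
        add_zero]

end V

variable {ι : Type*} [Fintype ι] [DecidableEq ι]

/-- The endomorphism of a matrix of `SL(n, K)`. -/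
noncomputable def lm (B : SpecialLinearGroup ι K) : End K (ι → K) :=
  Matrix.toLin' (B : Matrix ι ι K)

theorem lm_mul (A B : SpecialLinearGroup ι K) : lm (A * B) = lm A * lm B :=
  Matrix.toLin'_mul _ _

theorem lm_one : lm (1 : SpecialLinearGroup ι K) = 1 := Matrix.toLin'_one

theorem lm_pow (A : SpecialLinearGroup ι K) (m : ℕ) : lm (A ^ m) = lm A ^ m := by
  induction m with
  | zero => rw [pow_zero, pow_zero, lm_one]
  | succ m ih => rw [pow_succ, pow_succ, lm_mul, ih]

theorem lm_inv_mul (A : SpecialLinearGroup ι K) : lm A⁻¹ * lm A = 1 := by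
  rw [← lm_mul, inv_mul_cancel, lm_one]

theorem lm_mul_inv (A : SpecialLinearGroup ι K) : lm A * lm A⁻¹ = 1 := by
  rw [← lm_mul, mul_inv_cancel, lm_one]

theorem lm_injective : Function.Injective (lm : SpecialLinearGroup ι K → _) := by
  intro A B h
  exact Subtype.ext (Matrix.toLin'.injective h)

/-- Endomorphisms of determinant one come from `SL(n, K)`. -/
theorem exists_lm {g : End K (ι → K)} (hg : LinearMap.det g = 1) :
    ∃ B : SpecialLinearGroup ι K, lm B = g := by
  refine ⟨⟨LinearMap.toMatrix' g, ?_⟩, ?_⟩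
  · rw [LinearMap.det_toMatrix', hg]
  · exact Matrix.toLin'_toMatrix' g

theorem det_lm (B : SpecialLinearGroup ι K) : LinearMap.det (lm B) = 1 := by
  rw [lm, LinearMap.det_toLin']
  exact B.2

theorem mk_eq_iff' (A B : SpecialLinearGroup ι K) :
    (QuotientGroup.mk A : ProjectiveSpecialLinearGroup ι K) = QuotientGroup.mk B ↔
      ∃ r : K, lm B = r • lm A := by
  rw [Helper2.RO.mk_eq_iff]
  constructor
  · rintro ⟨r, hr⟩
    refine ⟨r, ?_⟩
    rw [lm, hr, map_smul]
    rfl
  · rintro ⟨r, hr⟩
    refine ⟨r, ?_⟩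
    apply Matrix.toLin'.injective
    rw [map_smul]
    exact hr

/-- `SL(n, K)` is transitive on `Pj k`. -/
theorem transitive {k : ℕ} (hk : 1 ≤ k) {π π' : End K (ι → K)} (h : Pj k π) (h' : Pj k π') :
    ∃ B : SpecialLinearGroup ι K, lm B * π * lm B⁻¹ = π' := by
  obtain ⟨g, hg⟩ := exists_equiv h h'
  have h0 : π' ≠ 0 := by
    rintro rfl
    have h1 := h'.2
    rw [rk, LinearMap.range_zero, finrank_bot] at h1
    omega
  obtain ⟨s, t, hs, ht, hts⟩ := dual1 h'.1 h0
  have hdet : LinearMap.det (g : End K (ι → K)) ≠ 0 := (LinearEquiv.isUnit_det' g).ne_zero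
  set c : K := (LinearMap.det (g : End K (ι → K)))⁻¹ with hc
  have hT : LinearMap.det (LinearMap.transvection ((c - 1) • t) s) = c := by
    rw [LinearMap.transvection.det, LinearMap.smul_apply, hts, smul_eq_mul, mul_one]
    ring
  obtain ⟨B, hB⟩ := exists_lm (ι := ι) (g := LinearMap.transvection ((c - 1) • t) s *
    (g : End K (ι → K))) (by
      rw [Module.End.mul_eq_comp, LinearMap.det_comp, hT, hc, inv_mul_cancel₀ hdet])
  refine ⟨B, ?_⟩
  have h1 : lm B * π = π' * lm B := by
    rw [hB]
    refine LinearMap.ext fun v => ?_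
    simp only [Module.End.mul_apply, LinearEquiv.coe_coe, LinearMap.transvection.apply,
      LinearMap.smul_apply, map_add, map_smul]
    rw [hg, ht, hs]
  rw [h1, mul_assoc, lm_mul_inv, mul_one]

/-- The functional of a vector. -/
def fu (k : ι → K) : Dual K (ι → K) where
  toFun v := k ⬝ᵥ v
  map_add' v w := dotProduct_add k v w
  map_smul' r v := dotProduct_smul r k v

theorem lm_tv (u k : ι → K) (h : k ⬝ᵥ u = 0) :
    lm (Helper2.RO.tv u k h) = 1 + (fu k).smulRight u := by
  refine LinearMap.ext fun v => ?_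
  show (1 + vecMulVec u k) *ᵥ v = v + (k ⬝ᵥ v) • u
  rw [add_mulVec, one_mulVec, vecMulVec_mulVec]
  congr 1
  ext i
  simp [mul_comm]

/-- Every transvection is a product of two involutions of `Pj k`. -/
theorem tv_prod (h2 : (2 : K) ≠ 0) {k : ℕ} (hk : 1 ≤ k) (hk' : k < finrank K (ι → K))
    {u w : ι → K} (h : w ⬝ᵥ u = 0) (hu : u ≠ 0) (hw : fu w ≠ 0) :
    ∃ π π' : End K (ι → K), Pj k π ∧ Pj k π' ∧
      lm (Helper2.RO.tv u w h) = iv π * iv π' := by
  obtain ⟨π, hπ, hπu, hπf⟩ := exists_between hu hw h k hk hk'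
  obtain ⟨X, hX⟩ : ∃ X : End K (ι → K), X = (fu w).smulRight ((2 : K)⁻¹ • u) := ⟨_, rfl⟩
  have e1 : π * X = X := by
    rw [hX]
    refine LinearMap.ext fun v => ?_
    simp only [Module.End.mul_apply, LinearMap.smulRight_apply, map_smul, hπu]
  have e2 : X * π = 0 := by
    rw [hX]
    refine LinearMap.ext fun v => ?_
    simp only [Module.End.mul_apply, LinearMap.smulRight_apply, hπf, zero_smul,
      LinearMap.zero_apply]
  have e3 : X * X = 0 := by
    rw [hX]
    refine LinearMap.ext fun v => ?_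
    have h1 : fu w u = 0 := h
    simp only [Module.End.mul_apply, LinearMap.smulRight_apply, map_smul, h1, smul_zero,
      LinearMap.zero_apply, zero_smul]
  refine ⟨π, π + X, hπ, Pj_add hπ (by rw [e1, e2, add_zero]) e3, ?_⟩
  have h3 : iv π * iv (π + X) = 1 + (X + X) := by
    have h4 : iv (π + X) = iv π - (X + X) := by
      unfold iv
      abel
    rw [h4, mul_sub, iv_sq hπ.1]
    unfold iv
    rw [sub_mul, one_mul, add_mul, mul_add, e1]
    abel
  rw [h3, lm_tv, hX]
  congr 1
  refine LinearMap.ext fun v => ?_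
  simp only [LinearMap.add_apply, LinearMap.smulRight_apply]
  rw [← smul_add, ← add_smul, ← two_mul, mul_inv_cancel₀ h2, one_smul]

end Pool.Agent.Helper92.LQ
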