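import Pool.Agent.Helper92.LQ.GrA
import Pool.Agent.Helper92.LQ.Fin
import Pool.Agent.Helper2.RO.Main

/-!
# Project LQ: the classes of split involutions of `PSL(n, K)`

`Rel r b π`: `b` is the class of the matrix of `r • iv π`.
-/

set_option autoImplicit false

open Module Matrix

namespace Pool.Agent.Helper92.LQ

variable {K : Type*} [Field K] {ι : Type*} [Fintype ι] [DecidableEq ι]

/-- `b` is the class of `r • iv π`. -/
def Rel (r : K) (b : ProjectiveSpecialLinearGroup ι K) (π : End K (ι → K)) : Prop :=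
  ∃ B : SpecialLinearGroup ι K, QuotientGroup.mk B = b ∧ lm B = r • iv π

theorem Rel.of_sim {r : K} {b b' : ProjectiveSpecialLinearGroup ι K} {π π' : End K (ι → K)}
    (h : Rel r b π) (h' : Rel r b' π') (hs : sim π π') : b = b' := by
  obtain ⟨B, rfl, hB⟩ := h
  obtain ⟨B', rfl, hB'⟩ := h'
  rw [mk_eq_iff']
  rcases hs.iv with h1 | h1
  · exact ⟨1, by rw [one_smul, hB, hB', h1]⟩
  · refine ⟨-1, ?_⟩
    rw [hB, hB', h1, smul_neg]
    exact (neg_one_smul K _).symm

/-- A scalar with square one is one or minus one. -/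
theorem scal_pm {V : Type*} [AddCommGroup V] [Module K V] {t : K}
    (h : (t * t) • (1 : End K V) = 1) :
    t • (1 : End K V) = 1 ∨ t • (1 : End K V) = -1 := by
  have h1 : (t * t - 1) • (1 : End K V) = 0 := by rw [sub_smul, h, one_smul, sub_self]
  rcases smul_eq_zero.1 h1 with h3 | h3
  · have h4 : (t - 1) * (t + 1) = 0 := by linear_combination h3
    rcases mul_eq_zero.1 h4 with h5 | h5
    · left
      rw [sub_eq_zero.1 h5, one_smul]
    · right
      rw [eq_neg_of_add_eq_zero_left h5]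
      exact neg_one_smul K _
  · left
    rw [h3, smul_zero]

theorem sim_of_smul (h2 : (2 : K) ≠ 0) {V : Type*} [AddCommGroup V] [Module K V]
    {π π' : End K V} (hπ : π * π = π) (hπ' : π' * π' = π') {t : K} (h1 : iv π' = t • iv π) :
    sim π π' := by
  have h3 : (t * t) • (1 : End K V) = 1 := by
    have h4 := iv_sq hπ'
    rw [h1, smul_mul_smul_comm, iv_sq hπ] at h4
    exact h4
  apply sim_of_iv h2
  rcases scal_pm h3 with h4 | h4
  · left
    calc iv π' = (t • (1 : End K V)) * iv π := by rw [smul_mul_assoc, one_mul, h1]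
      _ = iv π := by rw [h4, one_mul]
  · right
    calc iv π' = (t • (1 : End K V)) * iv π := by rw [smul_mul_assoc, one_mul, h1]
      _ = -iv π := by rw [h4, neg_mul, one_mul]

/-- Conjugate transvections which differ by a scalar are equal. -/
theorem eq_of_conj (p : ℕ) [Fact p.Prime] [CharP K p] {V : Type*} [AddCommGroup V] [Module K V]
    {A A' T : End K V} (hA : A * A' = 1) (hA' : A' * A = 1) (hT : T ^ p = 1) {s : K}
    (h : T * A = s • (A * T)) : T * A = A * T := by
  have h7 : T = s • (A * T * A') := by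
    calc T = T * A * A' := by rw [mul_assoc, hA, mul_one]
      _ = s • (A * T * A') := by rw [h, smul_mul_assoc]
  have h8 : ∀ n : ℕ, (A * T * A') ^ n = A * T ^ n * A' := by
    intro n
    induction n with
    | zero => rw [pow_zero, pow_zero, mul_one, hA]
    | succ n ih =>
      rw [pow_succ, ih]
      calc A * T ^ n * A' * (A * T * A') = A * T ^ n * (A' * A) * T * A' := by
            simp only [mul_assoc]
        _ = A * T ^ (n + 1) * A' := by rw [hA', mul_one, pow_succ]; simp only [mul_assoc]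
  have h9 : (s ^ p) • (1 : End K V) = 1 := by
    have h10 : T ^ p = (s • (A * T * A')) ^ p := congrArg (fun f => f ^ p) h7
    rw [hT, smul_pow, h8, hT, mul_one, hA] at h10
    exact h10.symm
  have h10 : (s ^ p - 1) • (1 : End K V) = 0 := by rw [sub_smul, h9, one_smul, sub_self]
  rcases smul_eq_zero.1 h10 with h3 | h3
  · have h4 : (s - 1) ^ p = 0 := by rw [sub_pow_char, one_pow, h3]
    have h5 : s = 1 := sub_eq_zero.1 (pow_eq_zero_iff (Fact.out : p.Prime).ne_zero |>.1 h4)
    rw [h, h5, one_smul]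
  · calc T * A = 1 * (T * A) := (one_mul _).symm
      _ = 1 * (A * T) := by rw [h3, zero_mul, zero_mul]
      _ = A * T := one_mul _

/-- The `p`-th power of a transvection. -/
theorem tv_pow (p : ℕ) [CharP K p] {V : Type*} [AddCommGroup V] [Module K V]
    {f : Dual K V} {u : V} (h : f u = 0) : (1 + f.smulRight u : End K V) ^ p = 1 := by
  obtain ⟨X, hX⟩ : ∃ X : End K V, X = f.smulRight u := ⟨_, rfl⟩
  have hXX : X * X = 0 := by
    rw [hX]
    refine LinearMap.ext fun v => ?_
    simp only [Module.End.mul_apply, LinearMap.smulRight_apply, map_smul, h, smul_zero,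
      LinearMap.zero_apply, zero_smul]
  rw [← hX]
  have h5 : ∀ n : ℕ, (1 + X) ^ n = 1 + (n : K) • X := by
    intro n
    induction n with
    | zero => simp
    | succ n ih =>
      rw [pow_succ, ih, add_mul, mul_add, mul_add, one_mul, one_mul, mul_one,
        smul_mul_assoc, hXX, smul_zero, add_zero, Nat.cast_succ, add_smul, one_smul]
      abel
  rw [h5, CharP.cast_eq_zero, zero_smul, add_zero]

theorem Rel.conj_any {r : K} {b : ProjectiveSpecialLinearGroup ι K} {π : End K (ι → K)}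
    (h : Rel r b π) (g : SpecialLinearGroup ι K) :
    Rel r (QuotientGroup.mk g * b * (QuotientGroup.mk g)⁻¹) (lm g * π * lm g⁻¹) := by
  obtain ⟨B, rfl, hB⟩ := h
  refine ⟨g * B * g⁻¹, rfl, ?_⟩
  rw [lm_mul, lm_mul, hB]
  have h1 : iv (lm g * π * lm g⁻¹) = lm g * iv π * lm g⁻¹ := by
    conv_lhs => rw [iv, ← lm_mul_inv g]
    unfold iv
    simp only [mul_sub, sub_mul, mul_add, add_mul, mul_one]
  rw [h1, mul_smul_comm, smul_mul_assoc]

theorem Rel.sim_of_eq {r : K} (hr : r ≠ 0) (h2 : (2 : K) ≠ 0)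
    {b : ProjectiveSpecialLinearGroup ι K} {π π' : End K (ι → K)} (hπ : π * π = π)
    (hπ' : π' * π' = π') (h : Rel r b π) (h' : Rel r b π') : sim π π' := by
  obtain ⟨B, hb, hB⟩ := h
  obtain ⟨B', rfl, hB'⟩ := h'
  obtain ⟨s, hs⟩ := (mk_eq_iff' _ _).1 hb
  rw [hB, hB', smul_smul] at hs
  have h1 : iv π' = (r⁻¹ * (s * r)) • iv π := by
    rw [mul_smul, ← hs, smul_smul, inv_mul_cancel₀ hr, one_smul]
  exact sim_of_smul h2 hπ hπ' h1

theorem Rel.pow_iff {r : K} (hr : r ≠ 0) {b b' : ProjectiveSpecialLinearGroup ι K}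
    {π π' : End K (ι → K)} (hπ : π * π = π) (hπ' : π' * π' = π') (h : Rel r b π)
    (h' : Rel r b' π') (m : ℕ) : (b * b') ^ m = 1 ↔ cr π π' m := by
  obtain ⟨B, rfl, hB⟩ := h
  obtain ⟨B', rfl, hB'⟩ := h'
  have h1 : ((QuotientGroup.mk B : ProjectiveSpecialLinearGroup ι K) * QuotientGroup.mk B') ^ m =
      QuotientGroup.mk ((B * B') ^ m) := rfl
  have h3 : (QuotientGroup.mk (1 : SpecialLinearGroup ι K) :
      ProjectiveSpecialLinearGroup ι K) = 1 := rfl
  rw [h1, ← h3, eq_comm, mk_eq_iff', lm_pow, lm_mul, hB, hB', smul_mul_smul_comm, smul_pow, lm_one]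
  obtain ⟨Z, hZ⟩ : ∃ Z, Z = (iv π * iv π') ^ m := ⟨_, rfl⟩
  have hrr : (r * r) ^ m ≠ 0 := pow_ne_zero _ (mul_ne_zero hr hr)
  unfold cr
  rw [← hZ]
  constructor
  · rintro ⟨s, hs⟩
    have h4 : Z = (((r * r) ^ m)⁻¹ * s) • (1 : End K (ι → K)) := by
      rw [mul_smul, ← hs, smul_smul, inv_mul_cancel₀ hrr, one_smul]
    obtain ⟨t, ht⟩ : ∃ t, t = ((r * r) ^ m)⁻¹ * s := ⟨_, rfl⟩
    rw [← ht] at h4
    have h5 : Z * (iv π * Z * iv π) = 1 := by
      have h6 : iv π * Z * iv π = (iv π' * iv π) ^ m := by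
        have h7 : ∀ n : ℕ, iv π * (iv π * iv π') ^ n * iv π = (iv π' * iv π) ^ n := by
          intro n
          induction n with
          | zero => rw [pow_zero, pow_zero, mul_one, iv_sq hπ]
          | succ n ih =>
            calc iv π * (iv π * iv π') ^ (n + 1) * iv π
                = (iv π * (iv π * iv π') ^ n * iv π) * (iv π' * iv π) := by
                  rw [pow_succ]
                  simp only [mul_assoc]
              _ = (iv π' * iv π) ^ (n + 1) := by rw [ih, pow_succ]
        rw [hZ, h7]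
      have h7 : ∀ n : ℕ, (iv π * iv π') ^ n * (iv π' * iv π) ^ n = 1 := by
        intro n
        induction n with
        | zero => rw [pow_zero, pow_zero, mul_one]
        | succ n ih =>
          calc (iv π * iv π') ^ (n + 1) * (iv π' * iv π) ^ (n + 1)
              = (iv π * iv π') ^ n * (iv π * (iv π' * iv π') * iv π) *
                (iv π' * iv π) ^ n := by
                rw [pow_succ, pow_succ']
                simp only [mul_assoc]
            _ = 1 := by rw [iv_sq hπ', mul_one, iv_sq hπ, mul_one, ih]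
      rw [h6, hZ, h7]
    rw [h4] at h5 ⊢
    have h8 : iv π * (t • (1 : End K (ι → K))) * iv π = t • 1 := by
      rw [mul_smul_comm, mul_one, smul_mul_assoc, iv_sq hπ]
    rw [h8, smul_mul_smul_comm, mul_one] at h5
    exact scal_pm h5
  · rintro (h4 | h4)
    · exact ⟨(r * r) ^ m, by rw [h4]⟩
    · refine ⟨-(r * r) ^ m, ?_⟩
      rw [h4, smul_neg]
      exact (neg_smul _ _).symm

theorem Rel.conj {r : K} (hr : r ≠ 0) {b b' : ProjectiveSpecialLinearGroup ι K}
    {π π' : End K (ι → K)} (hπ : π * π = π) (h : Rel r b π) (h' : Rel r b' π') :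
    Rel r (b * b' * b⁻¹) (cj π π') := by
  obtain ⟨B, rfl, hB⟩ := h
  have h1 := h'.conj_any B
  have h3 : lm B⁻¹ = r⁻¹ • iv π := by
    have h4 : lm B * (r⁻¹ • iv π) = 1 := by
      rw [hB, smul_mul_smul_comm, mul_inv_cancel₀ hr, one_smul, iv_sq hπ]
    calc lm B⁻¹ = lm B⁻¹ * (lm B * (r⁻¹ • iv π)) := by rw [h4, mul_one]
      _ = r⁻¹ • iv π := by rw [← mul_assoc, lm_inv_mul, one_mul]
  rw [h3, hB] at h1
  have h4 : r • iv π * π' * (r⁻¹ • iv π) = cj π π' := by
    rw [smul_mul_assoc, smul_mul_smul_comm, mul_inv_cancel₀ hr, one_smul]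
    rfl
  rw [h4] at h1
  exact h1

/-- An idempotent is determined by its values up to `sim`; the members of a class. -/
theorem exists_rel {k : ℕ} {r : K} {π₀ : End K (ι → K)} {a : ProjectiveSpecialLinearGroup ι K}
    (ha : Rel r a π₀) (h0 : Pj k π₀) (b : ProjectiveSpecialLinearGroup ι K) (hb : IsConj a b) :
    ∃ π, Pj k π ∧ Rel r b π := by
  obtain ⟨g, hg⟩ := isConj_iff.1 hb
  obtain ⟨B, rfl⟩ := QuotientGroup.mk_surjective g
  refine ⟨lm B * π₀ * lm B⁻¹, ⟨?_, ?_⟩, ?_⟩
  · calc lm B * π₀ * lm B⁻¹ * (lm B * π₀ * lm B⁻¹)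
        = lm B * π₀ * (lm B⁻¹ * lm B) * π₀ * lm B⁻¹ := by simp only [mul_assoc]
      _ = lm B * (π₀ * π₀) * lm B⁻¹ := by rw [lm_inv_mul, mul_one]; simp only [mul_assoc]
      _ = lm B * π₀ * lm B⁻¹ := by rw [h0.1]
  · rw [rk_conj (lm_mul_inv B) (lm_inv_mul B)]
    exact h0.2
  · rw [← hg]
    exact ha.conj_any B

theorem exists_mem {k : ℕ} (hk : 1 ≤ k) {r : K} {π₀ : End K (ι → K)}
    {a : ProjectiveSpecialLinearGroup ι K} (ha : Rel r a π₀) (h0 : Pj k π₀) {π : End K (ι → K)}
    (hπ : Pj k π) : ∃ b, IsConj a b ∧ Rel r b π := by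
  obtain ⟨B, hB⟩ := transitive hk h0 hπ
  refine ⟨_, isConj_iff.2 ⟨QuotientGroup.mk B, rfl⟩, ?_⟩
  rw [← hB]
  exact ha.conj_any B

/-- Elements which commute with the transvections are trivial. -/
theorem center_trivial (p : ℕ) [Fact p.Prime] [CharP K p]
    (g : ProjectiveSpecialLinearGroup ι K)
    (hg : ∀ u w h, g * (QuotientGroup.mk (Helper2.RO.tv (K := K) (ι := ι) u w h)) =
      (QuotientGroup.mk (Helper2.RO.tv u w h)) * g) : g = 1 := by
  obtain ⟨A, rfl⟩ := QuotientGroup.mk_surjective g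
  have h1 : ∀ u w h, Helper2.RO.tv (K := K) (ι := ι) u w h * A = A * Helper2.RO.tv u w h := by
    intro u w h
    obtain ⟨s, hs⟩ := (mk_eq_iff' (A * Helper2.RO.tv u w h) (Helper2.RO.tv u w h * A)).1 (hg u w h)
    apply lm_injective
    rw [lm_mul, lm_mul] at hs ⊢
    refine eq_of_conj p (lm_mul_inv A) (lm_inv_mul A) ?_ hs
    rw [lm_tv]
    exact tv_pow p h
  refine (QuotientGroup.eq_one_iff A).2 (Subgroup.mem_center_iff.2 fun B => ?_)
  have hB := Helper2.RO.tv_generate B
  induction hB using Subgroup.closure_induction with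
  | mem x hx =>
    obtain ⟨u, k, h, rfl⟩ := hx
    exact h1 u k h
  | one => rw [one_mul, mul_one]
  | mul x y _ _ hx hy => rw [mul_assoc, hy, ← mul_assoc, hx, mul_assoc]
  | inv x _ hx => rw [inv_mul_eq_iff_eq_mul, ← mul_assoc, hx, mul_inv_cancel_right]

/-- The class generates the group. -/
theorem class_generates (h2 : (2 : K) ≠ 0) {k : ℕ} (hk : 1 ≤ k) (hk' : k < finrank K (ι → K))
    {r : K} {π₀ : End K (ι → K)} {a : ProjectiveSpecialLinearGroup ι K} (ha : Rel r a π₀)
    (h0 : Pj k π₀) : Subgroup.closure {b | IsConj a b} = ⊤ := by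
  rw [eq_top_iff]
  rintro g -
  obtain ⟨B, rfl⟩ := QuotientGroup.mk_surjective g
  have hB := Helper2.RO.tv_generate B
  induction hB using Subgroup.closure_induction with
  | mem x hx =>
    obtain ⟨u, w, h, rfl⟩ := hx
    by_cases hu : u = 0
    · have h1 : Helper2.RO.tv u w h = 1 := by
        apply lm_injective
        rw [lm_tv, lm_one, hu]
        refine LinearMap.ext fun v => ?_
        simp only [LinearMap.add_apply, LinearMap.smulRight_apply, smul_zero, add_zero]
      rw [h1]
      exact Subgroup.one_mem _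
    by_cases hw : fu w = 0
    · have h1 : Helper2.RO.tv u w h = 1 := by
        apply lm_injective
        rw [lm_tv, lm_one, hw]
        refine LinearMap.ext fun v => ?_
        simp only [LinearMap.add_apply, LinearMap.smulRight_apply, LinearMap.zero_apply, zero_smul,
          add_zero]
      rw [h1]
      exact Subgroup.one_mem _
    obtain ⟨π, π', hπ, hπ', hp⟩ := tv_prod h2 hk hk' h hu hw
    obtain ⟨b, hb, B, hB1, hB2⟩ := exists_mem hk ha h0 hπ
    obtain ⟨b', hb', B', hB1', hB2'⟩ := exists_mem hk ha h0 hπ'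
    have h1 : (QuotientGroup.mk (Helper2.RO.tv u w h) : ProjectiveSpecialLinearGroup ι K) =
        b * b' := by
      rw [← hB1, ← hB1']
      refine (mk_eq_iff' _ (B * B')).2 ⟨r * r, ?_⟩
      rw [lm_mul, hB2, hB2', smul_mul_smul_comm, hp]
    rw [h1]
    exact Subgroup.mul_mem _ (Subgroup.subset_closure hb) (Subgroup.subset_closure hb')
  | one => exact Subgroup.one_mem _
  | mul x y _ _ hx hy => exact Subgroup.mul_mem _ hx hy
  | inv x _ hx => exact Subgroup.inv_mem _ hx

end Pool.Agent.Helper92.LQ
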