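import Pool.Agent.Helper92.LQ.GrB

/-!
# Project LQ: the theorem for the split classes of `PSL(n, q)`, `q` odd

`core`: the class of `r • iv π`, `π` of rank `k`, `2 ≤ k`, `2 * k < n` or `3 ≤ k`, `2 * k = n`.
`split_class`: every involution with a lift `A`, `A * A = r * r`, `n ≠ 4`. `odd_class`: every involution, `n` odd.
-/

set_option autoImplicit false

open Module Matrix

namespace Pool.Agent.Helper92.LQ

variable {K : Type*} [Field K] {ι : Type*} [Fintype ι] [DecidableEq ι]

theorem core [Finite K] (h2 : (2 : K) ≠ 0) {k : ℕ}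
    (hk : (2 ≤ k ∧ 2 * k < finrank K (ι → K)) ∨ (3 ≤ k ∧ 2 * k = finrank K (ι → K)))
    {r : K} (hr : r ≠ 0) {π₀ : End K (ι → K)} {a : ProjectiveSpecialLinearGroup ι K}
    (ha : Rel r a π₀) (h0 : Pj k π₀)
    (τ : Equiv.Perm {b : ProjectiveSpecialLinearGroup ι K // IsConj a b})
    (hτ : ∀ x y, x ≠ y → orderOf ((τ x : ProjectiveSpecialLinearGroup ι K) * τ y) =
      orderOf ((x : ProjectiveSpecialLinearGroup ι K) * y)) :
    ∃ φ : MulAut (ProjectiveSpecialLinearGroup ι K),
      φ '' {b | IsConj a b} = {b | IsConj a b} ∧ ∀ x, φ x.1 = (τ x).1 := by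
  classical
  have hk1 : 1 ≤ k := by omega
  have hkn : k < finrank K (ι → K) := by omega
  have hsq : ∀ x : {b : ProjectiveSpecialLinearGroup ι K // IsConj a b}, x.1 * x.1 = 1 := by
    intro x
    obtain ⟨π, hπ, hx⟩ := exists_rel ha h0 x.1 x.2
    have h1 := (hx.pow_iff hr hπ.1 hπ.1 hx 1).2 (Or.inl (by rw [pow_one, iv_sq hπ.1]))
    rwa [pow_one] at h1
  have hord : ∀ x y : {b : ProjectiveSpecialLinearGroup ι K // IsConj a b}, ∀ m : ℕ,
      ((τ x).1 * (τ y).1) ^ m = 1 ↔ (x.1 * y.1) ^ m = 1 := by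
    intro x y m
    by_cases hxy : x = y
    · subst hxy
      rw [hsq, hsq]
    · rw [← orderOf_dvd_iff_pow_eq_one, ← orderOf_dvd_iff_pow_eq_one, hτ x y hxy]
  have hex : ∀ π : End K (ι → K), ∃ π' : End K (ι → K), Pj k π → (Pj k π' ∧
      ∀ x : {b : ProjectiveSpecialLinearGroup ι K // IsConj a b}, Rel r x.1 π →
        Rel r (τ x).1 π') := by
    intro π
    by_cases hπ : Pj k π
    · obtain ⟨b, hb, hb'⟩ := exists_mem hk1 ha h0 hπ
      obtain ⟨π', hπ', h1⟩ := exists_rel ha h0 (τ ⟨b, hb⟩).1 (τ ⟨b, hb⟩).2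
      refine ⟨π', fun _ => ⟨hπ', fun x hx => ?_⟩⟩
      have h3 : x = ⟨b, hb⟩ := Subtype.ext (hx.of_sim hb' (sim_refl π))
      rw [h3]
      exact h1
    · exact ⟨0, fun h => absurd h hπ⟩
  choose T hT using hex
  have hCB : CB k T := by
    refine ⟨fun c hc => (hT c hc).1, fun c d m hc hd => ?_⟩
    obtain ⟨x, hx, hx'⟩ := exists_mem hk1 ha h0 hc
    obtain ⟨y, hy, hy'⟩ := exists_mem hk1 ha h0 hd
    have h1 := (hT c hc).2 ⟨x, hx⟩ hx'
    have h3 := (hT d hd).2 ⟨y, hy⟩ hy'
    rw [← h1.pow_iff hr (hT c hc).1.1 (hT d hd).1.1 h3 m, ← hx'.pow_iff hr hc.1 hd.1 hy' m]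
    exact hord ⟨x, hx⟩ ⟨y, hy⟩ m
  obtain ⟨p, hp⟩ := CharP.exists K
  have hpp : Fact p.Prime := by
    rcases CharP.char_is_prime_or_zero K p with h | rfl
    · exact ⟨h⟩
    · exfalso
      have : CharZero K := CharP.charP_to_charZero K
      exact not_finite K
  have hgen := class_generates h2 hk1 hkn ha h0
  obtain ⟨φ, hφ⟩ := Helper2.RO.extend
    (fun x : {b : ProjectiveSpecialLinearGroup ι K // IsConj a b} => x.1)
    Subtype.val_injective
    (fun g x => ⟨⟨g * x.1 * g⁻¹, x.2.trans (isConj_iff.2 ⟨g, rfl⟩)⟩, rfl⟩)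
    (by
      have h : Set.range (fun x : {b : ProjectiveSpecialLinearGroup ι K // IsConj a b} => x.1) =
        {b | IsConj a b} := Subtype.range_coe
      rw [h]
      exact hgen)
    (fun g hg => by
      have h1 : ∀ b ∈ Subgroup.closure {b | IsConj a b}, g * b = b * g := by
        intro b hb
        induction hb using Subgroup.closure_induction with
        | mem x hx =>
          have h3 := hg ⟨x, hx⟩
          rw [mul_inv_eq_iff_eq_mul] at h3
          exact h3
        | one => rw [one_mul, mul_one]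
        | mul x y _ _ hx hy => rw [← mul_assoc, hx, mul_assoc, hy, mul_assoc]
        | inv x _ hx => rw [eq_inv_mul_iff_mul_eq, ← mul_assoc, ← hx, mul_inv_cancel_right]
      rw [hgen] at h1
      exact center_trivial p g fun u w h => h1 _ (Subgroup.mem_top _))
    τ (by
      intro x y z hz
      obtain ⟨c, hc, hx⟩ := exists_rel ha h0 x.1 x.2
      obtain ⟨d, hd, hy⟩ := exists_rel ha h0 y.1 y.2
      have h1 : Rel r z.1 (cj c d) := by
        rw [← hz]
        exact hx.conj hr hc.1 hy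
      have h3 := (hT c hc).2 x hx
      have h4 := (hT d hd).2 y hy
      have h5 := (hT _ (hd.cj hc.1)).2 z h1
      exact (h3.conj hr (hT c hc).1.1 h4).of_sim h5 (respects h2 hk hCB hc hd))
  refine ⟨φ, ?_, hφ⟩
  ext b
  constructor
  · rintro ⟨x, hx, rfl⟩
    rw [hφ ⟨x, hx⟩]
    exact (τ ⟨x, hx⟩).2
  · intro hb
    refine ⟨(τ.symm ⟨b, hb⟩).1, (τ.symm ⟨b, hb⟩).2, ?_⟩
    rw [hφ, Equiv.apply_symm_apply]

/-- An endomorphism of rank one which is idempotent. -/
theorem rank_one_form {V : Type*} [AddCommGroup V] [Module K V] [FiniteDimensional K V]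
    {π : End K V} (h : Pj 1 π) : ∃ (t : Dual K V) (s : V), t s = 1 ∧ π = t.smulRight s := by
  have h0 : π ≠ 0 := by
    rintro rfl
    have h1 := h.2
    rw [rk, LinearMap.range_zero, finrank_bot] at h1
    omega
  obtain ⟨s, t, hs, ht, hts⟩ := dual1 h.1 h0
  refine ⟨t, s, hts, ?_⟩
  have h1 : LinearMap.range (t.smulRight s : End K V) ≤ LinearMap.range π := by
    rintro _ ⟨v, rfl⟩
    rw [LinearMap.smulRight_apply]
    exact ⟨t v • s, by rw [map_smul, hs]⟩
  have ht0 : t ≠ 0 := by
    rintro rfl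
    exact zero_ne_one hts
  have hs0 : s ≠ 0 := by
    rintro rfl
    rw [map_zero] at hts
    exact zero_ne_one hts
  have h3 : LinearMap.range (t.smulRight s : End K V) = LinearMap.range π := by
    apply Submodule.eq_of_le_of_finrank_eq h1
    have h4 := h.2
    have h5 := rk_smulRight (K := K) ht0 hs0
    unfold rk at h4 h5
    rw [h4, h5]
  refine LinearMap.ext fun v => ?_
  obtain ⟨w, hw⟩ : π v ∈ LinearMap.range (t.smulRight s : End K V) := by
    rw [h3]
    exact ⟨v, rfl⟩
  rw [LinearMap.smulRight_apply] at hw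
  have h4 : t (π v) = t w := by rw [← hw, map_smul, hts, smul_eq_mul, mul_one]
  rw [LinearMap.smulRight_apply, ← ht v, h4, hw]

/-- The split classes. -/
theorem split_class [Finite K] (h2 : (2 : K) ≠ 0) (hn : 3 ≤ Fintype.card ι)
    (A : SpecialLinearGroup ι K) (r : K)
    (hA : (A : Matrix ι ι K) * (A : Matrix ι ι K) = (r * r) • (1 : Matrix ι ι K))
    (h4 : Fintype.card ι ≠ 4) (a : ProjectiveSpecialLinearGroup ι K)
    (ha : QuotientGroup.mk A = a) (ha2 : orderOf a = 2)
    (τ : Equiv.Perm {b : ProjectiveSpecialLinearGroup ι K // IsConj a b})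
    (hτ : ∀ x y, x ≠ y → orderOf ((τ x : ProjectiveSpecialLinearGroup ι K) * τ y) =
      orderOf ((x : ProjectiveSpecialLinearGroup ι K) * y)) :
    ∃ φ : MulAut (ProjectiveSpecialLinearGroup ι K),
      φ '' {b | IsConj a b} = {b | IsConj a b} ∧ ∀ x, φ x.1 = (τ x).1 := by
  have hfr : finrank K (ι → K) = Fintype.card ι := Module.finrank_fintype_fun_eq_card K
  have hne : Nonempty ι := Fintype.card_pos_iff.1 (by omega)
  have hA' : lm A * lm A = (r * r) • (1 : End K (ι → K)) := by
    rw [← lm_mul]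
    show Matrix.toLin' ((A : Matrix ι ι K) * (A : Matrix ι ι K)) = _
    rw [hA, map_smul, Matrix.toLin'_one]
    rfl
  have hr : r ≠ 0 := by
    rintro rfl
    have h1 : lm A * lm A * (lm A⁻¹ * lm A⁻¹) = 1 := by
      rw [mul_assoc, ← mul_assoc (lm A) (lm A⁻¹) (lm A⁻¹), lm_mul_inv, one_mul, lm_mul_inv]
    rw [hA', mul_zero, zero_smul, zero_mul] at h1
    exact zero_ne_one h1
  -- an idempotent of rank at most `n / 2`
  have key : ∀ r' : K, (r' = r ∨ r' = -r) → ∃ π : End K (ι → K), π * π = π ∧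
      lm A = r' • iv π ∧ π = (2 : K)⁻¹ • (1 - r'⁻¹ • lm A) := by
    intro r' hr'
    have hr0 : r' ≠ 0 := by
      rcases hr' with rfl | rfl
      · exact hr
      · exact neg_ne_zero.2 hr
    have hrr : r' * r' = r * r := by
      rcases hr' with rfl | rfl
      · rfl
      · ring
    obtain ⟨Z, hZ⟩ : ∃ Z : End K (ι → K), Z = r'⁻¹ • lm A := ⟨_, rfl⟩
    have hZZ : Z * Z = 1 := by
      rw [hZ, smul_mul_smul_comm, hA', smul_smul, ← hrr, ← mul_inv,
        inv_mul_cancel₀ (mul_ne_zero hr0 hr0), one_smul]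
    obtain ⟨π, hπ⟩ : ∃ π : End K (ι → K), π = (2 : K)⁻¹ • (1 - Z) := ⟨_, rfl⟩
    have hππ : π + π = 1 - Z := by
      rw [hπ, ← add_smul, ← two_mul, mul_inv_cancel₀ h2, one_smul]
    have hiv : iv π = Z := by
      unfold iv
      rw [hππ, sub_sub_cancel]
    refine ⟨π, ?_, ?_, ?_⟩
    · have h5 : (1 - Z) * (1 - Z) = (2 : K) • (1 - Z) := by
        simp only [mul_sub, sub_mul, mul_one, one_mul, hZZ, two_smul]
        abel
      rw [hπ, smul_mul_smul_comm, h5, smul_smul]
      congr 1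
      rw [mul_assoc, inv_mul_cancel₀ h2, mul_one]
    · rw [hiv, hZ, smul_smul, mul_inv_cancel₀ hr0, one_smul]
    · rw [hπ, hZ]
  obtain ⟨r', hr', π, hπ, hAπ, hle⟩ : ∃ r' : K, r' ≠ 0 ∧ ∃ π : End K (ι → K), π * π = π ∧
      lm A = r' • iv π ∧ 2 * rk π ≤ Fintype.card ι := by
    obtain ⟨π, h1, h3, -⟩ := key r (Or.inl rfl)
    by_cases h5 : 2 * rk π ≤ Fintype.card ι
    · exact ⟨r, hr, π, h1, h3, h5⟩
    · refine ⟨-r, neg_ne_zero.2 hr, 1 - π, one_sub_idem h1, ?_, ?_⟩
      · rw [iv_one_sub, h3]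
        exact (neg_smul_neg r (iv π)).symm
      · have h6 := rk_one_sub h1
        omega
  have hRel : Rel r' a π := ⟨A, ha, hAπ⟩
  rcases Nat.lt_or_ge (rk π) 2 with h5 | h5
  · rcases Nat.lt_or_ge (rk π) 1 with h6 | h6
    · -- rank zero: `a = 1`
      exfalso
      have h7 : π = 0 := by
        have h8 : finrank K (LinearMap.range π) = 0 := by
          unfold rk at h6
          omega
        rw [Submodule.finrank_eq_zero, LinearMap.range_eq_bot] at h8
        exact h8
      have h8 : a = 1 := by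
        rw [← ha]
        have h9 : (QuotientGroup.mk (1 : SpecialLinearGroup ι K) :
            ProjectiveSpecialLinearGroup ι K) = QuotientGroup.mk A := by
          rw [mk_eq_iff']
          refine ⟨r', ?_⟩
          rw [hAπ, h7, lm_one]
          unfold iv
          rw [add_zero, sub_zero]
        rw [← h9]
        rfl
      rw [h8, orderOf_one] at ha2
      omega
    · have h7 : Pj 1 π := ⟨hπ, by omega⟩
      obtain ⟨t, s, hts, hπt⟩ := rank_one_form h7
      have hs0 : s ≠ 0 := by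
        rintro rfl
        rw [map_zero] at hts
        exact zero_ne_one hts
      obtain ⟨g, hg⟩ : ∃ g : ι → K, ∀ v, t v = g ⬝ᵥ v := by
        refine ⟨fun i => t (Pi.single i 1), fun v => ?_⟩
        conv_lhs => rw [← Finset.univ_sum_single v]
        rw [map_sum, dotProduct]
        refine Finset.sum_congr rfl fun i _ => ?_
        have h8 : (Pi.single i (v i) : ι → K) = v i • Pi.single i 1 := by
          rw [← Pi.single_smul, smul_eq_mul, mul_one]
        rw [h8, map_smul, smul_eq_mul, mul_comm]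
      have hg0 : g ≠ 0 := by
        rintro rfl
        rw [hg, zero_dotProduct] at hts
        exact zero_ne_one hts
      have hw0 : (-(2 * r')) • s ≠ 0 :=
        smul_ne_zero (neg_ne_zero.2 (mul_ne_zero h2 hr')) hs0
      have hAm : (A : Matrix ι ι K) = r' • (1 : Matrix ι ι K) + vecMulVec ((-(2 * r')) • s) g := by
        apply Matrix.toLin'.injective
        refine LinearMap.ext fun v => ?_
        have h8 : Matrix.toLin' (A : Matrix ι ι K) v = r' • (iv π v) :=
          congrArg (fun f : End K (ι → K) => f v) hAπ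
        rw [h8, hπt]
        show r' • (v - (t v • s + t v • s)) =
          (r' • (1 : Matrix ι ι K) + vecMulVec ((-(2 * r')) • s) g) *ᵥ v
        rw [add_mulVec, smul_mulVec, one_mulVec, vecMulVec_mulVec, hg]
        ext i
        simp
        ring
      have hA2 : (A : Matrix ι ι K) * (A : Matrix ι ι K) = (r' * r') • (1 : Matrix ι ι K) := by
        apply Matrix.toLin'.injective
        rw [Matrix.toLin'_mul, map_smul, Matrix.toLin'_one]
        have h8 : lm A * lm A = (r' * r') • (1 : End K (ι → K)) := by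
          rw [hAπ, smul_mul_smul_comm, iv_sq hπ]
        exact h8
      exact (Helper2.RO.rank_one_class hn A hw0 hg0 hAm hA2 a ha).2 τ hτ
  · refine core h2 (k := rk π) ?_ hr' hRel ⟨hπ, rfl⟩ τ hτ
    rw [hfr]
    omega

/-- All classes for `n` odd. -/
theorem odd_class [Finite K] (h2 : (2 : K) ≠ 0) (hn : 3 ≤ Fintype.card ι)
    (hodd : Odd (Fintype.card ι)) (a : ProjectiveSpecialLinearGroup ι K) (ha2 : orderOf a = 2)
    (τ : Equiv.Perm {b : ProjectiveSpecialLinearGroup ι K // IsConj a b})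
    (hτ : ∀ x y, x ≠ y → orderOf ((τ x : ProjectiveSpecialLinearGroup ι K) * τ y) =
      orderOf ((x : ProjectiveSpecialLinearGroup ι K) * y)) :
    ∃ φ : MulAut (ProjectiveSpecialLinearGroup ι K),
      φ '' {b | IsConj a b} = {b | IsConj a b} ∧ ∀ x, φ x.1 = (τ x).1 := by
  obtain ⟨A, ha⟩ := QuotientGroup.mk_surjective a
  have h1 : (QuotientGroup.mk (1 : SpecialLinearGroup ι K) :
      ProjectiveSpecialLinearGroup ι K) = QuotientGroup.mk (A * A) := by
    have h3 : a * a = 1 := by rw [← pow_two, ← ha2, pow_orderOf_eq_one]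
    rw [← ha] at h3
    exact h3.symm
  obtain ⟨z, hz⟩ := (Helper2.RO.mk_eq_iff _ _).1 h1
  change (A : Matrix ι ι K) * (A : Matrix ι ι K) = z • (1 : Matrix ι ι K) at hz
  have hdet : z ^ Fintype.card ι = 1 := by
    have h3 := congrArg Matrix.det hz
    rw [det_mul, A.2, one_mul, det_smul, det_one, mul_one] at h3
    exact h3.symm
  obtain ⟨m, hm⟩ := hodd
  refine split_class h2 hn A (z ^ (m + 1)) ?_ (by omega) a ha ha2 τ hτ
  rw [hz]
  congr 1
  calc z = z ^ Fintype.card ι * z := by rw [hdet, one_mul]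
    _ = z ^ (m + 1) * z ^ (m + 1) := by
      rw [hm]
      ring

end Pool.Agent.Helper92.LQ
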