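import Pool.Agent.Helper92.LQ.Sca

/-!
# Project LQ, block L1A: elements related to everything that commutes with a block

`comm_of_odd`. `X = iv x`, `C = iv c`, `C' = iv c'`. `(C X)^2 = 1` or `-1` gives `X C X = C` or `-C`; in the same way for
`C'`. So `X (C C') X = e (C C')` with `e = 1` or `e = -1`; the `p`-th power (`p` odd) gives `1 = e^p = e` (if `1 = -1` in
`End K V` there is nothing to prove).

`stab`. Let `Q = 1 - p0 - em E F 1`, an idempotent orthogonal to `p0` and to all `em E F M`, of rank
`finrank K V - k - 1 ≥ 2` (ranks of orthogonal idempotents add, `rk (em E F 1) = 2`: it is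
`em E F E0 + em E F (1 - E0)`, both of rank one).
(a) For `t` with `t ∘ Q = t`, `Q s = s`, `t s = 1` put `R = t.smulRight s`. Then `c = p0 + R` is in `Pj k` and commutes with
`p0` and all `em E F M`. For `z` with `Q z = z`, `t z = 0` put `R' = t.smulRight (s + z)`, `c' = p0 + R'`. As `R R' = R`,
`iv c * iv c' = 1 - 2R - 2R' + 4R = 1 - 2 • t.smulRight z`, whose `p`-th power is one (its difference to
`1` has square zero; characteristic `p`). By `comm_of_odd` `iv x`, so `x`, commutes with `t.smulRight z`. So (given `z, t`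
with `t z = 0`, `t ≠ 0`: choose `s`; `t = 0` is trivial) `scal` gives `x Q = ν Q = Q x`.
(b) If `k - 1 ≥ 2`: let `R2` be an idempotent of rank two with `Q R2 = R2 = R2 Q` (`dual2`), and `t, s, z` in `p0` (`t ∘ p0 = t`,
`p0 s = s`, `p0 z = z`, `t s = 1`, `t z = 0`), `c = p0 - t.smulRight s + R2`, `c' = p0 - t.smulRight (s + z) + R2`: members of
`Pj k` which commute with `p0` and all `em E F M`; `iv c * iv c' = 1 - 2 • t.smulRight z` again (`iv c` is the product of the
commuting involutions `iv p0`, `iv (t.smulRight s)`, `iv R2`). So `scal` gives `x p0 = μ p0 = p0 x`.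
If `k = 2` then `2 * k < finrank K V`, so `x` and every `c` of `Pj k` have a common kernel vector `v ≠ 0`, and `(iv c * iv x)^2`
fixes `v`: it is not `-1`, so it is `1` and `x` commutes with `c = p0 + R` of (a), and with `R` by (a), so with `p0`, of
rank one: `scal1`.
(c) `x` commutes with `em E F 1 = 1 - p0 - Q` so `x * em E F 1 = em E F M` with `M` the matrix of `F ∘ x ∘ E`, and
`x = x p0 + x Q + x (em E F 1)`. As `x` is idempotent, `μ μ = μ`, `ν ν = ν` (`p0, Q ≠ 0`), `M M = M`.
-/

set_option autoImplicit false

open Module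

namespace Pool.Agent.Helper92.LQ

variable {K V : Type*} [Field K] [AddCommGroup V] [Module K V] [FiniteDimensional K V]

omit [FiniteDimensional K V] in
private theorem conj_pow65 {X W : End K V} (hX : X * X = 1) (m : ℕ) :
    (X * W * X) ^ m = X * W ^ m * X := by
  induction m with
  | zero => rw [pow_zero, pow_zero, mul_one, hX]
  | succ m ih =>
    rw [pow_succ, ih, pow_succ]
    calc X * W ^ m * X * (X * W * X) = X * W ^ m * (X * X) * W * X := by simp only [mul_assoc]
      _ = X * (W ^ m * W) * X := by rw [hX, mul_one]; simp only [mul_assoc]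

omit [FiniteDimensional K V] in
private theorem half65 {X C : End K V} (hC : C * C = 1)
    (h : (C * X) ^ 2 = 1 ∨ (C * X) ^ 2 = -1) : X * C * X = C ∨ X * C * X = -C := by
  rw [pow_two] at h
  have h1 : X * C * X = C * (C * X * (C * X)) := by
    calc X * C * X = (C * C) * X * C * X := by rw [hC, one_mul]
      _ = _ := by simp only [mul_assoc]
  rcases h with h | h
  · left; rw [h1, h, mul_one]
  · right; rw [h1, h, mul_neg, mul_one]

omit [FiniteDimensional K V] in
theorem comm_of_odd (h2 : (2 : K) ≠ 0) {p : ℕ} (hp : Odd p) {x c c' : End K V}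
    (hx : x * x = x) (hc : c * c = c) (hc' : c' * c' = c') (h : cr c x 2) (h' : cr c' x 2)
    (ho : (iv c * iv c') ^ p = 1) : iv x * (iv c * iv c') = iv c * iv c' * iv x := by
  have hX := iv_sq hx
  have h1 := half65 (iv_sq hc) h
  have h3 := half65 (iv_sq hc') h'
  have h4 : iv x * (iv c * iv c') * iv x = (iv x * iv c * iv x) * (iv x * iv c' * iv x) := by
    calc iv x * (iv c * iv c') * iv x = iv x * iv c * 1 * iv c' * iv x := by
          rw [mul_one]; simp only [mul_assoc]
      _ = _ := by rw [← hX]; simp only [mul_assoc]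
  have h5 : iv x * (iv c * iv c') * iv x = iv c * iv c' ∨
      iv x * (iv c * iv c') * iv x = -(iv c * iv c') := by
    rw [h4]
    rcases h1 with h1 | h1 <;> rcases h3 with h3 | h3 <;> rw [h1, h3]
    · left; rfl
    · right; rw [mul_neg]
    · right; rw [neg_mul]
    · left; rw [neg_mul_neg]
  have h6 : iv x * (iv c * iv c') * iv x = iv c * iv c' := by
    rcases h5 with h5 | h5
    · exact h5
    · have h7 := conj_pow65 hX (W := iv c * iv c') p
      rw [h5, ho, mul_one, hX, Odd.neg_pow hp, ho] at h7
      rw [h5]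
      calc -(iv c * iv c') = (-1) * (iv c * iv c') := by rw [neg_one_mul]
        _ = iv c * iv c' := by rw [h7, one_mul]
  calc iv x * (iv c * iv c') = iv x * (iv c * iv c') * (iv x * iv x) := by rw [hX, mul_one]
    _ = (iv x * (iv c * iv c') * iv x) * iv x := by simp only [mul_assoc]
    _ = iv c * iv c' * iv x := by rw [h6]

omit [FiniteDimensional K V] in
private theorem unip65 (p : ℕ) [CharP K p] {N : End K V} (hN : N * N = 0) :
    (1 - (N + N)) ^ p = 1 := by
  have h1 : ∀ m : ℕ, (1 - (N + N)) ^ m = 1 - m • (N + N) := by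
    intro m
    induction m with
    | zero => simp
    | succ m ih =>
      have h2 : (N + N) * (N + N) = 0 := by
        simp only [add_mul, mul_add, hN, add_zero]
      rw [pow_succ, ih, mul_sub, mul_one, sub_mul, one_mul, smul_mul_assoc, h2, smul_zero,
        sub_zero, succ_nsmul]
      abel
  rw [h1, ← Nat.cast_smul_eq_nsmul K, CharP.cast_eq_zero, zero_smul, sub_zero]

omit [FiniteDimensional K V] in
private theorem half_eq65 (h2 : (2 : K) ≠ 0) {a b : End K V} (h : a + a = b + b) : a = b := by
  have h3 : (2 : K) • a = (2 : K) • b := by rw [two_smul, two_smul, h]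
  exact smul_right_injective _ h2 h3

omit [FiniteDimensional K V] in
private theorem key65 (h2 : (2 : K) ≠ 0) (p : ℕ) [Fact p.Prime] [CharP K p] {x c c' : End K V}
    (hx : x * x = x) (hc : c * c = c) (hc' : c' * c' = c') (h : cr c x 2) (h' : cr c' x 2)
    {t : Dual K V} {z : V} (ht : t z = 0) {N : End K V} (hN : N = t.smulRight z)
    (hp : iv c * iv c' = 1 - (N + N)) : x * N = N * x := by
  have hodd : Odd p := by
    rcases (Fact.out : p.Prime).eq_two_or_odd' with h3 | h3
    · exfalso
      apply h2
      have h4 := CharP.cast_eq_zero K p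
      rw [h3] at h4
      exact_mod_cast h4
    · exact h3
  have hNN : N * N = 0 := by
    rw [hN]
    ext v
    simp [ht]
  have h4 := comm_of_odd h2 hodd hx hc hc' h h' (by rw [hp]; exact unip65 p hNN)
  rw [hp, mul_sub, mul_one, sub_mul, one_mul] at h4
  have h5 : iv x * (N + N) = (N + N) * iv x := sub_right_injective h4
  rw [mul_add, add_mul] at h5
  exact commute_of_iv h2 (half_eq65 h2 h5)

omit [FiniteDimensional K V] in
private theorem ivL65 {c c' : End K V} (h : c * c' = c) :
    iv c * iv c' = 1 - ((c' - c) + (c' - c)) := by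
  unfold iv
  simp only [sub_mul, mul_sub, add_mul, mul_add, one_mul, mul_one, h]
  abel

omit [FiniteDimensional K V] in
private theorem ivR65 {c c' : End K V} (h : c * c' = c') :
    iv c * iv c' = 1 - ((c - c') + (c - c')) := by
  unfold iv
  simp only [sub_mul, mul_sub, add_mul, mul_add, one_mul, mul_one, h]
  abel

omit [FiniteDimensional K V] in
private theorem sr165 (f : End K V) (t : Dual K V) (s : V) :
    f * (t.smulRight s : End K V) = t.smulRight (f s) := by
  ext v
  simp

omit [FiniteDimensional K V] in
private theorem sr265 {f : End K V} {t : Dual K V} (s : V) (h : ∀ v, t (f v) = t v) :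
    (t.smulRight s : End K V) * f = t.smulRight s := by
  ext v
  simp [h]

omit [FiniteDimensional K V] in
private theorem sr065 {f : End K V} {t : Dual K V} (s : V) (h : ∀ v, t (f v) = 0) :
    (t.smulRight s : End K V) * f = 0 := by
  ext v
  simp [h]

omit [FiniteDimensional K V] in
private theorem sr365 {t : Dual K V} (s : V) {s' : V} (h : t s' = 1) :
    (t.smulRight s : End K V) * t.smulRight s' = t.smulRight s := by
  ext v
  simp [h]

omit [FiniteDimensional K V] in
private theorem sr_zero65 (t : Dual K V) : (t.smulRight (0 : V) : End K V) = 0 := by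
  ext v
  simp

omit [FiniteDimensional K V] in
private theorem srd65 (t : Dual K V) (s z : V) :
    (t.smulRight (s + z) : End K V) - t.smulRight s = t.smulRight z := by
  ext v
  simp

theorem stab (h2 : (2 : K) ≠ 0) (p : ℕ) [Fact p.Prime] [CharP K p] {k : ℕ}
    (hk : (2 ≤ k ∧ 2 * k < finrank K V) ∨ (3 ≤ k ∧ 2 * k = finrank K V))
    {p0 : End K V} {E : (Fin 2 → K) →ₗ[K] V} {F : V →ₗ[K] (Fin 2 → K)} (h : Fr p0 E F)
    (hp : rk p0 + 1 = k) {x : End K V} (hx : Pj k x)
    (hc : ∀ c, Pj k c → c * p0 = p0 * c → (∀ M, c * em E F M = em E F M * c) → cr c x 2) :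
    ∃ (μ ν : K) (M : Matrix (Fin 2) (Fin 2) K),
      x = μ • p0 + ν • (1 - p0 - em E F 1) + em E F M ∧ μ * μ = μ ∧ ν * ν = ν ∧ M * M = M := by
  obtain ⟨hxx, hxr⟩ := hx
  have hpp := h.idem
  set e1 : End K V := em E F (1 : Matrix (Fin 2) (Fin 2) K) with he1
  have hee : e1 * e1 = e1 := by rw [he1, ← em_mul h.fe, mul_one]
  have hpe : p0 * e1 = 0 := h.pem 1
  have hep : e1 * p0 = 0 := h.emp 1
  have heM : ∀ M, e1 * em E F M = em E F M := fun M => by rw [he1, ← em_mul h.fe, one_mul]
  have hMe : ∀ M, em E F M * e1 = em E F M := fun M => by rw [he1, ← em_mul h.fe, mul_one]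
  set Q : End K V := 1 - p0 - e1 with hQd
  have hQQ : Q * Q = Q := by
    rw [hQd]
    simp only [sub_mul, mul_sub, one_mul, mul_one, hpp, hee, hpe, hep]
    abel
  have hQp : Q * p0 = 0 := by
    rw [hQd]
    simp only [sub_mul, one_mul, hpp, hep]
    abel
  have hpQ : p0 * Q = 0 := by
    rw [hQd]
    simp only [mul_sub, mul_one, hpp, hpe]
    abel
  have hQM : ∀ M, Q * em E F M = 0 := by
    intro M
    rw [hQd]
    simp only [sub_mul, one_mul, h.pem, heM]
    abel
  have hMQ : ∀ M, em E F M * Q = 0 := by
    intro M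
    rw [hQd]
    simp only [mul_sub, mul_one, h.emp, hMe]
    abel
  have hre : rk e1 = 2 := by
    have h3 : LinearMap.range e1 = LinearMap.range E := by
      ext v
      constructor
      · rintro ⟨w, rfl⟩
        exact ⟨F w, by rw [he1, em_apply, Matrix.one_mulVec]⟩
      · rintro ⟨w, rfl⟩
        exact ⟨E w, by rw [he1, em_apply, Matrix.one_mulVec, h.fe]⟩
    have h4 : Function.Injective E := Function.LeftInverse.injective h.fe
    rw [rk, h3, LinearMap.finrank_range_of_inj h4]
    simp
  have hrQ : rk Q + (rk p0 + 2) = finrank K V := by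
    have h3 := rk_add hpp hee hpe hep
    have h4 : (p0 + e1) * (p0 + e1) = p0 + e1 := by
      simp only [add_mul, mul_add, hpp, hee, hpe, hep]
      abel
    have h5 := rk_one_sub h4
    have h6 : 1 - (p0 + e1) = Q := by
      rw [hQd]
      abel
    rw [h6] at h5
    omega
  have hrQ2 : 2 ≤ rk Q := by omega
  -- vectors and functionals of `Q`
  have hsQ : ∀ s, Q s = s → p0 s = 0 := fun s hs => by
    calc p0 s = p0 (Q s) := by rw [hs]
      _ = (p0 * Q) s := rfl
      _ = 0 := by rw [hpQ]; rfl
  have hsM : ∀ s, Q s = s → ∀ M, em E F M s = 0 := fun s hs M => by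
    calc em E F M s = em E F M (Q s) := by rw [hs]
      _ = (em E F M * Q) s := rfl
      _ = 0 := by rw [hMQ]; rfl
  have htp : ∀ t : Dual K V, (∀ v, t (Q v) = t v) → ∀ v, t (p0 v) = 0 := fun t ht v => by
    calc t (p0 v) = t (Q (p0 v)) := (ht _).symm
      _ = t ((Q * p0) v) := rfl
      _ = 0 := by rw [hQp]; simp
  have htM : ∀ t : Dual K V, (∀ v, t (Q v) = t v) → ∀ M v, t (em E F M v) = 0 := fun t ht M v => by
    calc t (em E F M v) = t (Q (em E F M v)) := (ht _).symm
      _ = t ((Q * em E F M) v) := rfl
      _ = 0 := by rw [hQM]; simp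
  -- the members `p0 + R`
  have hAc : ∀ (s : V) (t : Dual K V), Q s = s → (∀ v, t (Q v) = t v) → t s = 1 →
      (p0 + t.smulRight s) * (p0 + t.smulRight s) = p0 + t.smulRight s ∧
      Pj k (p0 + t.smulRight s) ∧ cr (p0 + t.smulRight s) x 2 := by
    intro s t hs ht hts
    have a1 : p0 * (t.smulRight s : End K V) = 0 := by
      rw [sr165, hsQ s hs, sr_zero65]
    have a2 : (t.smulRight s : End K V) * p0 = 0 := sr065 s (htp t ht)
    have a3 : (t.smulRight s : End K V) * t.smulRight s = t.smulRight s := smulRight_idem hts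
    have a4 : (p0 + t.smulRight s) * (p0 + t.smulRight s) = p0 + t.smulRight s := by
      rw [add_mul, mul_add, mul_add, hpp, a1, a2, a3, add_zero, zero_add]
    have hs0 : s ≠ 0 := by
      rintro rfl
      simp at hts
    have ht0 : t ≠ 0 := by
      rintro rfl
      simp at hts
    have a5 : Pj k (p0 + t.smulRight s) := by
      refine ⟨a4, ?_⟩
      rw [rk_add hpp a3 a1 a2, rk_smulRight ht0 hs0, hp]
    refine ⟨a4, a5, hc _ a5 ?_ ?_⟩
    · rw [add_mul, mul_add, a1, a2]
    · intro M
      rw [add_mul, mul_add, h.pem, h.emp, sr165, hsM s hs, sr_zero65, sr065 s (htM t ht M)]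
  have hA : ∀ (z : V) (t : Dual K V), Q z = z → (∀ v, t (Q v) = t v) → t z = 0 →
      x * t.smulRight z = t.smulRight z * x := by
    intro z t hz ht htz
    by_cases ht0 : t = 0
    · subst ht0
      have h3 : ((0 : Dual K V).smulRight z : End K V) = 0 := by
        ext v
        simp
      rw [h3, mul_zero, zero_mul]
    obtain ⟨v, hv⟩ : ∃ v, t v ≠ 0 := by
      by_contra hcon
      push Not at hcon
      exact ht0 (LinearMap.ext hcon)
    have hs : Q ((t v)⁻¹ • Q v) = (t v)⁻¹ • Q v := by
      rw [map_smul]
      congr 1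
      exact LinearMap.congr_fun hQQ v
    have hts : t ((t v)⁻¹ • Q v) = 1 := by
      rw [map_smul, ht, smul_eq_mul, inv_mul_cancel₀ hv]
    set s := (t v)⁻¹ • Q v with hsd
    obtain ⟨b1, -, b3⟩ := hAc s t hs ht hts
    obtain ⟨d1, -, d3⟩ := hAc (s + z) t (by rw [map_add, hs, hz]) ht (by rw [map_add, hts, htz, add_zero])
    have a1 : p0 * (t.smulRight (s + z) : End K V) = 0 := by
      rw [sr165, map_add, hsQ s hs, hsQ z hz, add_zero, sr_zero65]
    have a2 : (t.smulRight s : End K V) * p0 = 0 := sr065 s (htp t ht)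
    have a3 : (t.smulRight s : End K V) * t.smulRight (s + z) = t.smulRight s :=
      sr365 s (by rw [map_add, hts, htz, add_zero])
    have a4 : (p0 + t.smulRight s) * (p0 + t.smulRight (s + z)) = p0 + t.smulRight s := by
      rw [add_mul, mul_add, mul_add, hpp, a1, a2, a3, add_zero, zero_add]
    refine key65 h2 p hxx b1 d1 b3 d3 htz rfl ?_
    rw [ivL65 a4, add_sub_add_left_eq_sub, srd65]
  obtain ⟨ν, hν1, hν2⟩ := scal hQQ hrQ2 hA
  have hB : ∃ μ : K, x * p0 = μ • p0 ∧ p0 * x = μ • p0 := by
    obtain ⟨s2, z2, t2, r2, e1', e2', e3', e4', e5', e6', e7', e8'⟩ := dual2 hQQ hrQ2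
    by_cases hk2 : 2 ≤ rk p0
    · -- an idempotent of rank two below `Q`
      have hs2 : s2 ≠ 0 := by
        rintro rfl
        simp at e5'
      have ht2 : t2 ≠ 0 := by
        rintro rfl
        simp at e5'
      have hz2 : z2 ≠ 0 := by
        rintro rfl
        simp at e8'
      have hr2 : r2 ≠ 0 := by
        rintro rfl
        simp at e8'
      have c1 : (t2.smulRight s2 : End K V) * r2.smulRight z2 = 0 := by
        ext v
        simp [e6']
      have c2 : (r2.smulRight z2 : End K V) * t2.smulRight s2 = 0 := by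
        ext v
        simp [e7']
      have c3 := smulRight_idem (K := K) (V := V) e5'
      have c4 := smulRight_idem (K := K) (V := V) e8'
      set R2 : End K V := t2.smulRight s2 + r2.smulRight z2 with hR2
      have c5 : R2 * R2 = R2 := by
        rw [hR2, add_mul, mul_add, mul_add, c1, c2, c3, c4, add_zero, zero_add]
      have c6 : rk R2 = 2 := by
        rw [hR2, rk_add c3 c4 c1 c2, rk_smulRight ht2 hs2, rk_smulRight hr2 hz2]
      have c7 : p0 * R2 = 0 := by
        rw [hR2, mul_add, sr165, sr165, hsQ s2 e1', hsQ z2 e2', sr_zero65, sr_zero65, add_zero]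
      have c8 : R2 * p0 = 0 := by
        rw [hR2, add_mul, sr065 s2 (htp t2 e3'), sr065 z2 (htp r2 e4'), add_zero]
      have c9 : ∀ M, em E F M * R2 = 0 := by
        intro M
        rw [hR2, mul_add, sr165, sr165, hsM s2 e1', hsM z2 e2', sr_zero65, sr_zero65, add_zero]
      have c10 : ∀ M, R2 * em E F M = 0 := by
        intro M
        rw [hR2, add_mul, sr065 s2 (htM t2 e3' M), sr065 z2 (htM r2 e4' M), add_zero]
      clear_value R2
      have hBc : ∀ (s : V) (t : Dual K V), p0 s = s → (∀ v, t (p0 v) = t v) → t s = 1 →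
          (p0 - t.smulRight s + R2) * (p0 - t.smulRight s + R2) = p0 - t.smulRight s + R2 ∧
          cr (p0 - t.smulRight s + R2) x 2 := by
        intro s t hs ht hts
        have a1 : p0 * (t.smulRight s : End K V) = t.smulRight s := by rw [sr165, hs]
        have a2 : (t.smulRight s : End K V) * p0 = t.smulRight s := sr265 s ht
        have a3 : (t.smulRight s : End K V) * t.smulRight s = t.smulRight s := smulRight_idem hts
        have hs0 : s ≠ 0 := by
          rintro rfl
          simp at hts
        have ht0 : t ≠ 0 := by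
          rintro rfl
          simp at hts
        have a4 : R2 * (t.smulRight s : End K V) = 0 := by rw [← a1, ← mul_assoc, c8, zero_mul]
        have a5 : (t.smulRight s : End K V) * R2 = 0 := by rw [← a2, mul_assoc, c7, mul_zero]
        have a6 : (p0 - t.smulRight s) * (p0 - t.smulRight s) = p0 - (t.smulRight s : End K V) := by
          rw [sub_mul, mul_sub, mul_sub, hpp, a1, a2, a3, sub_self, sub_zero]
        have a7 : (p0 - t.smulRight s) * R2 = 0 := by rw [sub_mul, c7, a5, sub_zero]
        have a8 : R2 * (p0 - t.smulRight s) = 0 := by rw [mul_sub, c8, a4, sub_zero]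
        have a9 : (p0 - t.smulRight s + R2) * (p0 - t.smulRight s + R2) =
            p0 - t.smulRight s + R2 := by
          rw [add_mul, mul_add, mul_add, a6, a7, a8, c5, add_zero, zero_add]
        have b1 : (p0 - t.smulRight s) * (t.smulRight s : End K V) = 0 := by
          rw [sub_mul, a1, a3, sub_self]
        have b2 : (t.smulRight s : End K V) * (p0 - t.smulRight s) = 0 := by
          rw [mul_sub, a2, a3, sub_self]
        have b3 := rk_add a6 a3 b1 b2
        rw [sub_add_cancel, rk_smulRight ht0 hs0] at b3
        have b4 := rk_add a6 c5 a7 a8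
        have b5 : Pj k (p0 - t.smulRight s + R2) := ⟨a9, by omega⟩
        refine ⟨a9, hc _ b5 ?_ ?_⟩
        · rw [add_mul, mul_add, sub_mul, mul_sub, hpp, a1, a2, c7, c8]
        · intro M
          have g1 : (t.smulRight s : End K V) * em E F M = 0 := by
            rw [← a2, mul_assoc, h.pem, mul_zero]
          have g2 : em E F M * (t.smulRight s : End K V) = 0 := by
            rw [← a1, ← mul_assoc, h.emp, zero_mul]
          rw [add_mul, mul_add, sub_mul, mul_sub, h.pem, h.emp, g1, g2, c9, c10]
      refine scal hpp hk2 ?_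
      intro z t hz ht htz
      by_cases ht0 : t = 0
      · subst ht0
        have h3 : ((0 : Dual K V).smulRight z : End K V) = 0 := by
          ext v
          simp
        rw [h3, mul_zero, zero_mul]
      obtain ⟨v, hv⟩ : ∃ v, t v ≠ 0 := by
        by_contra hcon
        push Not at hcon
        exact ht0 (LinearMap.ext hcon)
      have hs : p0 ((t v)⁻¹ • p0 v) = (t v)⁻¹ • p0 v := by
        rw [map_smul]
        congr 1
        exact LinearMap.congr_fun hpp v
      have hts : t ((t v)⁻¹ • p0 v) = 1 := by
        rw [map_smul, ht, smul_eq_mul, inv_mul_cancel₀ hv]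
      set s := (t v)⁻¹ • p0 v with hsd
      obtain ⟨b1, b3⟩ := hBc s t hs ht hts
      obtain ⟨d1, d3⟩ := hBc (s + z) t (by rw [map_add, hs, hz]) ht
        (by rw [map_add, hts, htz, add_zero])
      have a1 : p0 * (t.smulRight (s + z) : End K V) = t.smulRight (s + z) := by
        rw [sr165, map_add, hs, hz]
      have a2 : (t.smulRight s : End K V) * p0 = t.smulRight s := sr265 s ht
      have a2' : (t.smulRight (s + z) : End K V) * p0 = t.smulRight (s + z) := sr265 _ ht
      have a1' : p0 * (t.smulRight s : End K V) = t.smulRight s := by rw [sr165, hs]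
      have a3 : (t.smulRight s : End K V) * t.smulRight (s + z) = t.smulRight s :=
        sr365 s (by rw [map_add, hts, htz, add_zero])
      have a4 : R2 * (t.smulRight (s + z) : End K V) = 0 := by
        rw [← a1, ← mul_assoc, c8, zero_mul]
      have a5 : (t.smulRight s : End K V) * R2 = 0 := by rw [← a2, mul_assoc, c7, mul_zero]
      have a6 : (p0 - t.smulRight s + R2) * (p0 - t.smulRight (s + z) + R2) =
          p0 - t.smulRight (s + z) + R2 := by
        simp only [add_mul, mul_add, sub_mul, mul_sub, hpp, a1, a2, a3, a4, a5, c5, c7, c8]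
        abel
      refine key65 h2 p hxx b1 d1 b3 d3 htz rfl ?_
      rw [ivR65 a6]
      have a7 : p0 - (t.smulRight s : End K V) + R2 - (p0 - t.smulRight (s + z) + R2) =
          t.smulRight z := by
        rw [← srd65 t s z]
        abel
      rw [a7]
    · -- `k = 2`
      have hk3 : rk p0 = 1 := by omega
      refine scal1 hpp hk3 ?_
      obtain ⟨b1, b2, b3⟩ := hAc s2 t2 e1' e3' e5'
      set c : End K V := p0 + t2.smulRight s2 with hcd
      have hcx : (iv c * iv x) ^ 2 = 1 := by
        rcases b3 with b3 | b3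
        · exact b3
        · exfalso
          have g1 := LinearMap.finrank_range_add_finrank_ker c
          have g2 := LinearMap.finrank_range_add_finrank_ker x
          have g3 := Submodule.finrank_sup_add_finrank_inf_eq (LinearMap.ker c) (LinearMap.ker x)
          have g4 := Submodule.finrank_le (LinearMap.ker c ⊔ LinearMap.ker x)
          have g5 : finrank K (LinearMap.range c) = k := b2.2
          have g6 : finrank K (LinearMap.range x) = k := hxr
          have g7 : LinearMap.ker c ⊓ LinearMap.ker x ≠ ⊥ := by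
            intro hbot
            rw [hbot, finrank_bot] at g3
            omega
          obtain ⟨v, hv, hv0⟩ := Submodule.exists_mem_ne_zero_of_ne_bot g7
          rw [Submodule.mem_inf, LinearMap.mem_ker, LinearMap.mem_ker] at hv
          have g8 : iv c v = v := by
            unfold iv
            simp [hv.1]
          have g9 : iv x v = v := by
            unfold iv
            simp [hv.2]
          have g10 := LinearMap.congr_fun b3 v
          rw [pow_two] at g10
          have g11 : (iv c * iv x * (iv c * iv x)) v = v := by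
            show iv c (iv x (iv c (iv x v))) = v
            rw [g9, g8, g9, g8]
          rw [g11] at g10
          have g12 : (2 : K) • v = 0 := by
            rw [two_smul]
            nth_rewrite 1 [g10]
            simp
          exact hv0 ((smul_eq_zero.1 g12).resolve_left h2)
      have hcc := iv_sq b1
      have hXX := iv_sq hxx
      have hcomm : iv c * iv x = iv x * iv c := by
        rw [pow_two] at hcx
        calc iv c * iv x = iv c * iv x * ((iv c * iv c) * 1) := by rw [hcc, mul_one, mul_one]
          _ = 1 * (iv c * iv x) := by rw [hcc]; simp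
          _ = (iv x * iv x) * (iv c * iv x) := by rw [hXX]
          _ = iv x * (iv c * iv c) * iv x * (iv c * iv x) := by rw [hcc, mul_one]
          _ = iv x * iv c * (iv c * iv x * (iv c * iv x)) := by simp only [mul_assoc]
          _ = iv x * iv c := by rw [hcx, mul_one]
      have h7 : c * iv x = iv x * c := commute_of_iv h2 hcomm
      have h8 : x * c = c * x := commute_of_iv h2 h7.symm
      have h9 : x * (t2.smulRight s2 : End K V) = t2.smulRight s2 * x := by
        have q1 : Q * (t2.smulRight s2 : End K V) = t2.smulRight s2 := by rw [sr165, e1']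
        have q2 : (t2.smulRight s2 : End K V) * Q = t2.smulRight s2 := sr265 s2 e3'
        calc x * (t2.smulRight s2 : End K V) = x * Q * t2.smulRight s2 := by
              rw [mul_assoc, q1]
          _ = ν • (t2.smulRight s2 : End K V) := by rw [hν1, smul_mul_assoc, q1]
          _ = (t2.smulRight s2 : End K V) * (Q * x) := by rw [hν2, mul_smul_comm, q2]
          _ = _ := by rw [← mul_assoc, q2]
      rw [hcd, mul_add, add_mul, h9] at h8
      exact add_right_cancel h8
  obtain ⟨μ, hμ1, hμ2⟩ := hB
  -- the block
  have hxe : x * e1 = e1 * x := by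
    have h3 : e1 = 1 - p0 - Q := by
      rw [hQd]
      abel
    rw [h3, mul_sub, mul_sub, sub_mul, sub_mul, mul_one, one_mul, hμ1, hμ2, hν1, hν2]
  have hM : x * e1 = em E F (LinearMap.toMatrix' (F ∘ₗ x ∘ₗ E)) := by
    calc x * e1 = x * (e1 * e1) := by rw [hee]
      _ = e1 * x * e1 := by rw [← mul_assoc, hxe]
      _ = _ := by
        ext v
        show E ((1 : Matrix (Fin 2) (Fin 2) K).mulVec (F (x (E
          ((1 : Matrix (Fin 2) (Fin 2) K).mulVec (F v)))))) = _
        rw [Matrix.one_mulVec, Matrix.one_mulVec]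
        show _ = E (Matrix.toLin' (LinearMap.toMatrix' (F ∘ₗ x ∘ₗ E)) (F v))
        rw [Matrix.toLin'_toMatrix']
        rfl
  refine ⟨μ, ν, LinearMap.toMatrix' (F ∘ₗ x ∘ₗ E), ?_, ?_, ?_, ?_⟩
  · rw [← hM, ← hμ1, ← hν1]
    have h3 : x = x * (p0 + Q + e1) := by
      have h4 : p0 + Q + e1 = 1 := by
        rw [hQd]
        abel
      rw [h4, mul_one]
    conv_lhs => rw [h3]
    rw [mul_add, mul_add]
  · have h3 : (μ * μ) • p0 = μ • p0 := by
      rw [mul_smul, ← hμ1, ← mul_smul_comm, ← hμ1, ← mul_assoc, hxx]
    have h4 : p0 ≠ 0 := by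
      rintro h5
      rw [h5, rk, LinearMap.range_zero, finrank_bot] at hp
      omega
    have h5 : (μ * μ - μ) • p0 = 0 := by rw [sub_smul, h3, sub_self]
    exact sub_eq_zero.1 ((smul_eq_zero.1 h5).resolve_right h4)
  · have h3 : (ν * ν) • Q = ν • Q := by
      rw [mul_smul, ← hν1, ← mul_smul_comm, ← hν1, ← mul_assoc, hxx]
    have h4 : Q ≠ 0 := by
      intro h5
      rw [h5, rk, LinearMap.range_zero, finrank_bot] at hrQ2
      omega
    have h5 : (ν * ν - ν) • Q = 0 := by rw [sub_smul, h3, sub_self]
    exact sub_eq_zero.1 ((smul_eq_zero.1 h5).resolve_right h4)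
  · apply em_inj h.fe
    rw [em_mul h.fe, ← hM]
    calc x * e1 * (x * e1) = x * (e1 * x) * e1 := by simp only [mul_assoc]
      _ = x * x * (e1 * e1) := by rw [← hxe]; simp only [mul_assoc]
      _ = x * e1 := by rw [hxx, hee]

end Pool.Agent.Helper92.LQ
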