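import Pool.Agent.Helper92.LQ.Defs

/-!
# Project LQ, block SCA: endomorphisms commuting with transvections inside an idempotent

`scal`. By `dual2` there are `s, z, t, r` in `Q` with `t s = 1`, `t z = 0`, `r s = 0`, `r z = 1`. Let `l = t (x s)`. The
hypothesis for `(z', t)` with `t z' = 0`, evaluated at `s`: `x z' = l z'`. For `(z, t)` at a general `v`:
`t v • x z = t (x v) • z`, so `t (x v) = l * t v`. For `(s, r)` at `z`: `x s = r (x z) • s = l • s`. As
`Q v = t (Q v) • s + (Q v - t (Q v) • s)` we get `x * Q = l • Q`. For a functional `f` let `f' = f ∘ Q` and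
`f'' = f' - f' s • t`: the hypothesis for `(s, f'')` gives `f'' (x v) • s = f'' v • x s = l * f'' v • s`, so
`f' (x v) = l * f' v` for all `v`, and `Q * x = l • Q` (functionals separate points).

`scal1`: `Q` is `t.smulRight s` with `t s = 1`; `x s = x Q s = Q x s = t (x s) • s`.
-/

set_option autoImplicit false

open Module

namespace Pool.Agent.Helper92.LQ

variable {K V : Type*} [Field K] [AddCommGroup V] [Module K V] [FiniteDimensional K V]

theorem dual1 {Q : End K V} (hQ : Q * Q = Q) (h0 : Q ≠ 0) :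
    ∃ (s : V) (t : Dual K V), Q s = s ∧ (∀ v, t (Q v) = t v) ∧ t s = 1 := by
  have hQ' : ∀ v, Q (Q v) = Q v := fun v => congrArg (fun f : End K V => f v) hQ
  obtain ⟨v, hv⟩ : ∃ v, Q v ≠ 0 := by
    by_contra hcon
    push Not at hcon
    exact h0 (LinearMap.ext hcon)
  obtain ⟨f, hf⟩ : ∃ f : Dual K V, f (Q v) ≠ 0 := by
    by_contra hcon
    push Not at hcon
    exact hv ((Module.forall_dual_apply_eq_zero_iff K (Q v)).1 hcon)
  refine ⟨Q v, (f (Q v))⁻¹ • f.comp Q, hQ' v, fun w => ?_, ?_⟩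
  · rw [LinearMap.smul_apply, LinearMap.smul_apply, LinearMap.comp_apply, LinearMap.comp_apply, hQ']
  · rw [LinearMap.smul_apply, LinearMap.comp_apply, hQ', smul_eq_mul, inv_mul_cancel₀ hf]

private theorem h93_sub {Q : End K V} {s : V} {t : Dual K V} (hQ : Q * Q = Q) (hs : Q s = s)
    (ht : ∀ v, t (Q v) = t v) (hts : t s = 1) :
    (Q - t.smulRight s) * (Q - t.smulRight s) = Q - t.smulRight s ∧
      (Q - t.smulRight s) * t.smulRight s = 0 ∧ t.smulRight s * (Q - t.smulRight s) = 0 := by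
  have hQ' : ∀ v, Q (Q v) = Q v := fun v => congrArg (fun f : End K V => f v) hQ
  refine ⟨?_, ?_, ?_⟩
  · ext v
    simp [hQ', hs, ht, hts]
  · ext v
    simp [hs, hts]
  · ext v
    simp [ht, hts]

private theorem h93_rk_zero {Q : End K V} (h : rk Q = 0) : Q = 0 := by
  unfold rk at h
  rw [Submodule.finrank_eq_zero, LinearMap.range_eq_bot] at h
  exact h

theorem dual2 {Q : End K V} (hQ : Q * Q = Q) (hr : 2 ≤ rk Q) :
    ∃ (s z : V) (t r : Dual K V), Q s = s ∧ Q z = z ∧ (∀ v, t (Q v) = t v) ∧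
      (∀ v, r (Q v) = r v) ∧ t s = 1 ∧ t z = 0 ∧ r s = 0 ∧ r z = 1 := by
  have h0 : Q ≠ 0 := by
    rintro rfl
    rw [rk, LinearMap.range_zero, finrank_bot] at hr
    omega
  obtain ⟨s, t, hs, ht, hts⟩ := dual1 hQ h0
  obtain ⟨hQ1, h1, h2⟩ := h93_sub hQ hs ht hts
  have h0' : Q - t.smulRight s ≠ 0 := by
    intro h
    have h3 : Q = t.smulRight s := sub_eq_zero.1 h
    have h4 := rk_smulRight_le t s
    rw [← h3] at h4
    omega
  obtain ⟨z, r, hz, hrr, hrz⟩ := dual1 hQ1 h0'
  have hQ' : ∀ v, Q (Q v) = Q v := fun v => congrArg (fun f : End K V => f v) hQ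
  have hap : ∀ v, (Q - t.smulRight s : End K V) v = Q v - t v • s := fun v => rfl
  have htz : t z = 0 := by
    rw [← hz, hap, map_sub, map_smul, ht, hts, smul_eq_mul, mul_one, sub_self]
  refine ⟨s, z, t, r, hs, ?_, ht, ?_, hts, htz, ?_, hrz⟩
  · have h3 := hz
    rw [hap, htz, zero_smul, sub_zero] at h3
    exact h3
  · intro v
    rw [← hrr (Q v), ← hrr v, hap, hap, hQ', ht]
  · rw [← hrr s, hap, hs, hts, one_smul, sub_self, map_zero]

theorem scal {Q x : End K V} (hQ : Q * Q = Q) (hr : 2 ≤ rk Q)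
    (h : ∀ (z : V) (t : Dual K V), Q z = z → (∀ v, t (Q v) = t v) → t z = 0 →
      x * t.smulRight z = t.smulRight z * x) :
    ∃ l : K, x * Q = l • Q ∧ Q * x = l • Q := by
  have hQ' : ∀ v, Q (Q v) = Q v := fun v => congrArg (fun f : End K V => f v) hQ
  obtain ⟨s, z, t, r, hs, hz, ht, hrQ, hts, htz, hrs, hrz⟩ := dual2 hQ hr
  have h' : ∀ (z : V) (t : Dual K V), Q z = z → (∀ v, t (Q v) = t v) → t z = 0 →
      ∀ v, t v • x z = t (x v) • z := by
    intro z t h1 h2 h3 v
    have h4 := congrArg (fun f : End K V => f v) (h z t h1 h2 h3)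
    simpa using h4
  set l : K := t (x s) with hl
  have e1 : ∀ z', Q z' = z' → t z' = 0 → x z' = l • z' := by
    intro z' h1 h2
    have h3 := h' z' t h1 ht h2 s
    rwa [hts, one_smul] at h3
  have e2 : ∀ v, t (x v) = l * t v := by
    intro v
    have h3 := h' z t hz ht htz v
    rw [e1 z hz htz] at h3
    have h4 := congrArg r h3
    rw [map_smul, map_smul, map_smul, hrz, smul_eq_mul, smul_eq_mul, smul_eq_mul, mul_one, mul_one] at h4
    rw [← h4, mul_comm]
  have e3 : x s = l • s := by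
    have h3 := h' s r hs hrQ hrs z
    rw [hrz, one_smul, e1 z hz htz, map_smul, hrz, smul_eq_mul, mul_one] at h3
    exact h3
  refine ⟨l, ?_, ?_⟩
  · ext v
    have h1 : Q v = t (Q v) • s + (Q v - t (Q v) • s) := by abel
    have h2 : x (Q v - t (Q v) • s) = l • (Q v - t (Q v) • s) := by
      refine e1 _ ?_ ?_
      · rw [map_sub, map_smul, hQ', hs]
      · rw [map_sub, map_smul, hts, smul_eq_mul, mul_one, sub_self]
    show x (Q v) = l • Q v
    calc x (Q v) = x (t (Q v) • s + (Q v - t (Q v) • s)) := by rw [← h1]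
      _ = t (Q v) • (l • s) + l • (Q v - t (Q v) • s) := by rw [map_add, map_smul, e3, h2]
      _ = l • (t (Q v) • s + (Q v - t (Q v) • s)) := by rw [smul_add, smul_comm]
      _ = l • Q v := by rw [← h1]
  · ext v
    show Q (x v) = l • Q v
    rw [← sub_eq_zero]
    refine (Module.forall_dual_apply_eq_zero_iff K _).1 fun f => ?_
    set g : Dual K V := f.comp Q - f (Q s) • t with hg
    have g1 : ∀ w, g w = f (Q w) - f (Q s) * t w := fun w => rfl
    have h3 := h' s g hs (fun w => by rw [g1, g1, hQ', ht]) (by rw [g1, hts, mul_one, sub_self]) v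
    rw [e3] at h3
    have h4 := congrArg t h3
    rw [map_smul, map_smul, map_smul, hts, smul_eq_mul, smul_eq_mul, smul_eq_mul, mul_one, mul_one,
      g1, g1, e2] at h4
    rw [map_sub, map_smul, smul_eq_mul]
    linear_combination -h4

theorem scal1 {Q x : End K V} (hQ : Q * Q = Q) (hr : rk Q = 1) (h : x * Q = Q * x) :
    ∃ l : K, x * Q = l • Q ∧ Q * x = l • Q := by
  have h0 : Q ≠ 0 := by
    rintro rfl
    rw [rk, LinearMap.range_zero, finrank_bot] at hr
    omega
  obtain ⟨s, t, hs, ht, hts⟩ := dual1 hQ h0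
  obtain ⟨hQ1, h1, h2⟩ := h93_sub hQ hs ht hts
  have h3 := rk_add hQ1 (smulRight_idem hts) h1 h2
  have ht0 : t ≠ 0 := by
    rintro rfl
    simp at hts
  have hs0 : s ≠ 0 := by
    rintro rfl
    simp at hts
  rw [sub_add_cancel, rk_smulRight ht0 hs0, hr] at h3
  have h4 : Q = t.smulRight s := sub_eq_zero.1 (h93_rk_zero (by omega))
  have h5 : ∀ v, Q v = t v • s := fun v => by
    conv_lhs => rw [h4]
    rfl
  have h6 : x s = t (x s) • s := by
    have h7 := congrArg (fun f : End K V => f s) h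
    simp only [Module.End.mul_apply] at h7
    rw [hs, h5] at h7
    exact h7
  have h8 : x * Q = t (x s) • Q := by
    ext v
    show x (Q v) = t (x s) • Q v
    rw [h5, map_smul, smul_comm]
    conv_lhs => rw [h6]
  exact ⟨t (x s), h8, h ▸ h8⟩

end Pool.Agent.Helper92.LQ
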