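import Pool.Agent.Helper92.LQ.TA
import Pool.Agent.Helper92.LQ.Sca

/-!
# Project LQ, block L1B: rank count

`rk_em`: `M = vecMulVec u f` (`I1_vec`), so `em E F M` is `t.smulRight (E u)` with `t v = f ⬝ᵥ F v`, both non zero.
`rk_el`: `rk_add` and `rk_em`.

`in_block`. `μ, ν` are `0` or `1` and `I1 M` (`I1_of_idem`).
- `(1, 0)`: `x = el p0 E F M`, `N = M`.
- `(0, 1)`: `x = 1 - p0 - em E F (1 - M) = 1 - el p0 E F (1 - M)`, `N = 1 - M`.
- `(0, 0)`: `x = em E F M` has rank one, but `k ≥ 2`.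
- `(1, 1)`: `1 - x = em E F (1 - M)` has rank one, so `finrank K V = k + 1`, against `2 * k ≤ finrank K V`, `k ≥ 2`.

`el_sim_inj`: the case `el N' = 1 - el N` multiplied by `p0` gives `p0 = 0`.

`exists_basis`: `A = g E0 g'` (`I1_conj_E0`); `E' = E ∘ g`, `F' = g' ∘ F`.
-/

set_option autoImplicit false

open Module

namespace Pool.Agent.Helper92.LQ

variable {K V : Type*} [Field K] [AddCommGroup V] [Module K V] [FiniteDimensional K V]

theorem rk_em {E : (Fin 2 → K) →ₗ[K] V} {F : V →ₗ[K] (Fin 2 → K)} (hfe : ∀ x, F (E x) = x)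
    {M : Matrix (Fin 2) (Fin 2) K} (hM : I1 M) : rk (em E F M) = 1 := by
  obtain ⟨u, f, hM', huf⟩ := I1_vec hM
  obtain ⟨t, ht⟩ : ∃ t : Dual K V, ∀ v, t v = f 0 * F v 0 + f 1 * F v 1 :=
    ⟨f 0 • (LinearMap.proj 0 ∘ₗ F) + f 1 • (LinearMap.proj 1 ∘ₗ F), fun v => rfl⟩
  have h1 : em E F M = t.smulRight (E u) := by
    ext v
    rw [em_apply, LinearMap.smulRight_apply, ht, ← map_smul, hM']
    congr 1
    ext i
    fin_cases i <;>
      simp [Matrix.mulVec, dotProduct, Matrix.vecMulVec_apply, Fin.sum_univ_two] <;> ring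
  have h2 : t (E u) = 1 := by rw [ht, hfe, huf]
  rw [h1]
  refine rk_smulRight ?_ ?_
  · rintro rfl
    exact zero_ne_one h2
  · intro h3
    rw [h3, map_zero] at h2
    exact zero_ne_one h2

theorem rk_el {p0 : End K V} {E : (Fin 2 → K) →ₗ[K] V} {F : V →ₗ[K] (Fin 2 → K)}
    (h : Fr p0 E F) {M : Matrix (Fin 2) (Fin 2) K} (hM : I1 M) :
    rk (el p0 E F M) = rk p0 + 1 := by
  have h1 : em E F M * em E F M = em E F M := by rw [← em_mul h.fe, hM.1]
  rw [el, rk_add h.idem h1 (h.pem M) (h.emp M), rk_em h.fe hM]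

theorem Pj_el {k : ℕ} {p0 : End K V} {E : (Fin 2 → K) →ₗ[K] V} {F : V →ₗ[K] (Fin 2 → K)}
    (h : Fr p0 E F) (hp : rk p0 + 1 = k) {M : Matrix (Fin 2) (Fin 2) K} (hM : I1 M) :
    Pj k (el p0 E F M) := by
  exact ⟨el_idem h hM.1, (rk_el h hM).trans hp⟩

theorem in_block {k : ℕ}
    (hk : (2 ≤ k ∧ 2 * k < finrank K V) ∨ (3 ≤ k ∧ 2 * k = finrank K V))
    {p0 : End K V} {E : (Fin 2 → K) →ₗ[K] V} {F : V →ₗ[K] (Fin 2 → K)} (h : Fr p0 E F)
    {x : End K V} (hx : Pj k x) {μ ν : K} {M : Matrix (Fin 2) (Fin 2) K}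
    (hxe : x = μ • p0 + ν • (1 - p0 - em E F 1) + em E F M) (hμ : μ * μ = μ) (hν : ν * ν = ν)
    (hM : M * M = M) (h0 : M ≠ 0) (h1 : M ≠ 1) :
    ∃ N, I1 N ∧ sim (el p0 E F N) x := by
  have hI := I1_of_idem hM h0 h1
  have hI' := I1_one_sub hI
  have h01 : ∀ r : K, r * r = r → r = 0 ∨ r = 1 := by
    intro r hr
    have h2 : r * (r - 1) = 0 := by rw [mul_sub, mul_one, hr, sub_self]
    rcases mul_eq_zero.1 h2 with h3 | h3
    · exact Or.inl h3
    · exact Or.inr (sub_eq_zero.1 h3)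
  rcases h01 μ hμ with rfl | rfl <;> rcases h01 ν hν with rfl | rfl
  · exfalso
    rw [zero_smul, zero_smul, add_zero, zero_add] at hxe
    have h2 := hx.2
    rw [hxe, rk_em h.fe hI] at h2
    omega
  · refine ⟨1 - M, hI', Or.inr ?_⟩
    rw [hxe, zero_smul, one_smul, zero_add, el, em_sub]
    abel
  · refine ⟨M, hI, Or.inl ?_⟩
    rw [hxe, one_smul, zero_smul, add_zero, el]
  · exfalso
    have h3 : x = 1 - em E F (1 - M) := by
      rw [hxe, one_smul, one_smul, em_sub]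
      abel
    have h4 : em E F (1 - M) * em E F (1 - M) = em E F (1 - M) := by
      rw [← em_mul h.fe, hI'.1]
    have h5 := rk_one_sub h4
    rw [← h3, hx.2, rk_em h.fe hI'] at h5
    omega

omit [FiniteDimensional K V] in
theorem el_sim_inj {p0 : End K V} {E : (Fin 2 → K) →ₗ[K] V} {F : V →ₗ[K] (Fin 2 → K)}
    (h : Fr p0 E F) (hp : p0 ≠ 0) {N N' : Matrix (Fin 2) (Fin 2) K}
    (hs : sim (el p0 E F N) (el p0 E F N')) : N' = N := by
  rcases hs with h1 | h1
  · unfold el at h1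
    exact em_inj h.fe (add_left_cancel h1)
  · exfalso
    apply hp
    have h2 := congrArg (fun f : End K V => p0 * f) h1
    simp only [el, mul_add, mul_sub, mul_one, h.idem, h.pem, add_zero, sub_self] at h2
    exact h2

omit [FiniteDimensional K V] in
/-- Change of basis in a block. -/
theorem exists_basis {p0 : End K V} {E : (Fin 2 → K) →ₗ[K] V} {F : V →ₗ[K] (Fin 2 → K)}
    (h : Fr p0 E F) {A : Matrix (Fin 2) (Fin 2) K} (hA : I1 A) :
    ∃ (E' : (Fin 2 → K) →ₗ[K] V) (F' : V →ₗ[K] (Fin 2 → K)), Fr p0 E' F' ∧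
      el p0 E F A = el p0 E' F' E0 ∧
      ∀ B, I1 B → ∃ B', I1 B' ∧ el p0 E F B = el p0 E' F' B' := by
  obtain ⟨g, g', hg, hg', hA'⟩ := I1_conj_E0 hA
  refine ⟨E ∘ₗ Matrix.toLin' g, Matrix.toLin' g' ∘ₗ F, ⟨h.idem, ?_, ?_, ?_⟩, ?_, ?_⟩
  · intro x
    show g'.mulVec (F (E (g.mulVec x))) = x
    rw [h.fe, Matrix.mulVec_mulVec, hg', Matrix.one_mulVec]
  · intro x
    exact h.pe _
  · intro v
    show g'.mulVec (F (p0 v)) = 0
    rw [h.fp, Matrix.mulVec_zero]
  · unfold el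
    congr 1
    ext v
    show E (A.mulVec (F v)) = E (g.mulVec (E0.mulVec (g'.mulVec (F v))))
    rw [hA', Matrix.mulVec_mulVec, Matrix.mulVec_mulVec, mul_assoc]
  · intro B hB
    refine ⟨g' * B * g, ⟨?_, ?_⟩, ?_⟩
    · calc g' * B * g * (g' * B * g) = g' * B * (g * g') * B * g := by simp only [mul_assoc]
        _ = g' * (B * B) * g := by rw [hg, mul_one]; simp only [mul_assoc]
        _ = g' * B * g := by rw [hB.1]
    · rw [Matrix.trace_mul_comm, ← mul_assoc, hg, one_mul, hB.2]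
    · unfold el
      congr 1
      ext v
      show E (B.mulVec (F v)) = E (g.mulVec ((g' * B * g).mulVec (g'.mulVec (F v))))
      rw [Matrix.mulVec_mulVec, Matrix.mulVec_mulVec]
      congr 2
      calc B = (g * g') * B * (g * g') := by rw [hg, one_mul, mul_one]
        _ = _ := by simp only [mul_assoc]

end Pool.Agent.Helper92.LQ
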