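import Pool.Agent.Helper92.LQ.TB

/-!
# Project LQ, block TC: the local lemma

`test_unique`: write `M = u fᵀ` with `f u = 1`. Test with `A = u f'ᵀ`, `f' u = 1` (`tr (A M) = 1`): `f' (M' u) = 1` for
all such `f'`, so `M' u = u`; test with `A = u' fᵀ`, `f u' = 1`: `f M' = f`. So `M' = M`.

`local_lemma`. Let `M = !![s, x; y, 1 - s]` and `N = Ψ M = !![s', x'; y', 1 - s']`; `M^E = !![s, -x; -y, 1 - s]` is
`(1 - 2 E0) M (1 - 2 E0)`.
(1) `s = 1/2` (so `x, y ≠ 0`): `two_four` with `E0`: the fourth power is one and the square is not. By `half` (`m = 2`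
and `m = 1`) the square of `(1 - 2M)(1 - 2N)` is one and `N ≠ M`, so `N = 1 - M = M^E`.
(2) `s ≠ 0, 1, 1/2`, so `x, y ≠ 0`. Let `ρ = y / s`, `σ = s / x`,
`y1 = !![1/2, 1/(2ρ); ρ/2, 1/2]`, `y2 = !![1/2, 1/(2σ); σ/2, 1/2]`. Then `tr (M y1) = tr (M y2) = 1`, so
`tr (N Ψ y1) = 1`, where `Ψ y1 = 1 - y1` by (1), so `tr (N y1) = 0`, that is `1 + x' ρ + y' / ρ = 0`, and in the same way
`1 + x' σ + y' / σ = 0`. As `ρ ≠ σ, - σ` (`x y = s^2` only for `s = 1/2`, `x y = - s^2` never) this has only the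
solution `x' = -x`, `y' = -y`; then `s' (1 - s') = s (1 - s)` gives `N = M^E` or `N = 1 - M`. In the second case
`(1 - 2M)(1 - 2N) = -1` has square one, so by `half` the fourth power for `(M, E0)` is one: excluded by `two_four`.
(3) `s = 1`, `x ≠ 0`, `y = 0`: `tr (N E0) = 1` (relation `p` with `Ψ E0 = E0`), so `s' = 1` and `x' y' = 0`. With
`y2 = !![1/2, x/2; 1/(2x), 1/2]`: `tr (M y2) = 1`, so `tr (N y2) = 0`: `1/2 + x'/(2x) + y' x/2 = 0`. If `y' = 0` then `x' = -x`.
If `x' = 0` then `y' = -1/x`, `tr (M N) = 0`; but `half` with `m = p` and `tr (M E0) = 1` give `tr (M N) = 1`. The case `x = 0`,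
`y ≠ 0` is the transposed one. `M = E0`: by hypothesis.
(4) `s = 0`: `Ψ (1 - M) = (1 - M)^E` by (3) (or the hypothesis), and `M, 1 - M` are related by `m = 2` and not by
`m = 1`, so `Ψ M = 1 - Ψ (1 - M) = M^E`.
-/

set_option autoImplicit false

open Module

namespace Pool.Agent.Helper92.LQ

variable {K : Type*} [Field K]

private theorem I1_vmv77 (a b : Fin 2 → K) (h : b 0 * a 0 + b 1 * a 1 = 1) :
    I1 (Matrix.vecMulVec a b) := by
  rw [I1_iff]
  simp only [Matrix.vecMulVec_apply]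
  constructor
  · linear_combination h
  · linear_combination (a 0 * b 0) * h

private theorem tr_vmv77 (a b a' b' : Fin 2 → K) :
    (Matrix.vecMulVec a b * Matrix.vecMulVec a' b').trace =
      (b 0 * a' 0 + b 1 * a' 1) * (b' 0 * a 0 + b' 1 * a 1) := by
  simp only [Matrix.trace_fin_two, Matrix.mul_apply, Fin.sum_univ_two, Matrix.vecMulVec_apply]
  ring

theorem test_unique {M M' : Matrix (Fin 2) (Fin 2) K} (hM : I1 M) (hM' : I1 M')
    (h : ∀ A, I1 A → (A * M).trace = 1 → (A * M').trace = 1) : M' = M := by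
  obtain ⟨u, f, rfl, hf⟩ := I1_vec hM
  obtain ⟨u', f', rfl, hf'⟩ := I1_vec hM'
  have h0 := h _ hM (by rw [tr_vmv77, hf, mul_one])
  have h1 := h (Matrix.vecMulVec u (fun i => if i = 0 then f 0 - u 1 else f 1 + u 0))
    (by
      apply I1_vmv77
      simp only [if_true, Fin.one_eq_zero_iff, OfNat.ofNat_ne_one, if_false]
      linear_combination hf)
    (by
      rw [tr_vmv77]
      simp only [if_true, Fin.one_eq_zero_iff, OfNat.ofNat_ne_one, if_false]
      linear_combination (1 + (f 0 * u 0 + f 1 * u 1)) * hf)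
  have h2 := h (Matrix.vecMulVec (fun i => if i = 0 then u 0 - f 1 else u 1 + f 0) f)
    (by
      apply I1_vmv77
      simp only [if_true, Fin.one_eq_zero_iff, OfNat.ofNat_ne_one, if_false]
      linear_combination hf)
    (by
      rw [tr_vmv77]
      simp only [if_true, Fin.one_eq_zero_iff, OfNat.ofNat_ne_one, if_false]
      linear_combination (1 + (f 0 * u 0 + f 1 * u 1)) * hf)
  rw [tr_vmv77] at h0 h1 h2
  simp only [if_true, Fin.one_eq_zero_iff, OfNat.ofNat_ne_one, if_false] at h1 h2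
  have h3 : f' 0 * u 0 + f' 1 * u 1 ≠ 0 := by
    intro h4
    rw [h4, mul_zero] at h0
    exact zero_ne_one h0
  have h3' : f 0 * u' 0 + f 1 * u' 1 ≠ 0 := by
    intro h4
    rw [h4, zero_mul] at h0
    exact zero_ne_one h0
  have h4 : u 0 * u' 1 - u 1 * u' 0 = 0 := by
    have h5 : (u 0 * u' 1 - u 1 * u' 0) * (f' 0 * u 0 + f' 1 * u 1) = 0 := by
      linear_combination h1 - h0
    exact (mul_eq_zero.mp h5).resolve_right h3
  have h4' : f 0 * f' 1 - f 1 * f' 0 = 0 := by
    have h5 : (f 0 * u' 0 + f 1 * u' 1) * (f 0 * f' 1 - f 1 * f' 0) = 0 := by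
      linear_combination h2 - h0
    exact (mul_eq_zero.mp h5).resolve_left h3'
  have e0 : u' 0 = (f 0 * u' 0 + f 1 * u' 1) * u 0 := by
    linear_combination (-(u' 0)) * hf - f 1 * h4
  have e1 : u' 1 = (f 0 * u' 0 + f 1 * u' 1) * u 1 := by
    linear_combination (-(u' 1)) * hf + f 0 * h4
  have g0 : f' 0 = (f' 0 * u 0 + f' 1 * u 1) * f 0 := by
    linear_combination (-(f' 0)) * hf - u 1 * h4'
  have g1 : f' 1 = (f' 0 * u 0 + f' 1 * u 1) * f 1 := by
    linear_combination (-(f' 1)) * hf + u 0 * h4'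
  ext i j
  simp only [Matrix.vecMulVec_apply]
  fin_cases i <;> fin_cases j <;> simp only [Fin.zero_eta, Fin.mk_one]
  · linear_combination f' 0 * e0 + (f 0 * u' 0 + f 1 * u' 1) * u 0 * g0 + u 0 * f 0 * h0
  · linear_combination f' 1 * e0 + (f 0 * u' 0 + f 1 * u' 1) * u 0 * g1 + u 0 * f 1 * h0
  · linear_combination f' 0 * e1 + (f 0 * u' 0 + f 1 * u' 1) * u 1 * g0 + u 1 * f 0 * h0
  · linear_combination f' 1 * e1 + (f 0 * u' 0 + f 1 * u' 1) * u 1 * g1 + u 1 * f 1 * h0

/-- The local properties. -/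
structure Lo (Ψ : Matrix (Fin 2) (Fin 2) K → Matrix (Fin 2) (Fin 2) K) : Prop where
  maps : ∀ M, I1 M → I1 (Ψ M)
  ord : ∀ A B m, I1 A → I1 B → (((1 - (Ψ A + Ψ A)) * (1 - (Ψ B + Ψ B))) ^ m = 1 ↔
    ((1 - (A + A)) * (1 - (B + B))) ^ m = 1)
  fix : Ψ E0 = E0
  fix' : Ψ (1 - E0) = 1 - E0
  half : ∀ M m, I1 M → (((1 - (M + M)) * (1 - (Ψ M + Ψ M))) ^ m = 1 ↔
    ((1 - (M + M)) * (1 - (E0 + E0))) ^ (2 * m) = 1)

private def mk77 (s x y : K) : Matrix (Fin 2) (Fin 2) K := !![s, x; y, 1 - s]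

private theorem I1_mk77 {s x y : K} (h : x * y = s * (1 - s)) : I1 (mk77 s x y) := by
  rw [I1_iff]
  exact ⟨rfl, h⟩

private theorem eq_mk77 {M : Matrix (Fin 2) (Fin 2) K} (hM : I1 M) :
    ∃ s x y, x * y = s * (1 - s) ∧ M = mk77 s x y := by
  rw [I1_iff] at hM
  refine ⟨M 0 0, M 0 1, M 1 0, hM.2, ?_⟩
  ext i j
  fin_cases i <;> fin_cases j
  · rfl
  · rfl
  · rfl
  · exact hM.1

private theorem tr77 (s x y s' x' y' : K) : (mk77 s x y * mk77 s' x' y').trace =
    s * s' + x * y' + y * x' + (1 - s) * (1 - s') := by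
  simp only [mk77, Matrix.trace_fin_two, Matrix.mul_apply, Fin.sum_univ_two, Matrix.of_apply,
    Matrix.cons_val', Matrix.cons_val_zero, Matrix.cons_val_one, Matrix.cons_val_fin_one]
  ring

private theorem E0_mk77 : (E0 : Matrix (Fin 2) (Fin 2) K) = mk77 1 0 0 := by
  simp [E0, mk77]

private theorem conj_mk77 (s x y : K) :
    (1 - (E0 + E0)) * mk77 s x y * (1 - (E0 + E0)) = mk77 s (-x) (-y) := by
  ext i j
  fin_cases i <;> fin_cases j <;>
    simp [mk77, E0, Matrix.mul_apply, Fin.sum_univ_two, Matrix.one_apply] <;> ring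

private theorem one_sub_mk77 (s x y : K) : 1 - mk77 s x y = mk77 (1 - s) (-x) (-y) := by
  ext i j
  fin_cases i <;> fin_cases j <;> simp [mk77]

private theorem mk_inj77 {s x y s' x' y' : K} (h : mk77 s x y = mk77 s' x' y') :
    s = s' ∧ x = x' ∧ y = y' := by
  have h1 := congrFun (congrFun h 0) 0
  have h2 := congrFun (congrFun h 0) 1
  have h3 := congrFun (congrFun h 1) 0
  exact ⟨h1, h2, h3⟩

private theorem iv2_sq77 {M : Matrix (Fin 2) (Fin 2) K} (hM : I1 M) :
    (1 - (M + M)) * (1 - (M + M)) = 1 := by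
  have h := hM.1
  simp only [sub_mul, mul_sub, add_mul, mul_add, one_mul, mul_one, h]
  abel

section

variable {Ψ : Matrix (Fin 2) (Fin 2) K → Matrix (Fin 2) (Fin 2) K}

private theorem half2_77 (h2 : (2 : K) ≠ 0) (h : Lo Ψ) {M : Matrix (Fin 2) (Fin 2) K} (hM : I1 M) :
    (Ψ M = M ∨ Ψ M = 1 - M) ↔ (E0 = M ∨ E0 = 1 - M ∨ 2 * (M * E0).trace = 1) := by
  have h3 := h.half M 2 hM
  rw [two_sq h2 hM (h.maps M hM), two_four h2 hM I1_E0] at h3
  exact h3

private theorem half1_77 (h2 : (2 : K) ≠ 0) (h : Lo Ψ) {M : Matrix (Fin 2) (Fin 2) K} (hM : I1 M)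
    (hN : Ψ M = M) : E0 = M ∨ E0 = 1 - M := by
  have h3 := h.half M 1 hM
  rw [hN, pow_one, iv2_sq77 hM] at h3
  exact (two_sq h2 hM I1_E0).mp (h3.mp rfl)

private theorem tr_iff77 (h2 : (2 : K) ≠ 0) (p : ℕ) [Fact p.Prime] [CharP K p] (h : Lo Ψ)
    {A B : Matrix (Fin 2) (Fin 2) K} (hA : I1 A) (hB : I1 B) :
    (Ψ A * Ψ B).trace = 1 ↔ (A * B).trace = 1 := by
  rw [← two_pow h2 p (h.maps A hA) (h.maps B hB), ← two_pow h2 p hA hB]
  exact h.ord A B p hA hB

/-- step (1) -/
private theorem step1_77 (h2 : (2 : K) ≠ 0) (h : Lo Ψ) {x y : K}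
    (hxy : x * y = (1 / 2) * (1 - 1 / 2)) :
    Ψ (mk77 (1 / 2) x y) = 1 - mk77 (1 / 2) x y := by
  have hM : I1 (mk77 (1 / 2) x y) := I1_mk77 hxy
  have h3 : Ψ (mk77 (1 / 2) x y) = mk77 (1 / 2) x y ∨ Ψ (mk77 (1 / 2) x y) = 1 - mk77 (1 / 2) x y := by
    rw [half2_77 h2 h hM]
    right; right
    rw [E0_mk77, tr77]
    field_simp
    ring
  rcases h3 with h3 | h3
  · exfalso
    have h4 := half1_77 h2 h hM h3
    rw [one_sub_mk77, E0_mk77] at h4
    rcases h4 with h4 | h4
    · have h5 := (mk_inj77 h4).1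
      have h6 : (2 : K) = 1 := by
        field_simp at h5
        exact h5
      have h7 : (1 : K) = 0 := by linear_combination h6
      exact one_ne_zero h7
    · have h5 := (mk_inj77 h4).1
      have h6 : (1 / 2 : K) = 0 := by linear_combination h5
      rw [one_div, inv_eq_zero] at h6
      exact h2 h6
  · exact h3

/-- the test with an element with diagonal `1/2` -/
private theorem test77 (h2 : (2 : K) ≠ 0) (p : ℕ) [Fact p.Prime] [CharP K p] (h : Lo Ψ)
    {s x y s' x' y' a b : K} (hM : x * y = s * (1 - s)) (hN : Ψ (mk77 s x y) = mk77 s' x' y')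
    (hab : a * b = (1 / 2) * (1 - 1 / 2)) (ht : x * b + y * a = 1 / 2) :
    x' * b + y' * a = -(1 / 2) := by
  have h4 : (1 / 2 : K) + 1 / 2 = 1 := by
    field_simp
    ring
  have h3 := (tr_iff77 h2 p h (I1_mk77 hM) (I1_mk77 hab)).mpr (by
    rw [tr77]
    linear_combination ht + s * h4)
  rw [hN, step1_77 h2 h hab, one_sub_mk77, tr77] at h3
  linear_combination -h3 + (1 - s') * h4

/-- step (2) -/
private theorem step2_77 (h2 : (2 : K) ≠ 0) (p : ℕ) [Fact p.Prime] [CharP K p] (h : Lo Ψ)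
    {s x y : K} (hM : x * y = s * (1 - s)) (h0 : s ≠ 0) (h1 : 1 - s ≠ 0) (hh : 1 - 2 * s ≠ 0) :
    Ψ (mk77 s x y) = mk77 s (-x) (-y) := by
  obtain ⟨s', x', y', hN, hΨ⟩ := eq_mk77 (h.maps _ (I1_mk77 hM))
  have hx : x ≠ 0 := by
    rintro rfl
    rw [zero_mul] at hM
    exact mul_ne_zero h0 h1 hM.symm
  have hy : y ≠ 0 := by
    rintro rfl
    rw [mul_zero] at hM
    exact mul_ne_zero h0 h1 hM.symm
  have t1 := test77 h2 p h (a := s / (2 * y)) (b := y / (2 * s)) hM hΨ
    (by field_simp; ring) (by field_simp; linear_combination hM)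
  have t2 := test77 h2 p h (a := x / (2 * s)) (b := s / (2 * x)) hM hΨ
    (by field_simp; ring) (by field_simp; linear_combination hM)
  have e1 : s * y + x' * y ^ 2 + y' * s ^ 2 = 0 := by
    field_simp at t1
    linear_combination t1
  have e2 : x * s + x' * s ^ 2 + y' * x ^ 2 = 0 := by
    field_simp at t2
    linear_combination t2
  have hd : (x * y - s ^ 2) * (x * y + s ^ 2) ≠ 0 := by
    have h3 : x * y - s ^ 2 = s * (1 - 2 * s) := by rw [hM]; ring
    have h4 : x * y + s ^ 2 = s := by rw [hM]; ring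
    rw [h3, h4]
    exact mul_ne_zero (mul_ne_zero h0 hh) h0
  have hx' : x' = -x := by
    have h5 : (x' + x) * ((x * y - s ^ 2) * (x * y + s ^ 2)) = 0 := by
      linear_combination x ^ 2 * e1 - s ^ 2 * e2 + x * (x * y - s ^ 2) * hM
    have h6 := (mul_eq_zero.mp h5).resolve_right hd
    linear_combination h6
  have hy' : y' = -y := by
    have h5 : (y' + y) * ((x * y - s ^ 2) * (x * y + s ^ 2)) = 0 := by
      linear_combination y ^ 2 * e2 - s ^ 2 * e1 + y * (x * y - s ^ 2) * hM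
    have h6 := (mul_eq_zero.mp h5).resolve_right hd
    linear_combination h6
  subst hx' hy'
  have hs : s' = s ∨ s' = 1 - s := by
    have h5 : (s' - s) * (1 - s - s') = 0 := by
      linear_combination hM - hN
    rcases mul_eq_zero.mp h5 with h6 | h6
    · left; linear_combination h6
    · right; linear_combination -h6
  rcases hs with rfl | rfl
  · exact hΨ
  · exfalso
    have h6 := (half2_77 h2 h (I1_mk77 hM)).mp (Or.inr (by rw [hΨ, one_sub_mk77]))
    rw [one_sub_mk77, E0_mk77, tr77] at h6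
    rcases h6 with h6 | h6 | h6
    · exact hx (mk_inj77 h6).2.1.symm
    · exact hx (by linear_combination (mk_inj77 h6).2.1)
    · exact hh (by linear_combination -h6)

private theorem half_p77 (h2 : (2 : K) ≠ 0) (p : ℕ) [Fact p.Prime] [CharP K p] (h : Lo Ψ)
    {M : Matrix (Fin 2) (Fin 2) K} (hM : I1 M) (ht : (M * E0).trace = 1) :
    (M * Ψ M).trace = 1 := by
  rw [← two_pow h2 p hM (h.maps M hM), h.half M p hM, mul_comm 2 p, pow_mul,
    (two_pow h2 p hM I1_E0).mpr ht, one_pow]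

/-- step (3) -/
private theorem step3_77 (h2 : (2 : K) ≠ 0) (p : ℕ) [Fact p.Prime] [CharP K p] (h : Lo Ψ)
    {x y : K} (hM : x * y = 1 * (1 - 1)) :
    Ψ (mk77 1 x y) = mk77 1 (-x) (-y) := by
  obtain ⟨s', x', y', hN, hΨ⟩ := eq_mk77 (h.maps _ (I1_mk77 hM))
  have htE : (mk77 1 x y * E0).trace = 1 := by
    rw [E0_mk77, tr77]
    ring
  have h3 := (tr_iff77 h2 p h (I1_mk77 hM) I1_E0).mpr htE
  rw [h.fix, hΨ, E0_mk77, tr77] at h3
  have hs' : s' = 1 := by linear_combination h3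
  subst hs'
  have h4 := half_p77 h2 p h (I1_mk77 hM) htE
  rw [hΨ, tr77] at h4
  by_cases hx : x = 0
  · subst hx
    by_cases hy : y = 0
    · subst hy
      have h5 := h.fix
      rw [E0_mk77] at h5
      rw [h5, neg_zero]
    · have t1 := test77 h2 p h (a := 1 / (2 * y)) (b := y / 2) hM hΨ
        (by field_simp; ring) (by field_simp; ring)
      have hx' : x' = 0 := by
        have h6 : y * x' = 0 := by linear_combination h4
        exact (mul_eq_zero.mp h6).resolve_left hy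
      subst hx'
      have hy' : y' = -y := by
        field_simp at t1
        linear_combination t1
      rw [hΨ, hy', neg_zero]
  · have hy : y = 0 := by
      have h6 : x * y = 0 := by linear_combination hM
      exact (mul_eq_zero.mp h6).resolve_left hx
    subst hy
    have t1 := test77 h2 p h (a := x / 2) (b := 1 / (2 * x)) hM hΨ
      (by field_simp; ring) (by field_simp; ring)
    have hy' : y' = 0 := by
      have h6 : x * y' = 0 := by linear_combination h4
      exact (mul_eq_zero.mp h6).resolve_left hx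
    subst hy'
    have hx' : x' = -x := by
      field_simp at t1
      linear_combination t1
    rw [hΨ, hx', neg_zero]

end

theorem local_lemma (h2 : (2 : K) ≠ 0) (p : ℕ) [Fact p.Prime] [CharP K p]
    {Ψ : Matrix (Fin 2) (Fin 2) K → Matrix (Fin 2) (Fin 2) K} (h : Lo Ψ)
    (M : Matrix (Fin 2) (Fin 2) K) (hM : I1 M) :
    Ψ M = (1 - (E0 + E0)) * M * (1 - (E0 + E0)) := by
  obtain ⟨s, x, y, hxy, rfl⟩ := eq_mk77 hM
  rw [conj_mk77]
  by_cases h0 : s = 0
  · subst h0
    have hM1 : I1 (1 - mk77 0 x y) := I1_one_sub hM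
    have h3 : Ψ (1 - mk77 0 x y) = mk77 1 x y := by
      rw [one_sub_mk77, sub_zero]
      have h4 := step3_77 h2 p h (x := -x) (y := -y) (by linear_combination hxy)
      rw [neg_neg, neg_neg] at h4
      exact h4
    have h4 : (1 - (mk77 0 x y + mk77 0 x y)) * (1 - ((1 - mk77 0 x y) + (1 - mk77 0 x y))) = -1 := by
      have h5 := iv2_sq77 hM
      have h6 : (1 - ((1 - mk77 0 x y) + (1 - mk77 0 x y))) = -(1 - (mk77 0 x y + mk77 0 x y)) := by
        abel
      rw [h6, mul_neg, h5]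
    have h5 := (h.ord (mk77 0 x y) (1 - mk77 0 x y) 2 hM hM1).mpr (by rw [h4]; simp)
    rw [two_sq h2 (h.maps _ hM) (h.maps _ hM1)] at h5
    rcases h5 with h5 | h5
    · exfalso
      have h6 := (h.ord (mk77 0 x y) (1 - mk77 0 x y) 1 hM hM1).mp (by
        rw [h5, pow_one]
        exact iv2_sq77 (h.maps _ hM))
      rw [pow_one, h4] at h6
      have h7 := congrFun (congrFun h6 0) 0
      have h8 : (-1 : K) = 1 := by simpa using h7
      exact h2 (by linear_combination -h8)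
    · have h6 : Ψ (mk77 0 x y) = 1 - Ψ (1 - mk77 0 x y) := by rw [h5, sub_sub_cancel]
      rw [h6, h3, one_sub_mk77, sub_self]
  by_cases h1 : s = 1
  · subst h1
    exact step3_77 h2 p h hxy
  by_cases hh : 1 - 2 * s = 0
  · have hs : s = 1 / 2 := by
      field_simp
      linear_combination -hh
    subst hs
    rw [step1_77 h2 h hxy, one_sub_mk77]
    congr 1
    field_simp
    ring
  · exact step2_77 h2 p h hxy h0 (sub_ne_zero.mpr (Ne.symm h1)) hh

end Pool.Agent.Helper92.LQ
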