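import Pool.Agent.Helper92.LQ.L1a
import Pool.Agent.Helper92.LQ.L1b
import Pool.Agent.Helper92.LQ.TC

/-!
# Project LQ, block L1C: pairs inside a block are good

`frame_good`. By `exists_basis` we may assume `A = E0`. `a = el p0 E F E0`; let `Adm k a ψ`.
(1) For `I1 M` there is `N` with `I1 N` and `sim (el N) (ψ (el M))`. If `M = E0` or `M = 1 - E0`, `el M` commutes with `a`, so
`fix` gives `N = M`. Otherwise let `x = ψ (el M)`. For `c` in `Pj k` commuting with `p0` and all `em E F M'`: `c` commutes with `a`, so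
`sim c (ψ c)`, and with `el M`, so `cr c (el M) 2`, so `cr (ψ c) x 2`, so `cr c x 2`. By `stab`,
`x = μ p0 + ν Q + em M'`. If `M'` is `0` or `1` then `x` commutes with `a`, so `cr x a 2`, so `cr (ψ (el M)) (ψ a) 2`, so
`cr (el M) a 2`, that is (`cr_el`, `two_sq`) `M = E0` or `M = 1 - E0`, a contradiction. So `in_block` applies.
(2) Let `Ψ M` be such an `N` for `I1 M` (unique by `el_sim_inj`). Then `Lo Ψ`: all by `cr_el`, `cr_congr` and the properties of `ψ`.
(3) `local_lemma` and `cj_el`.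
-/

set_option autoImplicit false

open Module

namespace Pool.Agent.Helper92.LQ

variable {K V : Type*} [Field K] [AddCommGroup V] [Module K V] [FiniteDimensional K V]

private theorem frame_good0 (h2 : (2 : K) ≠ 0) (p : ℕ) [Fact p.Prime] [CharP K p] {k : ℕ}
    (hk : (2 ≤ k ∧ 2 * k < finrank K V) ∨ (3 ≤ k ∧ 2 * k = finrank K V))
    {p0 : End K V} {E : (Fin 2 → K) →ₗ[K] V} {F : V →ₗ[K] (Fin 2 → K)} (h : Fr p0 E F)
    (hp : rk p0 + 1 = k) {B : Matrix (Fin 2) (Fin 2) K} (hB : I1 B) :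
    Good k (el p0 E F E0) (el p0 E F B) := by
  intro ψ hψ
  have hp0 : p0 ≠ 0 := by
    rintro rfl
    rw [rk, LinearMap.range_zero, finrank_bot] at hp
    rcases hk with hk | hk <;> omega
  have hE0 : I1 (E0 : Matrix (Fin 2) (Fin 2) K) := I1_E0
  have hPa : Pj k (el p0 E F E0) := Pj_el h hp hE0
  have hidE := hE0.1
  -- elements commuting with the block
  have hcel : ∀ c : End K V, c * p0 = p0 * c → (∀ M, c * em E F M = em E F M * c) →
      ∀ M, c * el p0 E F M = el p0 E F M * c := by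
    intro c h1 h3 M
    unfold el
    rw [mul_add, add_mul, h1, h3]
  -- products in the block
  have helmul : ∀ M N : Matrix (Fin 2) (Fin 2) K, el p0 E F M * el p0 E F N = el p0 E F (M * N) := by
    intro M N
    unfold el
    rw [add_mul, mul_add, mul_add, h.idem, h.pem, h.emp, ← em_mul h.fe, add_zero, zero_add]
  have hfixE : sim (el p0 E F E0) (ψ (el p0 E F E0)) :=
    hψ.fix _ hPa (cr_of_commute hPa.1 hPa.1 rfl)
  have hI' : I1 (1 - E0 : Matrix (Fin 2) (Fin 2) K) := I1_one_sub hE0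
  have hPa' : Pj k (el p0 E F (1 - E0)) := Pj_el h hp hI'
  have hfixE' : sim (el p0 E F (1 - E0)) (ψ (el p0 E F (1 - E0))) := by
    refine hψ.fix _ hPa' (cr_of_commute hPa'.1 hPa.1 ?_)
    rw [helmul, helmul, sub_mul, mul_sub, one_mul, mul_one]
  -- step 1
  have step1 : ∀ M : Matrix (Fin 2) (Fin 2) K, I1 M →
      ∃ N, I1 N ∧ sim (el p0 E F N) (ψ (el p0 E F M)) := by
    intro M hM
    by_cases hM0 : M = E0
    · subst hM0
      exact ⟨E0, hE0, hfixE⟩
    by_cases hM1 : M = 1 - E0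
    · subst hM1
      exact ⟨1 - E0, hI', hfixE'⟩
    have hPM : Pj k (el p0 E F M) := Pj_el h hp hM
    have hPx : Pj k (ψ (el p0 E F M)) := hψ.cb.maps _ hPM
    obtain ⟨μ, ν, M', hxe, hμ, hν, hM'⟩ := stab h2 p hk h hp hPx (by
      intro c hc h1 h3
      have h4 : sim c (ψ c) := hψ.fix c hc (cr_of_commute hc.1 hPa.1 (hcel c h1 h3 E0))
      have h5 : cr c (el p0 E F M) 2 := cr_of_commute hc.1 hPM.1 (hcel c h1 h3 M)
      have h6 := (hψ.cb.ord c (el p0 E F M) 2 hc hPM).2 h5
      exact (cr_congr h4 (sim_refl _)).2 h6)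
    have hcontra : M' * E0 = E0 * M' → False := by
      intro hcomm
      have hxa : ψ (el p0 E F M) * el p0 E F E0 = el p0 E F E0 * ψ (el p0 E F M) := by
        rw [hxe]
        unfold el
        have e1 := h.idem
        have e2 := h.pem
        have e3 := h.emp
        have e4 := fun M N => (em_mul (E := E) (F := F) h.fe M N).symm
        simp only [sub_mul, mul_sub, add_mul, mul_add, one_mul, mul_one, e1, e2, e3, e4, smul_mul_assoc,
          mul_smul_comm, smul_zero, add_zero, zero_add, sub_zero, sub_self, hcomm]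
        rw [add_sub_cancel_left, sub_self, smul_zero, add_zero]
      have h4 : cr (ψ (el p0 E F M)) (el p0 E F E0) 2 := cr_of_commute hPx.1 hPa.1 hxa
      have h5 : cr (ψ (el p0 E F M)) (ψ (el p0 E F E0)) 2 := (cr_congr (sim_refl _) hfixE).1 h4
      have h6 := (hψ.cb.ord _ _ 2 hPM hPa).1 h5
      rw [cr_el h2 h hp0, two_sq h2 hM hE0] at h6
      rcases h6 with h6 | h6
      · exact hM0 h6.symm
      · apply hM1
        rw [h6]
        exact (sub_sub_cancel 1 M).symm
    exact in_block hk h hPx hxe hμ hν hM' (fun h0 => hcontra (by rw [h0, zero_mul, mul_zero]))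
      (fun h0 => hcontra (by rw [h0, one_mul, mul_one]))
  choose! Ψ hΨ using step1
  have hLo : Lo Ψ := by
    refine ⟨fun M hM => (hΨ M hM).1, ?_, ?_, ?_, ?_⟩
    · intro A' B' m hA' hB'
      rw [← cr_el h2 h hp0, ← cr_el h2 h hp0, cr_congr (hΨ A' hA').2 (hΨ B' hB').2]
      exact hψ.cb.ord _ _ m (Pj_el h hp hA') (Pj_el h hp hB')
    · exact el_sim_inj h hp0 (hfixE.trans (hΨ E0 hE0).2.symm)
    · exact el_sim_inj h hp0 (hfixE'.trans (hΨ _ hI').2.symm)
    · intro M m hM
      rw [← cr_el h2 h hp0, ← cr_el h2 h hp0, cr_congr (sim_refl (el p0 E F M)) (hΨ M hM).2]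
      exact hψ.half _ m (Pj_el h hp hM)
  rw [cj_el h, ← local_lemma h2 p hLo B hB]
  exact (hΨ B hB).2

theorem frame_good (h2 : (2 : K) ≠ 0) (p : ℕ) [Fact p.Prime] [CharP K p] {k : ℕ}
    (hk : (2 ≤ k ∧ 2 * k < finrank K V) ∨ (3 ≤ k ∧ 2 * k = finrank K V))
    {p0 : End K V} {E : (Fin 2 → K) →ₗ[K] V} {F : V →ₗ[K] (Fin 2 → K)} (h : Fr p0 E F)
    (hp : rk p0 + 1 = k) {A B : Matrix (Fin 2) (Fin 2) K} (hA : I1 A) (hB : I1 B) :
    Good k (el p0 E F A) (el p0 E F B) := by
  obtain ⟨E', F', hF', hEA, hEB⟩ := exists_basis h hA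
  obtain ⟨B', hB', hB2⟩ := hEB B hB
  rw [hEA, hB2]
  exact frame_good0 h2 p hk hF' hp hB'

end Pool.Agent.Helper92.LQ
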