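import Pool.Agent.Helper2.RO.Main
import Pool.Agent.Helper2.EV.Main
import Pool.Agent.Helper81.PS.Fin
import Pool.Agent.Helper92.LQ.GrC

/-!
# The involution-product coloured graph of `PSL(n, q)`

`K` is a finite field, `n ≥ 2` and `PSL(n, K)` is simple (`n ≥ 3` or `|K| ≥ 4`). Let `a` be an involution of
`PSL(n, K)`. Suppose that `K` has characteristic two, or `n` is odd, or `n ≤ 3`, or `a` has a lift `A` such that `A * A` is
a scalar matrix `r ^ 2` and `n ≠ 4`, or `A = r + w gᵀ`. Then every permutation of the conjugacy class of `a` which preserves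
the orders of the products of two distinct elements is the restriction of an automorphism of `PSL(n, K)`.
-/

set_option autoImplicit false

open Matrix

namespace Pool.Agent.Helper92.LQ.Lin

theorem result {K : Type*} [Field K] [Finite K] (n : ℕ) (hn : 2 ≤ n)
    (hL : 3 ≤ n ∨ 4 ≤ Nat.card K)
    (a : ProjectiveSpecialLinearGroup (Fin n) K) (ha : orderOf a = 2)
    (h : (2 : K) = 0 ∨ Odd n ∨ n ≤ 3 ∨
      ∃ (A : SpecialLinearGroup (Fin n) K) (r : K),
        (A : Matrix (Fin n) (Fin n) K) * A = (r * r) • (1 : Matrix (Fin n) (Fin n) K) ∧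
        QuotientGroup.mk A = a ∧
        (n ≠ 4 ∨ ∃ w g : Fin n → K,
          (A : Matrix (Fin n) (Fin n) K) = r • (1 : Matrix (Fin n) (Fin n) K) + vecMulVec w g))
    (τ : Equiv.Perm {b : ProjectiveSpecialLinearGroup (Fin n) K // IsConj a b})
    (hτ : ∀ x y, x ≠ y → orderOf ((τ x : ProjectiveSpecialLinearGroup (Fin n) K) * τ y) =
      orderOf ((x : ProjectiveSpecialLinearGroup (Fin n) K) * y)) :
    ∃ φ : MulAut (ProjectiveSpecialLinearGroup (Fin n) K),
      φ '' {b | IsConj a b} = {b | IsConj a b} ∧ ∀ x, φ x.1 = (τ x).1 := by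
  by_cases h2 : (2 : K) = 0
  · have : CharP K 2 := CharTwo.of_one_ne_zero_of_two_eq_zero one_ne_zero h2
    have : Nonempty (Fin n) := ⟨⟨0, by omega⟩⟩
    exact Helper2.EV.all_classes a ha τ hτ
  by_cases h3 : n ≤ 3
  · interval_cases n
    · have h4 : 4 ≤ Nat.card K := by
        rcases hL with h5 | h5
        · omega
        · exact h5
      have h6 := Helper81.PS.final h2 h4 {b | IsConj a b} ⟨a, ha, fun b => Iff.rfl⟩ τ
        (fun x y hxy => by rw [hτ x y hxy]) (fun _ _ x y hxy => by rw [hτ x y hxy])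
        (fun _ x y hxy => by rw [hτ x y hxy])
      obtain ⟨-, φ, hφ1, hφ2⟩ := h6
      exact ⟨φ, hφ1, hφ2⟩
    · obtain ⟨A, r, w, g, hw, hg, hA, hA2, hmk⟩ := Helper2.RO.three_psl a ha
      exact (Helper2.RO.rank_one_class (by rw [Fintype.card_fin]) A hw hg hA hA2 a hmk).2 τ hτ
  have hn3 : 3 ≤ Fintype.card (Fin n) := by rw [Fintype.card_fin]; omega
  rcases h with h | h | h | ⟨A, r, hA2, hmk, h⟩
  · exact absurd h h2
  · exact odd_class h2 hn3 (by rw [Fintype.card_fin]; exact h) a ha τ hτ
  · exact absurd h h3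
  rcases h with h | ⟨w, g, hA⟩
  · exact split_class h2 hn3 A r hA2 (by rw [Fintype.card_fin]; exact h) a hmk ha τ hτ
  · have hns : ∀ s : K, (A : Matrix (Fin n) (Fin n) K) ≠ s • (1 : Matrix (Fin n) (Fin n) K) := by
      intro s hs
      have h7 : (QuotientGroup.mk A : ProjectiveSpecialLinearGroup (Fin n) K) =
          QuotientGroup.mk (1 : SpecialLinearGroup (Fin n) K) := by
        rw [eq_comm]
        exact (Helper2.RO.mk_eq_iff _ _).2 ⟨s, hs⟩
      rw [hmk] at h7
      rw [show (QuotientGroup.mk (1 : SpecialLinearGroup (Fin n) K) :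
        ProjectiveSpecialLinearGroup (Fin n) K) = 1 from rfl] at h7
      rw [h7, orderOf_one] at ha
      omega
    have hw : w ≠ 0 := by
      rintro rfl
      apply hns r
      rw [hA, Helper2.RO.vec_eq_zero.2 (Or.inl rfl), add_zero]
    have hg : g ≠ 0 := by
      rintro rfl
      apply hns r
      rw [hA, Helper2.RO.vec_eq_zero.2 (Or.inr rfl), add_zero]
    exact (Helper2.RO.rank_one_class hn3 A hw hg hA hA2 a hmk).2 τ hτ

end Pool.Agent.Helper92.LQ.Lin
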