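import Pool.Agent.Helper92.LQ.TA

/-!
# Project LQ, block TD: generation of `I1`

`lemF`. Change the basis so that `X = (1, 0)`, `Y = (0, 1)` (conjugate everything by the matrix with
columns `X`, `Y`). Then `h1` gives all `!![1, b; 0, 0]` and `h3` all `!![1, 0; c, 0]`. A matrix `B = !![s, x; y, 1 - s]` of `I1` with
`s ≠ 0` is `(1 - 2P) Y (1 - 2P)` with `P = !![1, 0; y/(2s), 0]`, `Y = !![1, -x; 0, 0]`. If `s = 0` take
`P = !![1/2, 1/2; 1/2, 1/2]` (already in `S`): `(1 - 2P) B (1 - 2P)` has upper left entry `1`, so it is in `S`, and `B` is its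
conjugate by `P`.
-/

set_option autoImplicit false

open Module

namespace Pool.Agent.Helper92.LQ

variable {K : Type*} [Field K]

private theorem std26 (h2 : (2 : K) ≠ 0) {S : Matrix (Fin 2) (Fin 2) K → Prop}
    (h1 : ∀ b : K, S !![1, b; 0, 0]) (h3 : ∀ c : K, S !![1, 0; c, 0])
    (h4 : ∀ A B, I1 A → I1 B → S A → S B → S ((1 - (A + A)) * B * (1 - (A + A)))) :
    ∀ A, I1 A → S A := by
  have hI1 : ∀ b : K, I1 (!![1, b; 0, 0] : Matrix (Fin 2) (Fin 2) K) := by
    intro b; rw [I1_iff]; simp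
  have hI3 : ∀ c : K, I1 (!![1, 0; c, 0] : Matrix (Fin 2) (Fin 2) K) := by
    intro c; rw [I1_iff]; simp
  have key : ∀ A : Matrix (Fin 2) (Fin 2) K, I1 A → A 0 0 ≠ 0 → S A := by
    intro A hA hs
    obtain ⟨ha, hb⟩ := I1_iff.1 hA
    have h5 := h4 !![1, 0; A 1 0 / (2 * A 0 0), 0] !![1, - A 0 1; 0, 0] (hI3 _) (hI1 _) (h3 _) (h1 _)
    have h6 : (1 - (!![1, 0; A 1 0 / (2 * A 0 0), 0] + !![1, 0; A 1 0 / (2 * A 0 0), 0])) *
        !![1, - A 0 1; 0, 0] *
        (1 - (!![1, 0; A 1 0 / (2 * A 0 0), 0] + !![1, 0; A 1 0 / (2 * A 0 0), 0])) = A := by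
      have h7 : A 1 0 / (2 * A 0 0) + A 1 0 / (2 * A 0 0) = A 1 0 / A 0 0 := by
        field_simp; ring
      ext i j
      fin_cases i <;> fin_cases j <;>
        simp [Matrix.mul_apply, Fin.sum_univ_two, h7, ha]
      · field_simp
        linear_combination -hb
      · field_simp
        linear_combination -(A 1 0) * hb
      · field_simp
        linear_combination hb
    rw [h6] at h5
    exact h5
  intro A hA
  by_cases hs : A 0 0 = 0
  · obtain ⟨ha, hb⟩ := I1_iff.1 hA
    have hh : (2 : K)⁻¹ + 2⁻¹ = 1 := by field_simp; norm_num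
    have hP : I1 (!![2⁻¹, 2⁻¹; 2⁻¹, 2⁻¹] : Matrix (Fin 2) (Fin 2) K) := by
      rw [I1_iff]
      constructor
      · show (2 : K)⁻¹ = 1 - 2⁻¹
        linear_combination hh
      · show (2 : K)⁻¹ * 2⁻¹ = 2⁻¹ * (1 - 2⁻¹)
        linear_combination (2 : K)⁻¹ * hh
    have hPS := key _ hP (by simp [h2])
    have hQ : I1 (!![1, A 1 0; A 0 1, 0] : Matrix (Fin 2) (Fin 2) K) := by
      rw [I1_iff]
      constructor
      · simp
      · simp
        rw [hs] at hb
        have h7 : A 0 1 * A 1 0 = 0 := by linear_combination hb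
        rcases mul_eq_zero.1 h7 with h8 | h8
        · right; exact h8
        · left; exact h8
    have hQS := key _ hQ (by simp)
    have h5 := h4 _ _ hP hQ hPS hQS
    have h6 : (1 - (!![2⁻¹, 2⁻¹; 2⁻¹, 2⁻¹] + !![2⁻¹, 2⁻¹; 2⁻¹, 2⁻¹])) *
        !![1, A 1 0; A 0 1, 0] *
        (1 - (!![2⁻¹, 2⁻¹; 2⁻¹, 2⁻¹] + !![2⁻¹, 2⁻¹; 2⁻¹, 2⁻¹])) = A := by
      ext i j
      fin_cases i <;> fin_cases j <;>
        simp [Matrix.mul_apply, Fin.sum_univ_two, hh, ha, hs]
    rw [h6] at h5
    exact h5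
  · exact key A hA hs

theorem lemF (h2 : (2 : K) ≠ 0) {S : Matrix (Fin 2) (Fin 2) K → Prop} {X Y : Fin 2 → K}
    (hi : X 0 * Y 1 - X 1 * Y 0 ≠ 0) (h1 : ∀ A, I1 A → A.mulVec X = X → S A)
    (h3 : ∀ A, I1 A → A.mulVec Y = 0 → S A)
    (h4 : ∀ A B, I1 A → I1 B → S A → S B → S ((1 - (A + A)) * B * (1 - (A + A)))) :
    ∀ A, I1 A → S A := by
  set d : K := X 0 * Y 1 - X 1 * Y 0 with hd
  set g : Matrix (Fin 2) (Fin 2) K := !![X 0, Y 0; X 1, Y 1] with hg
  set g' : Matrix (Fin 2) (Fin 2) K := !![Y 1 / d, - Y 0 / d; - X 1 / d, X 0 / d] with hg'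
  have hgg : g * g' = 1 := by
    ext i j
    fin_cases i <;> fin_cases j <;>
      simp [hg, hg', Matrix.mul_apply, Fin.sum_univ_two]
    · field_simp
      rw [hd]; ring
    · field_simp
      ring
    · field_simp
      ring
    · field_simp
      rw [hd]; ring
  have hgg' : g' * g = 1 := by
    ext i j
    fin_cases i <;> fin_cases j <;>
      simp [hg, hg', Matrix.mul_apply, Fin.sum_univ_two]
    · field_simp
      rw [hd]; ring
    · field_simp
      ring
    · field_simp
      ring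
    · field_simp
      rw [hd]; ring
  have hX : g.mulVec ![1, 0] = X := by
    ext i; fin_cases i <;> simp [hg, Matrix.mulVec, dotProduct, Fin.sum_univ_two]
  have hY : g.mulVec ![0, 1] = Y := by
    ext i; fin_cases i <;> simp [hg, Matrix.mulVec, dotProduct, Fin.sum_univ_two]
  have hprod : ∀ A B : Matrix (Fin 2) (Fin 2) K, (g * A * g') * (g * B * g') = g * (A * B) * g' := by
    intro A B
    calc (g * A * g') * (g * B * g') = g * A * (g' * g) * B * g' := by simp only [mul_assoc]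
      _ = g * (A * B) * g' := by rw [hgg']; simp only [mul_assoc, mul_one]
  have hI : ∀ A : Matrix (Fin 2) (Fin 2) K, I1 A → I1 (g * A * g') := by
    intro A hA
    refine ⟨?_, ?_⟩
    · rw [hprod, hA.1]
    · rw [Matrix.trace_mul_comm, ← mul_assoc, hgg', one_mul, hA.2]
  have hI' : ∀ A : Matrix (Fin 2) (Fin 2) K, I1 A → I1 (g' * A * g) := by
    intro A hA
    refine ⟨?_, ?_⟩
    · calc (g' * A * g) * (g' * A * g) = g' * A * (g * g') * A * g := by simp only [mul_assoc]
        _ = g' * (A * A) * g := by rw [hgg]; simp only [mul_assoc, mul_one]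
        _ = g' * A * g := by rw [hA.1]
    · rw [Matrix.trace_mul_comm, ← mul_assoc, hgg, one_mul, hA.2]
  have hm : ∀ (A : Matrix (Fin 2) (Fin 2) K) (v : Fin 2 → K),
      (g * A * g').mulVec (g.mulVec v) = g.mulVec (A.mulVec v) := by
    intro A v
    rw [Matrix.mulVec_mulVec, Matrix.mulVec_mulVec]
    congr 1
    rw [mul_assoc, hgg', mul_one]
  have hone : ∀ A : Matrix (Fin 2) (Fin 2) K,
      1 - (g * A * g' + g * A * g') = g * (1 - (A + A)) * g' := by
    intro A
    rw [mul_sub, mul_one, sub_mul, hgg, mul_add, add_mul]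
  have hstd := std26 h2 (S := fun A => S (g * A * g')) (by
      intro b
      refine h1 _ (hI _ (by rw [I1_iff]; simp)) ?_
      rw [← hX, hm]
      congr 1
      ext i; fin_cases i <;> simp [Matrix.mulVec, dotProduct, Fin.sum_univ_two]) (by
      intro c
      refine h3 _ (hI _ (by rw [I1_iff]; simp)) ?_
      rw [← hY, hm]
      have h5 : (!![1, 0; c, 0] : Matrix (Fin 2) (Fin 2) K).mulVec ![0, 1] = 0 := by
        ext i; fin_cases i <;> simp [Matrix.mulVec, dotProduct, Fin.sum_univ_two]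
      rw [h5, Matrix.mulVec_zero]) (by
      intro A B hA hB hSA hSB
      have h5 := h4 _ _ (hI A hA) (hI B hB) hSA hSB
      rw [hone, hprod, hprod] at h5
      exact h5)
  intro A hA
  have h5 := hstd (g' * A * g) (hI' A hA)
  have h6 : g * (g' * A * g) * g' = A := by
    calc g * (g' * A * g) * g' = (g * g') * A * (g * g') := by simp only [mul_assoc]
      _ = A := by rw [hgg, one_mul, mul_one]
  simpa only [h6] using h5

end Pool.Agent.Helper92.LQ
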