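import Pool.Agent.Helper92.LQ.Geo
import Pool.Agent.Helper92.LQ.TD

/-!
# Project LQ, block NB: the generic step of the induction

`u = b y`, `w = x - b x`: `b u = u`, `b w = 0`, `a u ≠ u`, `a w ≠ 0`.
(1) There are functionals `f, g` with `f ∘ b = f`, `f u = 1`, `f z = 0` whenever `a z = z` and `b z = z`; `g ∘ b = 0`, `g w = 1`, `g z = 0`
whenever `a z = 0` and `b z = 0`; and `f x * g y ≠ 1`. Indeed let `P` be the space of the `z` with `a z = z`, `b z = z`, and `N` the
space of the `z` with `a z = 0`, `b z = 0`. `u ∉ P`, so `sep` gives `f'` with `f' u = 1`, zero on `P`; `f = f' ∘ b`. In the same way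
`g = g' ∘ (1 - b)` with `g'` from `w ∉ N`.
 - If `b x ∉ P ⊔ K ∙ u` then `u ∉ P ⊔ K ∙ b x` (as `u ∉ P`), so we can choose `f'` with `f' (b x) = 0` as well (`sep2`): `f x = 0`.
 - If `y - b y ∉ N ⊔ K ∙ w` we can choose `g y = 0` in the same way.
 - Otherwise `b x = z + α u`, `y - b y = z' + β w`, `z ∈ P`, `z' ∈ N`, so `f x = f (b x) = α`, `g y = β`. If `α β = 1`:
   `x - z = w + α u` is fixed by `a`, and `α (y - z') = α u + α β w = α u + w` is killed by `a`; so `w + α u = 0`, apply `b`:
   `α u = 0`, so `w = 0`, but `a w ≠ 0`.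
(2) By `frame_of` `p0 = b - f.smulRight u`, `E = bE u w`, `F = bF f g` is a block with `b = el p0 E F E0`. Let `S A` be
`G a (el p0 E F A)`. If `a v = b v` then `f v = f (b v) = 0` (`b v = a v ∈ P`) and `g v = g (v - b v) = 0` (`v - b v ∈ N`), so
`el p0 E F A v = b v = a v`. Also `x` is not in `ker (a - b)` (`g x = g (x - b x) = 1`), nor is `y` (`f y = f (b y) = 1`).
 - If `A.mulVec ![f x, 1] = ![f x, 1]` then `el p0 E F A x = b x - f x • u + f x • u + w = x = a x` (`g x = 1`). So
   `ker (a - b) < ker (a - el p0 E F A)` and `IH` gives `S A` (`Pj_el`).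
 - If `A.mulVec ![1, g y] = 0` then `el p0 E F A y = b y - f y • u = 0 = a y`, `S A` again.
 By `lemF` (with `X = ![f x, 1]`, `Y = ![1, g y]`; `hG.closure`, `hG.frame`, `cj_el`) `S A` holds for all `A` of `I1`; take `A = E0`.
-/

set_option autoImplicit false

open Module

namespace Pool.Agent.Helper92.LQ

variable {K V : Type*} [Field K] [AddCommGroup V] [Module K V] [FiniteDimensional K V]

omit [FiniteDimensional K V] in
/-- A functional one at `u`, zero on `U`, and zero at `z` if possible. -/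
private theorem sep85 (U : Submodule K V) {u : V} (hu : u ∉ U) (z : V) :
    ∃ f : Dual K V, f u = 1 ∧ (∀ v ∈ U, f v = 0) ∧ (f z = 0 ∨ ∃ p ∈ U, ∃ r : K, z = p + r • u) := by
  by_cases h : u ∈ U ⊔ K ∙ z
  · obtain ⟨f, hf, hU⟩ := sep U hu
    refine ⟨f, hf, hU, Or.inr ?_⟩
    obtain ⟨p, hp, q, hq, hpq⟩ := Submodule.mem_sup.1 h
    obtain ⟨r, rfl⟩ := Submodule.mem_span_singleton.1 hq
    have hr : r ≠ 0 := by
      rintro rfl
      apply hu
      rw [← hpq, zero_smul, add_zero]
      exact hp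
    refine ⟨-(r⁻¹ • p), U.neg_mem (U.smul_mem _ hp), r⁻¹, ?_⟩
    rw [← hpq, smul_add, smul_smul, inv_mul_cancel₀ hr, one_smul, neg_add_cancel_left]
  · obtain ⟨f, hf, hz, hU⟩ := sep2 U h
    exact ⟨f, hf, hU, Or.inl hz⟩

theorem nb_case (h2 : (2 : K) ≠ 0) {k : ℕ} {G : End K V → End K V → Prop} (hG : GS k G)
    {a b : End K V} (ha : Pj k a) (hb : Pj k b)
    (IH : ∀ b', Pj k b' → dk a b < dk a b' → G a b') {x y : V} (hy : a y = 0)
    (hby : a (b y) ≠ b y) (hx : a x = x) (hbx : a (x - b x) ≠ 0) : G a b := by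
  have haa : ∀ v, a (a v) = a v := fun v => by rw [← Module.End.mul_apply, ha.1]
  have hbb : ∀ v, b (b v) = b v := fun v => by rw [← Module.End.mul_apply, hb.1]
  obtain ⟨u, hu⟩ : ∃ u, u = b y := ⟨_, rfl⟩
  obtain ⟨w, hw⟩ : ∃ w, w = x - b x := ⟨_, rfl⟩
  rw [← hu] at hby
  rw [← hw] at hbx
  have hbu : b u = u := by rw [hu, hbb]
  have hbw : b w = 0 := by rw [hw, map_sub, hbb, sub_self]
  have hP : ∀ v, v ∈ LinearMap.ker (a - 1) ⊓ LinearMap.ker (b - 1) ↔ a v = v ∧ b v = v := by
    intro v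
    rw [Submodule.mem_inf, LinearMap.mem_ker, LinearMap.mem_ker, LinearMap.sub_apply,
      LinearMap.sub_apply, Module.End.one_apply, sub_eq_zero, sub_eq_zero]
  have hN : ∀ v, v ∈ LinearMap.ker a ⊓ LinearMap.ker b ↔ a v = 0 ∧ b v = 0 := by
    intro v
    rw [Submodule.mem_inf, LinearMap.mem_ker, LinearMap.mem_ker]
  obtain ⟨f', hf1, hf2, hf3⟩ := sep85 (LinearMap.ker (a - 1) ⊓ LinearMap.ker (b - 1)) (u := u)
    (fun h => hby ((hP u).1 h).1) (b x)
  obtain ⟨g', hg1, hg2, hg3⟩ := sep85 (LinearMap.ker a ⊓ LinearMap.ker b) (u := w)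
    (fun h => hbx ((hN w).1 h).1) (y - b y)
  obtain ⟨f, hf⟩ : ∃ f : Dual K V, ∀ v, f v = f' (b v) := ⟨f' ∘ₗ b, fun v => rfl⟩
  obtain ⟨g, hg⟩ : ∃ g : Dual K V, ∀ v, g v = g' (v - b v) := ⟨g' ∘ₗ (1 - b), fun v => rfl⟩
  have hfb : ∀ v, f (b v) = f v := fun v => by rw [hf, hf, hbb]
  have hgb : ∀ v, g (b v) = 0 := fun v => by rw [hg, hbb, sub_self, map_zero]
  have hfu : f u = 1 := by rw [hf, hbu, hf1]
  have hgw : g w = 1 := by rw [hg, hbw, sub_zero, hg1]
  have hgx : g x = 1 := by rw [hg, ← hw, hg1]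
  have hfy : f y = 1 := by rw [hf, ← hu, hf1]
  have hfP : ∀ v, a v = v → b v = v → f v = 0 := by
    intro v h1 h3
    rw [hf, h3]
    exact hf2 v ((hP v).2 ⟨h1, h3⟩)
  have hgN : ∀ v, a v = 0 → b v = 0 → g v = 0 := by
    intro v h1 h3
    rw [hg, h3, sub_zero]
    exact hg2 v ((hN v).2 ⟨h1, h3⟩)
  have hfg : f x * g y ≠ 1 := by
    intro h1
    rcases hf3 with h3 | ⟨z, hz, r, hr⟩
    · rw [hf, h3, zero_mul] at h1
      exact zero_ne_one h1
    rcases hg3 with h3 | ⟨z', hz', s, hs⟩
    · rw [hg y, h3, mul_zero] at h1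
      exact zero_ne_one h1
    have hz1 := (hP z).1 hz
    have hz2 := (hN z').1 hz'
    rw [hf, hr, hg y, hs, map_add, map_add, hf2 z hz, hg2 z' hz', map_smul, map_smul, hf1, hg1,
      smul_eq_mul, smul_eq_mul, zero_add, zero_add, mul_one, mul_one] at h1
    have e1 : w + r • u = x - z := by
      rw [hw, hr]
      abel
    have e2 : w + r • u = r • (y - z') := by
      have e3 : y - z' = s • w + u := by
        rw [hu]
        calc y - z' = (y - b y) + b y - z' := by abel
          _ = s • w + b y := by rw [hs]; abel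
      rw [e3, smul_add, smul_smul, h1, one_smul]
    have e3 : w + r • u = 0 := by
      have e4 : a (w + r • u) = w + r • u := by rw [e1, map_sub, hx, hz1.1]
      rw [← e4, e2, map_smul, map_sub, hy, hz2.1, sub_zero, smul_zero]
    have e5 : r • u = 0 := by
      have e6 := congrArg b e3
      rwa [map_add, hbw, map_smul, hbu, zero_add, map_zero] at e6
    rw [e5, add_zero] at e3
    apply hbx
    rw [e3, map_zero]
  have hab : ∀ v, a v = b v → f v = 0 ∧ g v = 0 := by
    intro v hv
    constructor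
    · rw [← hfb]
      refine hfP _ ?_ (hbb v)
      rw [← hv, haa]
    · have h1 := hgN (v - b v) (by rw [map_sub, ← hv, haa, sub_self])
        (by rw [map_sub, hbb, sub_self])
      rwa [map_sub, hgb, sub_zero] at h1
  obtain ⟨hF, hk, hel⟩ := frame_of hb hbu hbw hfb hgb hfu hgw
  have hap : ∀ A v, el (b - f.smulRight u) (bE u w) (bF f g) A v = b v - f v • u +
      ((A 0 0 * f v + A 0 1 * g v) • u + (A 1 0 * f v + A 1 1 * g v) • w) := by
    intro A v
    rw [el, LinearMap.add_apply, em_b, LinearMap.sub_apply, LinearMap.smulRight_apply]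
  have hstep : ∀ A, I1 A → (∃ z, a z ≠ b z ∧
      el (b - f.smulRight u) (bE u w) (bF f g) A z = a z) →
      G a (el (b - f.smulRight u) (bE u w) (bF f g) A) := by
    rintro A hA ⟨z, hz1, hz2⟩
    refine IH _ (Pj_el hF hk hA) ?_
    refine Submodule.finrank_lt_finrank_of_lt ?_
    rw [SetLike.lt_iff_le_and_exists]
    constructor
    · intro v hv
      rw [LinearMap.mem_ker, LinearMap.sub_apply, sub_eq_zero] at hv ⊢
      obtain ⟨h1, h3⟩ := hab v hv
      rw [hap, h1, h3, hv]
      simp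
    · refine ⟨z, ?_, ?_⟩
      · rw [LinearMap.mem_ker, LinearMap.sub_apply, sub_eq_zero]
        exact hz2.symm
      · rw [LinearMap.mem_ker, LinearMap.sub_apply, sub_eq_zero]
        exact hz1
  have hall : ∀ A, I1 A → G a (el (b - f.smulRight u) (bE u w) (bF f g) A) := by
    refine lemF h2 (X := ![f x, 1]) (Y := ![1, g y]) ?_ ?_ ?_ ?_
    · intro h1
      apply hfg
      have h3 : f x * g y - 1 * 1 = 0 := h1
      linear_combination h3
    · intro A hA hX
      refine hstep A hA ⟨x, ?_, ?_⟩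
      · intro h1
        have h3 := (hab x h1).2
        rw [hgx] at h3
        exact one_ne_zero h3
      · have h3 : A 0 0 * f x + A 0 1 * 1 = f x := by
          have h5 := congrFun hX 0
          simpa [Matrix.mulVec, dotProduct, Fin.sum_univ_two] using h5
        have h4 : A 1 0 * f x + A 1 1 * 1 = 1 := by
          have h5 := congrFun hX 1
          simpa [Matrix.mulVec, dotProduct, Fin.sum_univ_two] using h5
        rw [hap, hgx, h3, h4, hx, one_smul, hw]
        abel
    · intro A hA hY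
      refine hstep A hA ⟨y, ?_, ?_⟩
      · intro h1
        have h3 := (hab y h1).1
        rw [hfy] at h3
        exact one_ne_zero h3
      · have h3 : A 0 0 * 1 + A 0 1 * g y = 0 := by
          have h5 := congrFun hY 0
          simpa [Matrix.mulVec, dotProduct, Fin.sum_univ_two] using h5
        have h4 : A 1 0 * 1 + A 1 1 * g y = 0 := by
          have h5 := congrFun hY 1
          simpa [Matrix.mulVec, dotProduct, Fin.sum_univ_two] using h5
        rw [hap, hfy, h3, h4, hy, one_smul, hu]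
        simp
    · intro A B hA hB hSA hSB
      have h1 := hG.closure a _ _ ha (Pj_el hF hk hA) (Pj_el hF hk hB) hSA hSB
        (hG.frame _ _ _ hF hk A B hA hB)
      rwa [cj_el hF] at h1
  rw [hel]
  exact hall E0 I1_E0

end Pool.Agent.Helper92.LQ
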