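import Pool.Agent.Helper92.LQ.Geo

/-!
# Project LQ: peeling off a rank one piece

`Dl a δ`: `δ` anticommutes with `1 - 2 a` and has square zero; then `a + δ` is an idempotent. `Ty a z g`: the rank one
endomorphism `g.smulRight z` maps the kernel of `a` to its range, or its range to its kernel.
-/

set_option autoImplicit false

open Module

namespace Pool.Agent.Helper92.LQ

variable {K V : Type*} [Field K] [AddCommGroup V] [Module K V]

/-- `a + δ` is an idempotent and `δ` exchanges range and kernel of `a`. -/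
structure Dl (a δ : End K V) : Prop where
  idem : a * a = a
  add : a * δ + δ * a = δ
  sq : δ * δ = 0

/-- The two kinds of rank one pieces. -/
def Ty (a : End K V) (z : V) (g : Dual K V) : Prop :=
  (a z = z ∧ ∀ v, g (a v) = 0) ∨ (a z = 0 ∧ ∀ v, g (a v) = g v)

theorem Dl_of_fail {a b : End K V} (ha : a * a = a) (hb : b * b = b)
    (h1 : (1 - a) * b * (1 - a) = 0) (h3 : a * (1 - b) * a = 0) : Dl a (b - a) := by
  have h4 : a * b * a = a := by
    have h5 : a * (1 - b) * a = a - a * b * a := by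
      rw [mul_sub, mul_one, sub_mul, ha]
    rw [h5] at h3
    exact (sub_eq_zero.1 h3).symm
  have h6 : b = a * b + b * a - a := by
    have h7 : (1 - a) * b * (1 - a) = b - a * b - b * a + a * b * a := by noncomm_ring
    rw [h7, h4] at h1
    have h8 : b = (b - a * b - b * a + a) + (a * b + b * a - a) := by abel
    rw [h1, zero_add] at h8
    exact h8
  have hadd : a * (b - a) + (b - a) * a = b - a := by
    rw [mul_sub, sub_mul, ha]
    conv_rhs => rw [h6]
    abel
  refine ⟨ha, hadd, ?_⟩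
  rw [mul_sub, sub_mul, sub_mul, ha, hb]
  have h9 : b - a * b - (b * a - a) = b - (a * b + b * a - a) := by abel
  rw [h9, ← h6, sub_self]

theorem Dl.mul_mul {a δ : End K V} (h : Dl a δ) : a * δ * a = 0 := by
  have h1 : δ * a = δ - a * δ := by rw [eq_sub_iff_add_eq, add_comm]; exact h.add
  rw [mul_assoc, h1, mul_sub, ← mul_assoc, h.idem, sub_self]

theorem Dl.apply {a δ : End K V} (h : Dl a δ) (v : V) : a (δ v) + δ (a v) = δ v :=
  congrArg (fun f : End K V => f v) h.add

theorem Dl.app0 {a δ : End K V} (h : Dl a δ) (v : V) : a (δ (a v)) = 0 :=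
  congrArg (fun f : End K V => f v) h.mul_mul

theorem Dl.sq0 {a δ : End K V} (h : Dl a δ) (v : V) : δ (δ v) = 0 :=
  congrArg (fun f : End K V => f v) h.sq

theorem exists_one {z : V} (hz : z ≠ 0) : ∃ f : Dual K V, f z = 1 := by
  obtain ⟨f, hf, -⟩ := sep (K := K) (⊥ : Submodule K V) (u := z) (by
    rw [Submodule.mem_bot]
    exact hz)
  exact ⟨f, hf⟩

theorem peel {a δ : End K V} (h : Dl a δ) (h0 : δ ≠ 0) :
    ∃ (v : V) (f : Dual K V), f (δ v) = 1 ∧ Ty a (δ v) (f ∘ₗ δ) := by
  have haa : ∀ v, a (a v) = a v := fun v => congrArg (fun f : End K V => f v) h.idem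
  obtain ⟨w, hw⟩ : ∃ w, δ w ≠ 0 := by
    by_contra hcon
    push Not at hcon
    exact h0 (LinearMap.ext hcon)
  by_cases hc : δ (a w) = 0
  · -- `v = w - a w` in the kernel of `a`
    obtain ⟨f, hf⟩ := exists_one (K := K) hw
    have h1 := h.apply w
    rw [hc, add_zero] at h1
    refine ⟨w, f ∘ₗ a, ?_, Or.inl ⟨h1, fun v => ?_⟩⟩
    · show f (a (δ w)) = 1
      rw [h1, hf]
    · show f (a (δ (a v))) = 0
      rw [h.app0, map_zero]
  · obtain ⟨f, hf⟩ := exists_one (K := K) hc
    have h1 := h.apply (a w)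
    rw [haa, add_eq_right] at h1
    refine ⟨a w, f ∘ₗ (1 - a), ?_, Or.inr ⟨h1, fun v => ?_⟩⟩
    · show f (δ (a w) - a (δ (a w))) = 1
      rw [h1, sub_zero, hf]
    · show f (δ (a v) - a (δ (a v))) = f (δ v - a (δ v))
      rw [h.app0, sub_zero]
      congr 1
      rw [eq_sub_iff_add_eq, add_comm]
      exact h.apply v

theorem Ty.dl {a : End K V} (ha : a * a = a) {z : V} {g : Dual K V} (h : Ty a z g) :
    Dl a (g.smulRight z) := by
  have hgz : g z = 0 := by
    rcases h with ⟨h1, h3⟩ | ⟨h1, h3⟩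
    · rw [← h1, h3]
    · rw [← h3, h1, map_zero]
  refine ⟨ha, ?_, ?_⟩
  · ext v
    simp only [LinearMap.add_apply, Module.End.mul_apply, LinearMap.smulRight_apply, map_smul]
    rcases h with ⟨h1, h3⟩ | ⟨h1, h3⟩
    · rw [h1, h3, zero_smul, add_zero]
    · rw [h1, h3, smul_zero, zero_add]
  · ext v
    simp only [Module.End.mul_apply, LinearMap.smulRight_apply, map_smul, hgz, zero_smul,
      smul_zero, LinearMap.zero_apply]

section peel

variable {a δ : End K V} {v : V} {f : Dual K V}

theorem peel_left (h : Dl a δ) : δ * ((f ∘ₗ δ).smulRight (δ v) : End K V) = 0 := by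
  ext w
  simp only [Module.End.mul_apply, LinearMap.smulRight_apply, map_smul, h.sq0, smul_zero,
    LinearMap.zero_apply]

theorem peel_right (h : Dl a δ) : ((f ∘ₗ δ).smulRight (δ v) : End K V) * δ = 0 := by
  ext w
  simp only [Module.End.mul_apply, LinearMap.smulRight_apply, LinearMap.comp_apply, h.sq0,
    map_zero, zero_smul, LinearMap.zero_apply]

theorem peel_sub (h : Dl a δ) (ht : Ty a (δ v) (f ∘ₗ δ)) :
    Dl a (δ - (f ∘ₗ δ).smulRight (δ v)) := by
  have h1 := ht.dl h.idem
  have h3 := peel_left (v := v) (f := f) h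
  have h4 := peel_right (v := v) (f := f) h
  generalize ((f ∘ₗ δ).smulRight (δ v) : End K V) = δ1 at h1 h3 h4
  refine ⟨h.idem, ?_, ?_⟩
  · have h5 := h.add
    have h6 := h1.add
    calc a * (δ - δ1) + (δ - δ1) * a = (a * δ + δ * a) - (a * δ1 + δ1 * a) := by noncomm_ring
      _ = δ - δ1 := by rw [h5, h6]
  · rw [mul_sub, sub_mul, sub_mul, h.sq, h3, h4, h1.sq]
    simp

theorem peel_rk [FiniteDimensional K V] (hf : f (δ v) = 1) :
    rk (δ - (f ∘ₗ δ).smulRight (δ v)) + 1 ≤ rk δ := by
  have h1 : LinearMap.ker δ < LinearMap.ker (δ - (f ∘ₗ δ).smulRight (δ v)) := by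
    rw [SetLike.lt_iff_le_and_exists]
    refine ⟨fun w hw => ?_, v, ?_, ?_⟩
    · rw [LinearMap.mem_ker] at hw ⊢
      simp [hw]
    · rw [LinearMap.mem_ker]
      simp [hf]
    · rw [LinearMap.mem_ker]
      intro h0
      rw [h0, map_zero] at hf
      exact zero_ne_one hf
  have h3 := Submodule.finrank_lt_finrank_of_lt h1
  have h4 := LinearMap.finrank_range_add_finrank_ker δ
  have h5 := LinearMap.finrank_range_add_finrank_ker (δ - (f ∘ₗ δ).smulRight (δ v))
  unfold rk
  omega

end peel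

end Pool.Agent.Helper92.LQ
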