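import Pool.Agent.Helper92.LQ.Defs

/-!
# Project LQ, block TA: idempotent `2 × 2` matrices of trace one, elementary facts

`I1 M` iff `M = !![s, x; y, 1 - s]` with `x * y = s * (1 - s)` (`I1_iff`). The rest follows in coordinates.
`I1_of_idem`: `M^2 = t M - d` (Cayley-Hamilton), so `(1 - t) M = -d`: if `t ≠ 1` then `M` is scalar, so `0` or `1`.
`I1_vec`: if `s ≠ 0`: `u = (s, y)`, `f = (1, x / s)`; if `s = 0`: `u = (x, 1)`, `f = (y, 1)`.
`I1_conj_E0`: `g` has the columns `u` and `(- f 1, f 0)`, `g'` the rows `f` and `(- u 1, u 0)`.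
-/

set_option autoImplicit false

open Module

namespace Pool.Agent.Helper92.LQ

variable {K : Type*} [Field K]

private theorem idem_iff45 {M : Matrix (Fin 2) (Fin 2) K} : M * M = M ↔
    M 0 0 * M 0 0 + M 0 1 * M 1 0 = M 0 0 ∧ M 0 0 * M 0 1 + M 0 1 * M 1 1 = M 0 1 ∧
    M 1 0 * M 0 0 + M 1 1 * M 1 0 = M 1 0 ∧ M 1 0 * M 0 1 + M 1 1 * M 1 1 = M 1 1 := by
  constructor
  · intro h
    have h' := fun i j => congrFun (congrFun h i) j
    simp only [Matrix.mul_apply, Fin.sum_univ_two] at h'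
    exact ⟨h' 0 0, h' 0 1, h' 1 0, h' 1 1⟩
  · rintro ⟨h1, h2, h3, h4⟩
    ext i j
    fin_cases i <;> fin_cases j <;> simp only [Matrix.mul_apply, Fin.sum_univ_two] <;> assumption

theorem I1_iff {M : Matrix (Fin 2) (Fin 2) K} : I1 M ↔
    M 1 1 = 1 - M 0 0 ∧ M 0 1 * M 1 0 = M 0 0 * (1 - M 0 0) := by
  unfold I1
  rw [idem_iff45, Matrix.trace_fin_two]
  constructor
  · rintro ⟨⟨h1, -, -, -⟩, ht⟩
    exact ⟨by linear_combination ht, by linear_combination h1⟩
  · rintro ⟨h1, h2⟩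
    rw [h1]
    refine ⟨⟨?_, ?_, ?_, ?_⟩, ?_⟩
    · linear_combination h2
    · ring
    · ring
    · linear_combination h2
    · ring

theorem I1_E0 : I1 (E0 : Matrix (Fin 2) (Fin 2) K) := by
  rw [I1_iff]
  constructor <;> simp [E0]

theorem I1_one_sub {M : Matrix (Fin 2) (Fin 2) K} (h : I1 M) : I1 (1 - M) := by
  rw [I1_iff] at h ⊢
  obtain ⟨h1, h2⟩ := h
  simp only [Matrix.sub_apply, Matrix.one_apply_eq, Matrix.one_apply_ne (zero_ne_one' (Fin 2)),
    Matrix.one_apply_ne (one_ne_zero' (Fin 2))]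
  refine ⟨?_, ?_⟩
  · linear_combination - h1
  · linear_combination h2

theorem I1_conj {A B : Matrix (Fin 2) (Fin 2) K} (hA : I1 A) (hB : I1 B) :
    I1 ((1 - (A + A)) * B * (1 - (A + A))) := by
  have h1 : (1 - (A + A)) * (1 - (A + A)) = 1 := by
    simp only [sub_mul, mul_sub, add_mul, mul_add, one_mul, mul_one, hA.1]
    abel
  refine ⟨?_, ?_⟩
  · calc (1 - (A + A)) * B * (1 - (A + A)) * ((1 - (A + A)) * B * (1 - (A + A)))
        = (1 - (A + A)) * B * ((1 - (A + A)) * (1 - (A + A))) * B * (1 - (A + A)) := by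
          simp only [mul_assoc]
      _ = (1 - (A + A)) * (B * B) * (1 - (A + A)) := by
          rw [h1, mul_one]
          simp only [mul_assoc]
      _ = (1 - (A + A)) * B * (1 - (A + A)) := by rw [hB.1]
  · rw [Matrix.trace_mul_comm, ← mul_assoc, h1, one_mul]
    exact hB.2

/-- An idempotent matrix other than `0`, `1` has trace one. -/
theorem I1_of_idem {M : Matrix (Fin 2) (Fin 2) K} (h : M * M = M) (h0 : M ≠ 0) (h1 : M ≠ 1) :
    I1 M := by
  refine ⟨h, ?_⟩
  obtain ⟨e1, e2, e3, e4⟩ := idem_iff45.1 h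
  rw [Matrix.trace_fin_two]
  by_contra ht
  have ht' : M 0 0 + M 1 1 - 1 ≠ 0 := sub_ne_zero.2 ht
  have hb : M 0 1 = 0 := by
    have h2 : M 0 1 * (M 0 0 + M 1 1 - 1) = 0 := by linear_combination e2
    exact (mul_eq_zero.1 h2).resolve_right ht'
  have hc : M 1 0 = 0 := by
    have h2 : M 1 0 * (M 0 0 + M 1 1 - 1) = 0 := by linear_combination e3
    exact (mul_eq_zero.1 h2).resolve_right ht'
  rw [hb, zero_mul, add_zero] at e1
  rw [hb, mul_zero, zero_add] at e4
  have ha : M 0 0 = 0 ∨ M 0 0 = 1 := by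
    have h2 : M 0 0 * (M 0 0 - 1) = 0 := by linear_combination e1
    rcases mul_eq_zero.1 h2 with h3 | h3
    · exact Or.inl h3
    · exact Or.inr (sub_eq_zero.1 h3)
  have hd : M 1 1 = 0 ∨ M 1 1 = 1 := by
    have h2 : M 1 1 * (M 1 1 - 1) = 0 := by linear_combination e4
    rcases mul_eq_zero.1 h2 with h3 | h3
    · exact Or.inl h3
    · exact Or.inr (sub_eq_zero.1 h3)
  rcases ha with ha | ha <;> rcases hd with hd | hd
  · refine h0 ?_
    ext i j
    fin_cases i <;> fin_cases j <;> simp [ha, hb, hc, hd]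
  · exact ht (by rw [ha, hd, zero_add])
  · exact ht (by rw [ha, hd, add_zero])
  · refine h1 ?_
    ext i j
    fin_cases i <;> fin_cases j <;> simp [ha, hb, hc, hd]

/-- Matrices of `I1` have rank one. -/
theorem I1_vec {M : Matrix (Fin 2) (Fin 2) K} (h : I1 M) :
    ∃ u f : Fin 2 → K, M = Matrix.vecMulVec u f ∧ f 0 * u 0 + f 1 * u 1 = 1 := by
  rw [I1_iff] at h
  obtain ⟨h1, h2⟩ := h
  by_cases hs : M 0 0 = 0
  · rw [hs, sub_zero] at h1
    rw [hs, zero_mul] at h2
    refine ⟨![M 0 1, 1], ![M 1 0, 1], ?_, ?_⟩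
    · ext i j
      fin_cases i <;> fin_cases j <;> simp [Matrix.vecMulVec_apply, hs, h1, h2]
    · show M 1 0 * M 0 1 + 1 * 1 = 1
      rw [mul_comm (M 1 0), h2, zero_add, one_mul]
  · have h3 : M 1 0 * (M 0 1 / M 0 0) = 1 - M 0 0 := by
      field_simp
      linear_combination h2
    refine ⟨![M 0 0, M 1 0], ![1, M 0 1 / M 0 0], ?_, ?_⟩
    · ext i j
      fin_cases i <;> fin_cases j
      · simp [Matrix.vecMulVec_apply]
      · simp [Matrix.vecMulVec_apply, mul_div_cancel₀, hs]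
      · simp [Matrix.vecMulVec_apply]
      · show M 1 1 = M 1 0 * (M 0 1 / M 0 0)
        rw [h3, h1]
    · show 1 * M 0 0 + M 0 1 / M 0 0 * M 1 0 = 1
      rw [mul_comm (M 0 1 / M 0 0), h3]
      ring

/-- Matrices of `I1` are conjugate to `E0`. -/
theorem I1_conj_E0 {M : Matrix (Fin 2) (Fin 2) K} (h : I1 M) :
    ∃ g g' : Matrix (Fin 2) (Fin 2) K, g * g' = 1 ∧ g' * g = 1 ∧ M = g * E0 * g' := by
  obtain ⟨u, f, hM, huf⟩ := I1_vec h
  refine ⟨!![u 0, - f 1; u 1, f 0], !![f 0, f 1; - u 1, u 0], ?_, ?_, ?_⟩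
  · ext i j
    fin_cases i <;> fin_cases j
    · simp only [Matrix.mul_apply, Fin.sum_univ_two, Fin.zero_eta, Fin.isValue, Matrix.of_apply,
        Matrix.cons_val', Matrix.cons_val_zero, Matrix.cons_val_one, Matrix.cons_val_fin_one,
        Matrix.one_apply_eq]
      linear_combination huf
    · simp [Matrix.mul_apply, Fin.sum_univ_two]
      ring
    · simp [Matrix.mul_apply, Fin.sum_univ_two]
      ring
    · simp only [Matrix.mul_apply, Fin.sum_univ_two, Fin.mk_one, Fin.isValue, Matrix.of_apply,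
        Matrix.cons_val', Matrix.cons_val_zero, Matrix.cons_val_one, Matrix.cons_val_fin_one,
        Matrix.one_apply_eq]
      linear_combination huf
  · ext i j
    fin_cases i <;> fin_cases j
    · simp only [Matrix.mul_apply, Fin.sum_univ_two, Fin.zero_eta, Fin.isValue, Matrix.of_apply,
        Matrix.cons_val', Matrix.cons_val_zero, Matrix.cons_val_one, Matrix.cons_val_fin_one,
        Matrix.one_apply_eq]
      linear_combination huf
    · simp [Matrix.mul_apply, Fin.sum_univ_two]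
      ring
    · simp [Matrix.mul_apply, Fin.sum_univ_two]
      ring
    · simp only [Matrix.mul_apply, Fin.sum_univ_two, Fin.mk_one, Fin.isValue, Matrix.of_apply,
        Matrix.cons_val', Matrix.cons_val_zero, Matrix.cons_val_one, Matrix.cons_val_fin_one,
        Matrix.one_apply_eq]
      linear_combination huf
  · rw [hM]
    ext i j
    fin_cases i <;> fin_cases j <;>
      simp [E0, Matrix.mul_apply, Fin.sum_univ_two, Matrix.vecMulVec_apply]

end Pool.Agent.Helper92.LQ
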