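import Pool.Agent.Helper92.LQ.TA

/-!
# Project LQ, block TB: orders of products

For `I1 A`, `I1 B` the matrix `C = (1 - (A + A)) * (1 - (B + B))` has determinant `1` and trace
`t = 4 tr (A B) - 2`, so `C^2 = t C - 1`. Hence:
- `two_pow`: `C^p = 1` iff `t = 2` iff `tr (A B) = 1`. (If `t = 2`: `(C - 1)^2 = 0`, so
  `C^p = 1 + (C - 1)^p = 1` in characteristic `p`. Conversely `(C - 1)^p = 0` makes `C - 1` nilpotent, so its
  trace vanishes.)
- `two_sq`: `C^2 = 1` iff `t C = 2` iff (`C` scalar) `C = 1` or `C = -1`, that is `B = A` or `B = 1 - A`.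
- `two_four`: `C^4 = 1` iff `C^2 = 1` or `C^2 = -1` (apply the former to `C^2`, of determinant one: a matrix `D` of
  determinant one with `D^2 = 1` is `1` or `-1`), and `C^2 = -1` iff `t C = 0` iff `t = 0` iff `2 tr (A B) = 1`.
-/

set_option autoImplicit false

open Module

namespace Pool.Agent.Helper92.LQ

variable {K : Type*} [Field K]

private theorem ch (C : Matrix (Fin 2) (Fin 2) K) : C * C = C.trace • C - C.det • 1 := by
  ext i j
  fin_cases i <;> fin_cases j <;>
    simp [Matrix.mul_apply, Fin.sum_univ_two, Matrix.trace_fin_two, Matrix.det_fin_two] <;> ring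

private theorem iv2_sq {A : Matrix (Fin 2) (Fin 2) K} (hA : I1 A) :
    (1 - (A + A)) * (1 - (A + A)) = 1 := by
  simp only [sub_mul, mul_sub, add_mul, mul_add, one_mul, mul_one, hA.1]
  abel

private theorem iv2_det {A : Matrix (Fin 2) (Fin 2) K} (hA : I1 A) :
    (1 - (A + A)).det = -1 := by
  obtain ⟨h1, h2⟩ := I1_iff.mp hA
  simp only [Matrix.det_fin_two, Matrix.sub_apply, Matrix.add_apply, Matrix.one_apply_eq, ne_eq,
    zero_ne_one, one_ne_zero, not_false_eq_true, Matrix.one_apply_ne, h1]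
  linear_combination (-4 : K) * h2

private theorem prod_det {A B : Matrix (Fin 2) (Fin 2) K} (hA : I1 A) (hB : I1 B) :
    ((1 - (A + A)) * (1 - (B + B))).det = 1 := by
  rw [Matrix.det_mul, iv2_det hA, iv2_det hB]
  ring

private theorem prod_trace {A B : Matrix (Fin 2) (Fin 2) K} (hA : I1 A) (hB : I1 B) :
    ((1 - (A + A)) * (1 - (B + B))).trace = 4 * (A * B).trace - 2 := by
  have h : (1 - (A + A)) * (1 - (B + B)) = 1 - (A + A) - (B + B) + (A * B + A * B + A * B + A * B) := by
    simp only [sub_mul, mul_sub, add_mul, mul_add, one_mul, mul_one]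
    abel
  rw [h]
  simp only [Matrix.trace_add, Matrix.trace_sub, hA.2, hB.2, Matrix.trace_one, Fintype.card_fin]
  push_cast
  ring

private theorem prod_ch {A B : Matrix (Fin 2) (Fin 2) K} (hA : I1 A) (hB : I1 B) :
    ((1 - (A + A)) * (1 - (B + B))) * ((1 - (A + A)) * (1 - (B + B))) =
      (4 * (A * B).trace - 2) • ((1 - (A + A)) * (1 - (B + B))) - 1 := by
  rw [ch ((1 - (A + A)) * (1 - (B + B))), prod_trace hA hB, prod_det hA hB, one_smul]

/-- involutions of determinant one are scalar -/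
private theorem inv_scalar (h2 : (2 : K) ≠ 0) {D : Matrix (Fin 2) (Fin 2) K} (hd : D.det = 1)
    (hD : D * D = 1) : D = 1 ∨ D = -1 := by
  have h := ch D
  rw [hD, hd, one_smul] at h
  -- `t D = 2`
  have h3 : D.trace • D = (2 : K) • (1 : Matrix (Fin 2) (Fin 2) K) := by
    rw [two_smul, ← sub_eq_iff_eq_add]
    exact h.symm
  have ht : D.trace ≠ 0 := by
    intro h0
    rw [h0, zero_smul] at h3
    have := congrFun (congrFun h3 0) 0
    simp at this
    exact h2 this.symm
  have h4 : D = (D.trace⁻¹ * 2) • (1 : Matrix (Fin 2) (Fin 2) K) := by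
    rw [mul_smul, ← h3, smul_smul, inv_mul_cancel₀ ht, one_smul]
  set c := D.trace⁻¹ * 2 with hc
  have h5 : c * c = 1 := by
    rw [h4] at hD
    have := congrFun (congrFun hD 0) 0
    simpa using this
  rcases mul_self_eq_one_iff.mp h5 with h6 | h6
  · left
    rw [h4, h6, one_smul]
  · right
    rw [h4, h6, neg_smul, one_smul]

private theorem eq_of_prod_one (h2 : (2 : K) ≠ 0) {A B : Matrix (Fin 2) (Fin 2) K} (hA : I1 A)
    (h : (1 - (A + A)) * (1 - (B + B)) = 1) : B = A := by
  have h1 : 1 - (B + B) = 1 - (A + A) := by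
    calc 1 - (B + B) = (1 - (A + A)) * (1 - (A + A)) * (1 - (B + B)) := by rw [iv2_sq hA, one_mul]
      _ = (1 - (A + A)) * ((1 - (A + A)) * (1 - (B + B))) := by rw [mul_assoc]
      _ = 1 - (A + A) := by rw [h, mul_one]
  have h3 : B + B = A + A := sub_right_injective h1
  have h4 : (2 : K) • B = (2 : K) • A := by rw [two_smul, two_smul, h3]
  exact smul_right_injective _ h2 h4

private theorem eq_of_prod_neg (h2 : (2 : K) ≠ 0) {A B : Matrix (Fin 2) (Fin 2) K} (hA : I1 A)
    (h : (1 - (A + A)) * (1 - (B + B)) = -1) : B = 1 - A := by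
  have h1 : 1 - (B + B) = -(1 - (A + A)) := by
    calc 1 - (B + B) = (1 - (A + A)) * (1 - (A + A)) * (1 - (B + B)) := by rw [iv2_sq hA, one_mul]
      _ = (1 - (A + A)) * ((1 - (A + A)) * (1 - (B + B))) := by rw [mul_assoc]
      _ = -(1 - (A + A)) := by rw [h, mul_neg, mul_one]
  have h3 : B + B = (1 - A) + (1 - A) := by
    have : B + B = 1 - (1 - (B + B)) := by abel
    rw [this, h1]
    abel
  have h4 : (2 : K) • B = (2 : K) • (1 - A) := by rw [two_smul, two_smul, h3]
  exact smul_right_injective _ h2 h4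

theorem two_pow (h2 : (2 : K) ≠ 0) (p : ℕ) [Fact p.Prime] [CharP K p]
    {A B : Matrix (Fin 2) (Fin 2) K} (hA : I1 A) (hB : I1 B) :
    ((1 - (A + A)) * (1 - (B + B))) ^ p = 1 ↔ (A * B).trace = 1 := by
  have hch := prod_ch hA hB
  have htr := prod_trace hA hB
  set C := (1 - (A + A)) * (1 - (B + B)) with hC
  have hp : p.Prime := Fact.out
  have h4 : (4 : K) ≠ 0 := by
    have : (4 : K) = 2 * 2 := by norm_num
    rw [this]
    exact mul_ne_zero h2 h2
  have hsub : (C - 1) ^ p = C ^ p - 1 := by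
    rw [sub_pow_char_of_commute _ (Commute.one_right C), one_pow]
  rw [← sub_eq_zero, ← hsub]
  constructor
  · intro h
    have h5 : IsNilpotent (C - 1) := ⟨p, h⟩
    have h6 := (Matrix.isNilpotent_trace_of_isNilpotent h5).eq_zero
    rw [Matrix.trace_sub, htr, Matrix.trace_one, Fintype.card_fin] at h6
    have h7 : (4 : K) * ((A * B).trace - 1) = 0 := by
      push_cast at h6
      linear_combination h6
    rcases mul_eq_zero.mp h7 with h8 | h8
    · exact absurd h8 h4
    · exact sub_eq_zero.mp h8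
  · intro h
    rw [h] at hch
    have h5 : (C - 1) ^ 2 = 0 := by
      have h6 : (C - 1) ^ 2 = C * C - (2 : K) • C + 1 := by
        rw [sq, sub_mul, mul_sub, mul_one, one_mul, two_smul]
        abel
      rw [h6, hch, show (4 * 1 - 2 : K) = 2 by norm_num]
      abel
    obtain ⟨k, rfl⟩ : ∃ k, p = 2 + k := ⟨p - 2, by have := hp.two_le; omega⟩
    rw [pow_add, h5, zero_mul]

theorem two_sq (h2 : (2 : K) ≠ 0) {A B : Matrix (Fin 2) (Fin 2) K} (hA : I1 A) (hB : I1 B) :
    ((1 - (A + A)) * (1 - (B + B))) ^ 2 = 1 ↔ B = A ∨ B = 1 - A := by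
  constructor
  · intro h
    rw [sq] at h
    rcases inv_scalar h2 (prod_det hA hB) h with h3 | h3
    · exact Or.inl (eq_of_prod_one h2 hA h3)
    · exact Or.inr (eq_of_prod_neg h2 hA h3)
  · rintro (rfl | rfl)
    · rw [iv2_sq hA, one_pow]
    · have : 1 - ((1 - A) + (1 - A)) = -(1 - (A + A)) := by abel
      rw [this, mul_neg, iv2_sq hA, neg_one_sq]

theorem two_four (h2 : (2 : K) ≠ 0) {A B : Matrix (Fin 2) (Fin 2) K} (hA : I1 A) (hB : I1 B) :
    ((1 - (A + A)) * (1 - (B + B))) ^ 4 = 1 ↔ B = A ∨ B = 1 - A ∨ 2 * (A * B).trace = 1 := by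
  have hch := prod_ch hA hB
  have hdet := prod_det hA hB
  have hsq := two_sq h2 hA hB
  set C := (1 - (A + A)) * (1 - (B + B)) with hC
  have hneg : C ^ 2 = -1 ↔ 2 * (A * B).trace = 1 := by
    rw [sq, hch]
    constructor
    · intro h
      have h3 : (4 * (A * B).trace - 2) • C = 0 := by
        have := congrArg (fun M => M + 1) h
        simpa using this
      rcases smul_eq_zero.mp h3 with h5 | h5
      · have h6 : (2 : K) * (2 * (A * B).trace - 1) = 0 := by linear_combination h5
        rcases mul_eq_zero.mp h6 with h7 | h7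
        · exact absurd h7 h2
        · exact sub_eq_zero.mp h7
      · rw [h5] at hdet
        simp at hdet
    · intro h
      rw [show 4 * (A * B).trace - 2 = 0 by linear_combination (2 : K) * h, zero_smul, zero_sub]
  constructor
  · intro h
    have h3 : C ^ 2 * C ^ 2 = 1 := by rw [← pow_add]; exact h
    have h5 : (C ^ 2).det = 1 := by rw [Matrix.det_pow, hdet, one_pow]
    rcases inv_scalar h2 h5 h3 with h6 | h6
    · rcases hsq.mp h6 with h7 | h7
      · exact Or.inl h7
      · exact Or.inr (Or.inl h7)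
    · exact Or.inr (Or.inr (hneg.mp h6))
  · have h4 : C ^ 4 = C ^ 2 * C ^ 2 := by rw [← pow_add]
    rintro (h | h | h)
    · rw [h4, hsq.mpr (Or.inl h), one_mul]
    · rw [h4, hsq.mpr (Or.inr h), one_mul]
    · rw [h4, hneg.mpr h, neg_mul_neg, one_mul]

end Pool.Agent.Helper92.LQ
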